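import Pool.Agent.Lib.MP_fc2a59_co.Jg.Defs
import Pool.Agent.Lib.MP_fc2a59_co.Final

/-!
# MP_fc2a59_co (Jaeger): from `Good` to the conclusion of the frozen statement
-/

set_option autoImplicit false

namespace Pool.Jg

open Finset Relation

variable {V : Type} [Fintype V] [DecidableEq V] (G : SimpleGraph V) [DecidableRel G.Adj]

theorem Tr.isTree {χ : V → Bool} {b : Bool} (h : Tr G.Adj (cl univ χ b)) :
    (G.induce {v | χ v = b}).IsTree := by
  classical
  have hm : ∀ v, v ∈ cl univ χ b ↔ χ v = b := fun v => by simp [cl]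
  rw [SimpleGraph.isTree_iff_connected_and_card]
  constructor
  · rw [SimpleGraph.connected_iff]
    constructor
    · have key : ∀ x y, ReflTransGen (stepIn G.Adj (cl univ χ b)) x y → ∀ hx : χ x = b,
          ∃ hy : χ y = b, (G.induce {v | χ v = b}).Reachable ⟨x, hx⟩ ⟨y, hy⟩ := by
        intro x y hxy hx
        induction hxy with
        | refl => exact ⟨hx, SimpleGraph.Reachable.refl _⟩
        | tail _ h2 ih =>
          obtain ⟨hz, hr⟩ := ih
          have hy := (hm _).1 h2.2.1
          refine ⟨hy, hr.trans (SimpleGraph.Adj.reachable ?_)⟩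
          exact h2.2.2
      rintro ⟨x, hx⟩ ⟨y, hy⟩
      obtain ⟨_, hr⟩ := key x y (h.conn x ((hm x).2 hx) y ((hm y).2 hy)) hx
      exact hr
    · obtain ⟨x, hx⟩ := h.ne
      exact ⟨⟨x, (hm x).1 hx⟩⟩
  · have h1 := h.cnt
    have h2 := (G.induce {v | χ v = b}).sum_degrees_eq_twice_card_edges
    have h3 : pairs G.Adj (cl univ χ b) = ∑ v : {v | χ v = b}, (G.induce {v | χ v = b}).degree v := by
      have h4 : ∀ v : {v | χ v = b}, (G.induce {v | χ v = b}).degree v =
          ((cl univ χ b).filter fun w => G.Adj v.1 w).card := by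
        intro v
        rw [← SimpleGraph.card_neighborFinset_eq_degree]
        refine card_bij (fun w _ => w.1) ?_ ?_ ?_
        · intro w hw
          rw [SimpleGraph.mem_neighborFinset] at hw
          rw [mem_filter, hm]
          exact ⟨w.2, hw⟩
        · intro w _ w' _ hww
          exact Subtype.ext hww
        · intro w hw
          rw [mem_filter, hm] at hw
          exact ⟨⟨w, hw.1⟩, by rw [SimpleGraph.mem_neighborFinset]; exact hw.2, rfl⟩
      rw [sum_congr rfl fun v _ => h4 v]
      have h5 : ∑ v : {v | χ v = b}, ((cl univ χ b).filter fun w => G.Adj v.1 w).card =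
          ∑ v ∈ cl univ χ b, ((cl univ χ b).filter fun w => G.Adj v w).card := by
        refine (sum_subtype (cl univ χ b) (fun x => ?_)
          (fun v => ((cl univ χ b).filter fun w => G.Adj v w).card)).symm
        rw [hm]
        rfl
      rw [h5, pairs, card_filter, sum_product]
      refine sum_congr rfl fun v _ => ?_
      rw [card_filter]
      exact sum_congr rfl fun w _ => by congr
    have h6 : Nat.card {v | χ v = b} = (cl univ χ b).card := by
      rw [Nat.card_eq_fintype_card, Fintype.card_subtype]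
      rfl
    have h7 : Nat.card (G.induce {v | χ v = b}).edgeSet =
        (G.induce {v | χ v = b}).edgeFinset.card := by
      rw [Nat.card_eq_fintype_card, SimpleGraph.edgeFinset_card]
    rw [h6, h7]
    omega

/-- THE LAST STEP of the Jaeger problem. -/
theorem split_of_good (h3 : ∀ v, G.degree v = 3) (hV : 2 < Fintype.card V) (χ : V → Bool)
    (h : Good G.Adj univ χ) :
    ∃ T₁ T₂ : SimpleGraph V,
      T₁ ⊔ T₂ = G ∧ Disjoint T₁ T₂ ∧
      T₁.IsAcyclic ∧ T₂.IsAcyclic ∧
      (∀ u v, u ∈ T₁.support → v ∈ T₁.support → T₁.Reachable u v) ∧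
      (∀ u v, u ∈ T₂.support → v ∈ T₂.support → T₂.Reachable u v) :=
  Pool.Agent.JaegerFinal.split_of_trees G h3 hV χ fun b => (h b).isTree G

end Pool.Jg
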