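import Pool.Agent.Lib.MP_fc2a59_co.Jg.Cut

/-!
# MP_fc2a59_co (Jaeger): small cuts in cubic graphs with the cut hypothesis
-/

set_option autoImplicit false

namespace Pool.Jg

open Finset

variable {V : Type}

/-- as many edges as vertices: there is a cycle -/
theorem exists_cycle_of_card [Fintype V] [Nonempty V] (H : SimpleGraph V) [DecidableRel H.Adj]
    (h : Fintype.card V ≤ H.edgeFinset.card) : ∃ (v : V) (q : H.Walk v v), q.IsCycle := by
  classical
  by_contra hcon
  push Not at hcon
  have hac : H.IsAcyclic := fun v q => hcon v q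
  obtain ⟨T, hT, _, hTt⟩ := (SimpleGraph.connected_top (V := V)).exists_isTree_le_of_le_of_isAcyclic
    (le_top : H ≤ ⊤) hac
  have h1 := hTt.card_edgeFinset
  have h2 : H.edgeFinset.card ≤ T.edgeFinset.card := by
    apply card_le_card
    rw [SimpleGraph.edgeFinset_subset_edgeFinset]
    assumption
  omega

variable [Fintype V] [DecidableEq V] (G : SimpleGraph V) [DecidableRel G.Adj]

/-- number of the edges which leave `U` -/
def cutn (U : Finset V) : ℕ := ∑ v ∈ U, (univ.filter fun w => w ∉ U ∧ G.Adj v w).card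

theorem cutn_eq (U : Finset V) :
    ((Finset.univ ×ˢ Finset.univ).filter
      (fun e : V × V => e.1 ∈ U ∧ e.2 ∉ U ∧ G.Adj e.1 e.2)).card = cutn G U := by
  rw [cutn, card_filter, sum_product]
  rw [← sum_filter_add_sum_filter_not univ (fun v => v ∈ U)]
  have h1 : ∑ x ∈ univ.filter (fun v => ¬ v ∈ U),
      ∑ y : V, (if x ∈ U ∧ y ∉ U ∧ G.Adj x y then 1 else 0) = 0 := by
    apply sum_eq_zero
    intro x hx
    rw [mem_filter] at hx
    apply sum_eq_zero
    intro y _
    rw [if_neg]
    tauto
  rw [h1, add_zero]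
  have h2 : univ.filter (fun v => v ∈ U) = U := by ext; simp
  rw [h2]
  refine sum_congr rfl fun v hv => ?_
  rw [card_filter]
  refine sum_congr rfl fun w _ => ?_
  simp [hv]

theorem in_add_out (U : Finset V) (v : V) :
    (U.filter fun w => G.Adj v w).card + (univ.filter fun w => w ∉ U ∧ G.Adj v w).card =
      G.degree v := by
  rw [← SimpleGraph.card_neighborFinset_eq_degree, ← card_union_of_disjoint]
  · congr 1
    ext w
    simp only [mem_union, mem_filter, mem_univ, true_and, SimpleGraph.mem_neighborFinset]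
    tauto
  · rw [disjoint_left]
    intro w hw hw'
    rw [mem_filter] at hw hw'
    exact hw'.2.1 hw.1

theorem cutn_add (h3 : ∀ v, G.degree v = 3) (U : Finset V) :
    cutn G U + ∑ v ∈ U, (U.filter fun w => G.Adj v w).card = 3 * U.card := by
  rw [cutn, ← sum_add_distrib, mul_comm, ← smul_eq_mul, ← sum_const]
  refine sum_congr rfl fun v _ => ?_
  rw [add_comm, in_add_out, h3]

/-- a set with few leaving edges contains a cycle -/
theorem cyc_in (h3 : ∀ v, G.degree v = 3) {U : Finset V} (hU : U.Nonempty)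
    (hc : cutn G U ≤ U.card) :
    ∃ (v : V) (q : G.Walk v v), q.IsCycle ∧ ∀ w ∈ q.support, w ∈ U := by
  classical
  have h1 := cutn_add G h3 U
  have hne : Nonempty {v // v ∈ U} := ⟨⟨hU.choose, hU.choose_spec⟩⟩
  let H : SimpleGraph {v // v ∈ U} := G.comap Subtype.val
  have h2 := H.sum_degrees_eq_twice_card_edges
  have h4 : ∀ v : {v // v ∈ U}, H.degree v = (U.filter fun w => G.Adj v.1 w).card := by
    intro v
    rw [← SimpleGraph.card_neighborFinset_eq_degree]
    refine card_bij (fun w _ => w.1) ?_ ?_ ?_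
    · intro w hw
      rw [SimpleGraph.mem_neighborFinset] at hw
      rw [mem_filter]
      exact ⟨w.2, hw⟩
    · intro w _ w' _ hww
      exact Subtype.ext hww
    · intro w hw
      rw [mem_filter] at hw
      exact ⟨⟨w, hw.1⟩, by rw [SimpleGraph.mem_neighborFinset]; exact hw.2, rfl⟩
  have h5 : ∑ v : {v // v ∈ U}, H.degree v = ∑ v ∈ U, (U.filter fun w => G.Adj v w).card := by
    rw [sum_congr rfl fun v _ => h4 v]
    exact (sum_subtype U (fun x => Iff.rfl)
      (fun v => (U.filter fun w => G.Adj v w).card)).symm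
  have h6 : Fintype.card {v // v ∈ U} = U.card := by simp
  obtain ⟨v, q, hq⟩ := exists_cycle_of_card H (by omega)
  let f : H →g G := ⟨Subtype.val, fun {x y} hxy => hxy⟩
  refine ⟨v.1, q.map f, ?_, ?_⟩
  · exact (SimpleGraph.Walk.isCycle_map_iff_of_injective Subtype.val_injective).2 hq
  · intro w hw
    rw [SimpleGraph.Walk.support_map, List.mem_map] at hw
    obtain ⟨x, _, rfl⟩ := hw
    exact x.2

theorem cutn_compl (U : Finset V) : cutn G Uᶜ = cutn G U := by
  rw [← cutn_eq, ← cutn_eq]
  refine card_nbij' (fun e => (e.2, e.1)) (fun e => (e.2, e.1)) ?_ ?_ ?_ ?_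
  · intro e he
    simp only [coe_filter, mem_product, mem_univ, true_and, Set.mem_ofPred_eq, mem_compl] at he ⊢
    exact ⟨by tauto, he.1, he.2.2.symm⟩
  · intro e he
    simp only [coe_filter, mem_product, mem_univ, true_and, Set.mem_ofPred_eq, mem_compl] at he ⊢
    exact ⟨he.2.1, by tauto, he.2.2.symm⟩
  · intro e _; rfl
  · intro e _; rfl

/-- SMALL CUTS: a set with a cycle and at most three leaving edges has a small complement -/
theorem small_cut (h3 : ∀ v, G.degree v = 3) (hc : CutHyp G) {U : Finset V}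
    (hU : ∃ (v : V) (q : G.Walk v v), q.IsCycle ∧ ∀ w ∈ q.support, w ∈ U)
    (h : cutn G U ≤ 3) : U = univ ∨ Uᶜ.card < cutn G U := by
  by_contra hcon
  push Not at hcon
  obtain ⟨h1, h2⟩ := hcon
  have hne : (Uᶜ).Nonempty := by
    rw [nonempty_iff_ne_empty]
    intro h'
    exact h1 (by rw [compl_eq_empty_iff] at h'; exact h')
  obtain ⟨v, q, hq, hq2⟩ := cyc_in G h3 hne (by rw [cutn_compl]; exact h2)
  have h4 := hc U hU ⟨v, q, hq, fun w hw => by
    have := hq2 w hw
    rw [mem_compl] at this
    exact this⟩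
  rw [cutn_eq] at h4
  omega

end Pool.Jg
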