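import Pool.Agent.Lib.MP_fc2a59_co.Jg.Unc2

/-!
# MP_fc2a59_co (Jaeger): the division into squares and 2x3 ladders
-/

set_option autoImplicit false

namespace Pool.Jg

open Finset

variable {V : Type} [Fintype V] [DecidableEq V] {G : SimpleGraph V} [DecidableRel G.Adj]
variable {ι : Type} [Fintype ι] {f o : ι → Fin 4 → V}

open Classical in
/-- the new corners -/
noncomputable def newG (f o : ι → Fin 4 → V) (J : Set ι) (κ : ι → Fin 4) (i : ι) : Fin 4 → V :=
  ![if i ∈ J then o i (κ i) else f i (κ i), if i ∈ J then o i (κ i + 1) else f i (κ i + 1),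
    f i (κ i + 2), f i (κ i + 3)]

omit [Fintype V] [DecidableEq V] [Fintype ι] in
theorem newG_case {J : Set ι} {κ : ι → Fin 4} (hJ : ∀ i ∈ J, Att G f o i (κ i)) (i : ι)
    (k : Fin 4) :
    (newG f o J κ i k = f i (κ i + k) ∧ (i ∉ J ∨ k = 2 ∨ k = 3)) ∨
      (newG f o J κ i k = o i (κ i + k) ∧ i ∈ J ∧ (k = 0 ∨ k = 1) ∧ Un f (newG f o J κ i k)) := by
  by_cases hi : i ∈ J
  · obtain ⟨u0, u1, _⟩ := hJ i hi
    fin_cases k
    · right
      have e : newG f o J κ i 0 = o i (κ i) := by simp [newG, hi]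
      refine ⟨?_, hi, Or.inl rfl, ?_⟩
      · simpa using e
      · show Un f (newG f o J κ i 0)
        rw [e]; exact u0
    · right
      have e : newG f o J κ i 1 = o i (κ i + 1) := by simp [newG, hi]
      refine ⟨?_, hi, Or.inr rfl, ?_⟩
      · exact e
      · show Un f (newG f o J κ i 1)
        rw [e]; exact u1
    · left
      exact ⟨rfl, Or.inr (Or.inl rfl)⟩
    · left
      exact ⟨rfl, Or.inr (Or.inr rfl)⟩
  · left
    refine ⟨?_, Or.inl hi⟩
    fin_cases k
    · simp [newG, hi]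
    · simp [newG, hi]
    · rfl
    · rfl

/-- the configuration of a maximum family -/
theorem MF.cfg (h : MF G f o) (h4 : ∀ v, OnC4 G v) :
    ∃ (g : ι → Fin 4 → V) (J : ι → Prop) (q q' : ι → V), Cfg G g J q q' := by
  classical
  let A : Set ι := {i | ∃ k, Att G f o i k}
  let κ : ι → Fin 4 := fun i => if hi : ∃ k, Att G f o i k then hi.choose else 0
  have hκ : ∀ i ∈ A, Att G f o i (κ i) := by
    intro i hi
    have hi' : ∃ k, Att G f o i k := hi
    simp only [κ, dif_pos hi']
    exact hi'.choose_spec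
  let e : ι → Sym2 V := fun i => s(o i (κ i), o i (κ i + 1))
  obtain ⟨J, hJA, hJ⟩ := Set.exists_subset_bijOn A e
  have hJκ : ∀ i ∈ J, Att G f o i (κ i) := fun i hi => hκ i (hJA hi)
  have hg := newG_case hJκ
  have cov' : ∀ i k, i ∉ J → newG f o J κ i k = f i (κ i + k) := by
    intro i k hi
    rcases hg i k with h' | h'
    · exact h'.1
    · exact absurd h'.2.1 hi
  have cov2 : ∀ i, newG f o J κ i 2 = f i (κ i + 2) := fun i => rfl
  have cov3 : ∀ i, newG f o J κ i 3 = f i (κ i + 3) := fun i => rfl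
  have un0 : ∀ i, i ∈ J → newG f o J κ i 0 = o i (κ i) := fun i hi => by simp [newG, hi]
  have un1 : ∀ i, i ∈ J → newG f o J κ i 1 = o i (κ i + 1) := fun i hi => by simp [newG, hi]
  refine ⟨newG f o J κ, fun i => i ∈ J, fun i => f i (κ i), fun i => f i (κ i + 1), ?_⟩
  constructor
  · -- inj
    intro i j k l hkl
    rcases hg i k with ⟨h1, h1'⟩ | ⟨h1, h1', h1'', h1'''⟩ <;>
      rcases hg j l with ⟨h2, h2'⟩ | ⟨h2, h2', h2'', h2'''⟩
    · rw [h1, h2] at hkl
      obtain ⟨rfl, h3⟩ := h.fam.inj _ _ _ _ hkl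
      exact ⟨rfl, add_left_cancel h3⟩
    · exact absurd (hkl.symm.trans h1) (h2''' _ _)
    · exact absurd (hkl.trans h2) (h1''' _ _)
    · have a1 := hJκ i h1'
      have a2 := hJκ j h2'
      have hv : ∃ v', (newG f o J κ i k = o i (κ i) ∧ v' = o i (κ i + 1)) ∨
          (newG f o J κ i k = o i (κ i + 1) ∧ v' = o i (κ i)) := by
        rcases h1'' with rfl | rfl
        · exact ⟨_, Or.inl ⟨un0 i h1', rfl⟩⟩
        · exact ⟨_, Or.inr ⟨un1 i h1', rfl⟩⟩
      have hw : ∃ v', (newG f o J κ i k = o j (κ j) ∧ v' = o j (κ j + 1)) ∨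
          (newG f o J κ i k = o j (κ j + 1) ∧ v' = o j (κ j)) := by
        rw [hkl]
        rcases h2'' with rfl | rfl
        · exact ⟨_, Or.inl ⟨un0 j h2', rfl⟩⟩
        · exact ⟨_, Or.inr ⟨un1 j h2', rfl⟩⟩
      obtain ⟨v', hv⟩ := hv
      obtain ⟨w', hw⟩ := hw
      have hvw := h.att_partner a1 a2 hv hw
      have hee : e i = e j := by
        have e1 : e i = s(newG f o J κ i k, v') := by
          rcases hv with ⟨x1, x2⟩ | ⟨x1, x2⟩ <;> rw [x1, x2]
          exact Sym2.eq_swap
        have e2 : e j = s(newG f o J κ i k, w') := by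
          rcases hw with ⟨x1, x2⟩ | ⟨x1, x2⟩ <;> rw [x1, x2]
          exact Sym2.eq_swap
        rw [e1, e2, hvw]
      have hij := hJ.injOn h1' h2' hee
      subst hij
      rw [h1, h2] at hkl
      exact ⟨rfl, add_left_cancel (h.o_inj i hkl)⟩
  · -- cov
    intro v
    by_cases hv : Un f v
    · left
      obtain ⟨i, k, hatt, hvk⟩ := h.unc hv (h4 v)
      have hiA : i ∈ A := ⟨k, hatt⟩
      have hk := h.att_unique hatt (hκ i hiA)
      subst hk
      have hei : e i ∈ e '' A := ⟨i, hiA, rfl⟩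
      rw [← hJ.image_eq] at hei
      obtain ⟨j, hj, hje⟩ := hei
      have hvj : v ∈ e j := by
        rw [hje]
        simp only [e, Sym2.mem_iff]
        exact hvk
      simp only [e, Sym2.mem_iff] at hvj
      rcases hvj with hvj | hvj
      · exact ⟨j, 0, by rw [un0 j hj, hvj]⟩
      · exact ⟨j, 1, by rw [un1 j hj, hvj]⟩
    · unfold Un at hv
      push Not at hv
      obtain ⟨i, m, rfl⟩ := hv
      have hm : κ i + (m - κ i) = m := by abel
      by_cases hi : i ∈ J
      · rcases fcases (κ i) m with h' | h' | h' | h'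
        · right; exact ⟨i, hi, Or.inl (by rw [h'])⟩
        · right; exact ⟨i, hi, Or.inr (by rw [h'])⟩
        · left; exact ⟨i, 2, by rw [cov2, h']⟩
        · left; exact ⟨i, 3, by rw [cov3, h']⟩
      · left
        exact ⟨i, m - κ i, by rw [cov' i _ hi, hm]⟩
  · -- qc
    intro i hi j k h'
    rcases hg j k with ⟨h2, h2'⟩ | ⟨h2, h2', h2'', h2'''⟩
    · rw [h2] at h'
      obtain ⟨rfl, h4⟩ := h.fam.inj _ _ _ _ h'
      have h5 : k = 0 := by
        have : κ i + k = κ i + 0 := by rw [← h4, add_zero]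
        exact add_left_cancel this
      rcases h2' with h6 | h6 | h6
      · exact h6 hi
      · rw [h5] at h6; exact absurd h6 (by decide)
      · rw [h5] at h6; exact absurd h6 (by decide)
    · exact h2''' _ _ h'.symm
  · -- q'c
    intro i hi j k h'
    rcases hg j k with ⟨h2, h2'⟩ | ⟨h2, h2', h2'', h2'''⟩
    · rw [h2] at h'
      obtain ⟨rfl, h4⟩ := h.fam.inj _ _ _ _ h'
      have h5 : k = 1 := by
        have : κ i + k = κ i + 1 := by rw [← h4]
        exact add_left_cancel this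
      rcases h2' with h6 | h6 | h6
      · exact h6 hi
      · rw [h5] at h6; exact absurd h6 (by decide)
      · rw [h5] at h6; exact absurd h6 (by decide)
    · exact h2''' _ _ h'.symm
  · -- qq'
    intro i j _ _ h'
    obtain ⟨rfl, h4⟩ := h.fam.inj _ _ _ _ h'
    exact fne1 _ h4
  · intro i j _ _ h'
    exact (h.fam.inj _ _ _ _ h').1
  · intro i j _ _ h'
    exact (h.fam.inj _ _ _ _ h').1
  · -- sq
    intro i hi k
    rw [cov' i k hi, cov' i (k + 1) hi]
    have := h.a1 i (κ i + k)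
    rw [add_assoc] at this
    exact this
  · -- l1
    intro i _
    rw [cov3]
    exact (h.a3 i _).symm
  · intro i hi
    rw [un0 i hi]
    exact h.oa i _
  · intro i hi
    rw [un0 i hi, un1 i hi]
    exact (hJκ i hi).2.2
  · intro i hi
    rw [un1 i hi]
    exact (h.oa i _).symm
  · intro i hi
    rw [cov2]
    have := h.a1 i (κ i + 1)
    rw [f11] at this
    exact this
  · intro i hi
    rw [cov2, cov3]
    have := h.a1 i (κ i + 2)
    rw [f21] at this
    exact this
  · intro i hi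
    exact h.a1 i _

/-- THE STRUCTURE THEOREM -/
theorem exists_cfg (h3 : ∀ v, G.degree v = 3) (hc : CutHyp G) (h8 : 8 ≤ Fintype.card V)
    (h4 : ∀ v, OnC4 G v) :
    ∃ (ι : Type) (_ : Fintype ι) (g : ι → Fin 4 → V) (J : ι → Prop) (q q' : ι → V),
      Cfg G g J q q' := by
  obtain ⟨m, ⟨ι, hι, rfl, f, hf⟩, hmax⟩ := exists_max_fam G
  have ht : ∀ i k, ∃ y, y ≠ f i (k + 1) ∧ y ≠ f i (k + 3) ∧ G.Adj (f i k) y ∧
      ∀ w, G.Adj (f i k) w → w = f i (k + 1) ∨ w = f i (k + 3) ∨ w = y := by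
    intro i k
    refine exists_third h3 ?_ (hf.adj i k) ?_
    · intro h'
      exact fne13 k (hf.inj _ _ _ _ h').2
    · have := hf.adj i (k + 3)
      rw [f31] at this
      exact this.symm
  choose o ho using ht
  have hMF : MF G f o := ⟨h3, hc, h8, hf, hmax, fun i k => (ho i k).1, fun i k => (ho i k).2.1,
    fun i k => (ho i k).2.2.1, fun i k w => (ho i k).2.2.2 w⟩
  obtain ⟨g, J, q, q', hC⟩ := hMF.cfg h4
  exact ⟨ι, hι, g, J, q, q', hC⟩

end Pool.Jg
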