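import Pool.Agent.Lib.MP_fc2a59_co.Jg.Rung

set_option autoImplicit false

/-!
All rungs of a cubic graph divided into squares and `2 x 3` ladders.
-/

namespace Pool.Jg

open Finset Relation

variable {V : Type}

/-- the graph induced by a relation on a finite set -/
def relG (R : V → V → Prop) (s : Finset V) (hsym : ∀ a ∈ s, ∀ b ∈ s, R a b → R b a)
    (hirr : ∀ a ∈ s, ¬ R a a) : SimpleGraph s where
  Adj a b := R a.1 b.1
  symm := ⟨fun a b h => hsym a.1 a.2 b.1 b.2 h⟩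
  loopless := ⟨fun a h => hirr a.1 a.2 h⟩

theorem Tr.relG_isTree {R : V → V → Prop} {s : Finset V} (h : Tr R s)
    (hsym : ∀ a ∈ s, ∀ b ∈ s, R a b → R b a) (hirr : ∀ a ∈ s, ¬ R a a) :
    (relG R s hsym hirr).IsTree := by
  classical
  rw [SimpleGraph.isTree_iff_connected_and_card]
  constructor
  · rw [SimpleGraph.connected_iff]
    constructor
    · have key : ∀ x y, ReflTransGen (stepIn R s) x y → ∀ hx : x ∈ s,
          ∃ hy : y ∈ s, (relG R s hsym hirr).Reachable ⟨x, hx⟩ ⟨y, hy⟩ := by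
        intro x y hxy hx
        induction hxy with
        | refl => exact ⟨hx, SimpleGraph.Reachable.refl _⟩
        | tail _ h2 ih =>
          obtain ⟨hz, hr⟩ := ih
          refine ⟨h2.2.1, hr.trans (SimpleGraph.Adj.reachable ?_)⟩
          exact h2.2.2
      rintro ⟨x, hx⟩ ⟨y, hy⟩
      obtain ⟨_, hr⟩ := key x y (h.conn x hx y hy) hx
      exact hr
    · obtain ⟨x, hx⟩ := h.ne
      exact ⟨⟨x, hx⟩⟩
  · have h1 := h.cnt
    have h2 := (relG R s hsym hirr).sum_degrees_eq_twice_card_edges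
    have h3 : pairs R s = ∑ v : s, (relG R s hsym hirr).degree v := by
      have h4 : ∀ v : s, (relG R s hsym hirr).degree v =
          (s.filter fun w => R v.1 w).card := by
        intro v
        rw [← SimpleGraph.card_neighborFinset_eq_degree]
        refine card_bij (fun w _ => w.1) ?_ ?_ ?_
        · intro w hw
          rw [SimpleGraph.mem_neighborFinset] at hw
          rw [mem_filter]
          exact ⟨w.2, hw⟩
        · intro w _ w' _ hww
          exact Subtype.ext hww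
        · intro w hw
          rw [mem_filter] at hw
          exact ⟨⟨w, hw.1⟩, by rw [SimpleGraph.mem_neighborFinset]; exact hw.2, rfl⟩
      rw [sum_congr rfl fun v _ => h4 v, pairs_eq_sum]
      rw [← sum_coe_sort s (fun v => (s.filter fun w => R v w).card)]
    have h6 : Nat.card s = s.card := by
      rw [Nat.card_eq_fintype_card, Fintype.card_coe]
    have h7 : Nat.card (relG R s hsym hirr).edgeSet =
        (relG R s hsym hirr).edgeFinset.card := by
      rw [Nat.card_eq_fintype_card, SimpleGraph.edgeFinset_card]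
    rw [h6, h7]
    omega

/-- A tree contains no `4`-cycle. -/
theorem Tr.no_square {R : V → V → Prop} {s : Finset V} (h : Tr R s)
    (hsym : ∀ a ∈ s, ∀ b ∈ s, R a b → R b a) (hirr : ∀ a ∈ s, ¬ R a a) {a b c d : V}
    (ha : a ∈ s) (hb : b ∈ s) (hc : c ∈ s) (hd : d ∈ s) (hab : R a b) (hbc : R b c)
    (hcd : R c d) (hda : R d a) (hac : a ≠ c) (hbd : b ≠ d) : False := by
  have ht := (h.relG_isTree hsym hirr).isAcyclic
  set H := relG R s hsym hirr with hH
  have e1 : H.Adj ⟨a, ha⟩ ⟨b, hb⟩ := hab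
  have e2 : H.Adj ⟨b, hb⟩ ⟨c, hc⟩ := hbc
  have e3 : H.Adj ⟨a, ha⟩ ⟨d, hd⟩ := hsym _ hd _ ha hda
  have e4 : H.Adj ⟨d, hd⟩ ⟨c, hc⟩ := hsym _ hc _ hd hcd
  have hac' : (⟨a, ha⟩ : s) ≠ ⟨c, hc⟩ := fun h => hac (congrArg Subtype.val h)
  have p1 : (SimpleGraph.Walk.cons e1 (SimpleGraph.Walk.cons e2 SimpleGraph.Walk.nil)).IsPath := by
    simp [SimpleGraph.Walk.cons_isPath_iff, e1.ne, e2.ne, hac']
  have p2 : (SimpleGraph.Walk.cons e3 (SimpleGraph.Walk.cons e4 SimpleGraph.Walk.nil)).IsPath := by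
    simp [SimpleGraph.Walk.cons_isPath_iff, e3.ne, e4.ne, hac']
  have := (ht.subsingleton_path ⟨a, ha⟩ ⟨c, hc⟩).elim ⟨_, p1⟩ ⟨_, p2⟩
  have h2 := congrArg (fun p : H.Path ⟨a, ha⟩ ⟨c, hc⟩ => (p : H.Walk ⟨a, ha⟩ ⟨c, hc⟩).support) this
  simp at h2
  exact hbd h2


/-- the pairs of corners which are joined in the corner model, but not in the graph, because of
the middle rung of the ladder marked by `m` -/
def RemAt (ρ : V → V) (m a b : V) : Prop :=
  (a = m ∧ b = ρ m) ∨ (a = ρ m ∧ b = m) ∨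
  (a = ρ (ρ (ρ m)) ∧ b = ρ (ρ m)) ∨ (a = ρ (ρ m) ∧ b = ρ (ρ (ρ m)))

/-- `G` arises from the corner model `S, ρ, φ` by inserting a rung in the block of every marked
corner `m ∈ M`: the edge `m, ρ m` is subdivided by `q m`, the edge `ρ (ρ m), ρ (ρ (ρ m))` by
`q' m`, and `q m` is joined to `q' m`. -/
structure Rungs (G : SimpleGraph V) (S : Finset V) (ρ φ : V → V) (M : Finset V)
    (q q' : V → V) : Prop where
  mS : ∀ m ∈ M, m ∈ S
  m1 : ∀ m ∈ M, ρ m ∉ M
  m2 : ∀ m ∈ M, ρ (ρ m) ∉ M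
  m3 : ∀ m ∈ M, ρ (ρ (ρ m)) ∉ M
  qS : ∀ m ∈ M, q m ∉ S
  q'S : ∀ m ∈ M, q' m ∉ S
  cover : ∀ x, x ∈ S ∨ ∃ m ∈ M, x = q m ∨ x = q' m
  adjS : ∀ a ∈ S, ∀ b ∈ S, (G.Adj a b ↔ cadj ρ φ a b ∧ ¬ ∃ m ∈ M, RemAt ρ m a b)
  adjq : ∀ m ∈ M, ∀ u, (G.Adj (q m) u ↔ u = m ∨ u = ρ m ∨ u = q' m)
  adjq' : ∀ m ∈ M, ∀ u, (G.Adj (q' m) u ↔ u = ρ (ρ m) ∨ u = ρ (ρ (ρ m)) ∨ u = q m)

/-- the relation at an intermediate stage: only the rungs of `M'` have been inserted -/
def stageR (G : SimpleGraph V) (S : Finset V) (ρ φ : V → V) (M' : Finset V) (a b : V) : Prop :=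
  (a ∈ S ∧ b ∈ S ∧ cadj ρ φ a b ∧ ¬ ∃ m ∈ M', RemAt ρ m a b) ∨
  (¬ (a ∈ S ∧ b ∈ S) ∧ G.Adj a b)

theorem stageR_S {G : SimpleGraph V} {S : Finset V} {ρ φ : V → V} {M' : Finset V} {a b : V}
    (ha : a ∈ S) (hb : b ∈ S) :
    stageR G S ρ φ M' a b ↔ cadj ρ φ a b ∧ ¬ ∃ m ∈ M', RemAt ρ m a b := by
  unfold stageR
  constructor
  · rintro (h | h)
    · exact h.2.2
    · exact absurd ⟨ha, hb⟩ h.1
  · intro h
    exact Or.inl ⟨ha, hb, h⟩

theorem stageR_nS {G : SimpleGraph V} {S : Finset V} {ρ φ : V → V} {M' : Finset V} {a b : V}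
    (h : ¬ (a ∈ S ∧ b ∈ S)) : stageR G S ρ φ M' a b ↔ G.Adj a b := by
  unfold stageR
  constructor
  · rintro (h' | h')
    · exact absurd ⟨h'.1, h'.2.1⟩ h
    · exact h'.2
  · intro h'
    exact Or.inr ⟨h, h'⟩

variable [DecidableEq V]

theorem cadj_symm {S : Finset V} {ρ φ : V → V} (hc : Corner S ρ φ) {a b : V} (ha : a ∈ S)
    (h : cadj ρ φ a b) : cadj ρ φ b a := by
  rcases h with h | h | h
  · exact Or.inr (Or.inl h)
  · exact Or.inl h
  · refine Or.inr (Or.inr ?_)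
    rw [h, hc.ff a ha]

theorem Corner.r1 {S : Finset V} {ρ φ : V → V} (hc : Corner S ρ φ) {a : V} (ha : a ∈ S) :
    ρ a ≠ a := by
  intro h
  apply hc.r2 a ha
  rw [h, h]

theorem Corner.r3 {S : Finset V} {ρ φ : V → V} (hc : Corner S ρ φ) {a : V} (ha : a ∈ S) :
    ρ (ρ (ρ a)) ≠ a := by
  intro h
  have h4 := hc.r4 a ha
  rw [h] at h4
  exact hc.r1 ha h4

theorem cadj_irrefl {S : Finset V} {ρ φ : V → V} (hc : Corner S ρ φ) {a : V} (ha : a ∈ S) :
    ¬ cadj ρ φ a a := by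
  rintro (h | h | h)
  · exact hc.r1 ha h.symm
  · exact hc.r1 ha h.symm
  · exact hc.fne a ha h.symm

theorem Corner.not_mono {S : Finset V} {ρ φ : V → V} (hc : Corner S ρ φ) {χ : V → Bool}
    (hg : Good (cadj ρ φ) S χ) {m : V} (hm : m ∈ S) :
    ¬ (χ m = χ (ρ m) ∧ χ m = χ (ρ (ρ (ρ m))) ∧ χ m = χ (ρ (ρ m))) := by
  rintro ⟨h1, h3, h2⟩
  have e1 := hc.rmem m hm
  have e2 := hc.rmem _ e1
  have e3 := hc.rmem _ e2
  refine (hg (χ m)).no_square (a := m) (b := ρ m) (c := ρ (ρ m)) (d := ρ (ρ (ρ m))) ?_ ?_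
    (mem_cl0.2 ⟨hm, rfl⟩) (mem_cl0.2 ⟨e1, h1.symm⟩) (mem_cl0.2 ⟨e2, h2.symm⟩)
    (mem_cl0.2 ⟨e3, h3.symm⟩) (Or.inl rfl) (Or.inl rfl) (Or.inl rfl)
    (Or.inl (hc.r4 m hm).symm) (hc.r2 m hm).symm (hc.r2 _ e1).symm
  · intro a ha b hb h
    exact cadj_symm hc (mem_cl0.1 ha).1 h
  · intro a ha
    exact cadj_irrefl hc (mem_cl0.1 ha).1

omit [DecidableEq V] in
theorem Rungs.qinj {G : SimpleGraph V} {S : Finset V} {ρ φ : V → V} {M : Finset V}
    {q q' : V → V} (h : Rungs G S ρ φ M q q') {m m' : V} (hm : m ∈ M) (hm' : m' ∈ M)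
    (he : q m = q m') : m = m' := by
  have h1 : G.Adj (q m') m := by
    rw [← he]
    exact (h.adjq m hm m).2 (Or.inl rfl)
  rcases (h.adjq m' hm' m).1 h1 with h2 | h2 | h2
  · exact h2
  · exact absurd hm (h2 ▸ h.m1 m' hm')
  · exact absurd (h.mS m hm) (h2 ▸ h.q'S m' hm')

omit [DecidableEq V] in
theorem Rungs.qq' {G : SimpleGraph V} {S : Finset V} {ρ φ : V → V} {M : Finset V}
    {q q' : V → V} (h : Rungs G S ρ φ M q q') {m m' : V} (hm : m ∈ M) (hm' : m' ∈ M) :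
    q m ≠ q' m' := by
  intro he
  have h1 : G.Adj (q' m') m := by
    rw [← he]
    exact (h.adjq m hm m).2 (Or.inl rfl)
  rcases (h.adjq' m' hm' m).1 h1 with h2 | h2 | h2
  · exact absurd hm (h2 ▸ h.m2 m' hm')
  · exact absurd hm (h2 ▸ h.m3 m' hm')
  · exact absurd (h.mS m hm) (h2 ▸ h.qS m' hm')

theorem Rungs.q'inj {G : SimpleGraph V} {S : Finset V} {ρ φ : V → V} {M : Finset V}
    {q q' : V → V} (h : Rungs G S ρ φ M q q') (hc : Corner S ρ φ) {m m' : V} (hm : m ∈ M)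
    (hm' : m' ∈ M) (he : q' m = q' m') : m = m' := by
  have h1 : G.Adj (q' m') (ρ (ρ m)) := by
    rw [← he]
    exact (h.adjq' m hm _).2 (Or.inl rfl)
  rcases (h.adjq' m' hm' _).1 h1 with h2 | h2 | h2
  · rw [← hc.r4 m (h.mS m hm), ← hc.r4 m' (h.mS m' hm'), h2]
  · have h3 : m = ρ m' := by
      rw [← hc.r4 m (h.mS m hm), h2, hc.r4 m' (h.mS m' hm')]
    exact absurd hm (h3 ▸ h.m1 m' hm')
  · exact absurd (hc.rmem _ (hc.rmem m (h.mS m hm))) (h2 ▸ h.qS m' hm')

theorem Rungs.stage {G : SimpleGraph V} {S : Finset V} {ρ φ : V → V} {M : Finset V}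
    {q q' : V → V} (h : Rungs G S ρ φ M q q') (hc : Corner S ρ φ) {χ : V → Bool}
    (hg : Good (cadj ρ φ) S χ) (M' : Finset V) (hM : M' ⊆ M) :
    ∃ χ' : V → Bool, Good (stageR G S ρ φ M') (S ∪ M'.image q ∪ M'.image q') χ' ∧
      ∀ x ∈ S, χ' x = χ x := by
  induction M' using Finset.induction_on with
  | empty =>
    refine ⟨χ, ?_, fun _ _ => rfl⟩
    simp only [image_empty, union_empty]
    intro c
    refine (hg c).congr ?_
    intro a ha b hb
    rw [stageR_S (mem_cl0.1 ha).1 (mem_cl0.1 hb).1]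
    simp
  | insert m M' hm ih =>
    obtain ⟨χ1, hg1, hχ1⟩ := ih (fun x hx => hM (mem_insert_of_mem hx))
    have hmM : m ∈ M := hM (mem_insert_self _ _)
    have hM' : ∀ x ∈ M', x ∈ M := fun x hx => hM (mem_insert_of_mem hx)
    have e0 := h.mS m hmM
    have e1 := hc.rmem m e0
    have e2 := hc.rmem _ e1
    have e3 := hc.rmem _ e2
    have e4 := hc.r4 m e0
    -- elements of one orbit
    have horb : ∀ m' ∈ M', ∀ x, (x = m' ∨ x = ρ m' ∨ x = ρ (ρ (ρ m')) ∨ x = ρ (ρ m')) →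
        ¬ (x = m ∨ x = ρ m ∨ x = ρ (ρ m) ∨ x = ρ (ρ (ρ m))) := by
      intro m' hm' x hx hx2
      have hP : ∀ y, (y = m ∨ y = ρ m ∨ y = ρ (ρ m) ∨ y = ρ (ρ (ρ m))) →
          (ρ y = m ∨ ρ y = ρ m ∨ ρ y = ρ (ρ m) ∨ ρ y = ρ (ρ (ρ m))) := by
        rintro y (rfl | rfl | rfl | rfl)
        · exact Or.inr (Or.inl rfl)
        · exact Or.inr (Or.inr (Or.inl rfl))
        · exact Or.inr (Or.inr (Or.inr rfl))
        · exact Or.inl e4
      have e4' := hc.r4 m' (h.mS m' (hM' m' hm'))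
      have key : m' = m ∨ m' = ρ m ∨ m' = ρ (ρ m) ∨ m' = ρ (ρ (ρ m)) := by
        rcases hx with rfl | rfl | rfl | rfl
        · exact hx2
        · have := hP _ (hP _ (hP _ hx2))
          rwa [e4'] at this
        · have := hP _ hx2
          rwa [e4'] at this
        · have := hP _ (hP _ hx2)
          rwa [e4'] at this
      rcases key with h1 | h1 | h1 | h1
      · exact hm (h1 ▸ hm')
      · exact h.m1 m hmM (h1 ▸ hM' m' hm')
      · exact h.m2 m hmM (h1 ▸ hM' m' hm')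
      · exact h.m3 m hmM (h1 ▸ hM' m' hm')
    have hST : ∀ {x}, x ∈ S → x ∈ S ∪ M'.image q ∪ M'.image q' := fun hx =>
      mem_union_left _ (mem_union_left _ hx)
    have hqT : q m ∉ S ∪ M'.image q ∪ M'.image q' := by
      simp only [mem_union, mem_image, not_or]
      refine ⟨⟨h.qS m hmM, ?_⟩, ?_⟩
      · rintro ⟨m', hm', he⟩
        exact hm (h.qinj (hM' _ hm') hmM he ▸ hm')
      · rintro ⟨m', hm', he⟩
        exact h.qq' hmM (hM' _ hm') he.symm
    have hqT' : q' m ∉ S ∪ M'.image q ∪ M'.image q' := by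
      simp only [mem_union, mem_image, not_or]
      refine ⟨⟨h.q'S m hmM, ?_⟩, ?_⟩
      · rintro ⟨m', hm', he⟩
        exact h.qq' (hM' _ hm') hmM he
      · rintro ⟨m', hm', he⟩
        exact hm (h.q'inj hc (hM' _ hm') hmM he ▸ hm')
    have hRm : ∀ a b, RemAt ρ m a b → a ∈ S ∧ b ∈ S ∧ cadj ρ φ a b ∧
        (a = m ∨ a = ρ m ∨ a = ρ (ρ m) ∨ a = ρ (ρ (ρ m))) := by
      rintro a b (⟨rfl, rfl⟩ | ⟨rfl, rfl⟩ | ⟨rfl, rfl⟩ | ⟨rfl, rfl⟩)
      · exact ⟨e0, e1, Or.inl rfl, Or.inl rfl⟩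
      · exact ⟨e1, e0, Or.inr (Or.inl rfl), Or.inr (Or.inl rfl)⟩
      · exact ⟨e3, e2, Or.inr (Or.inl rfl), Or.inr (Or.inr (Or.inr rfl))⟩
      · exact ⟨e2, e3, Or.inl rfl, Or.inr (Or.inr (Or.inl rfl))⟩
    have hRm' : ∀ m', ∀ a b, RemAt ρ m' a b →
        (a = m' ∨ a = ρ m' ∨ a = ρ (ρ (ρ m')) ∨ a = ρ (ρ m')) := by
      rintro m' a b (⟨h, _⟩ | ⟨h, _⟩ | ⟨h, _⟩ | ⟨h, _⟩)
      · exact Or.inl h
      · exact Or.inr (Or.inl h)
      · exact Or.inr (Or.inr (Or.inl h))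
      · exact Or.inr (Or.inr (Or.inr h))
    have hins : ∀ a b, RemAt ρ m a b → ¬ (cadj ρ φ a b ∧ ¬ ∃ m' ∈ insert m M', RemAt ρ m' a b) :=
      fun a b hr hh => hh.2 ⟨m, mem_insert_self _ _, hr⟩
    obtain ⟨χ2, hg2, hχ2⟩ := hg1.rung (R := stageR G S ρ φ (insert m M')) (r := m) (v := ρ m)
      (r' := ρ (ρ (ρ m))) (v' := ρ (ρ m)) (q := q m) (q' := q' m)
      (hST e0) (hST e1) (hST e3) (hST e2) (hc.r1 e0).symm (hc.r1 e2) (hc.r3 e0).symm
      (hc.r2 m e0).symm hqT hqT' (h.qq' hmM hmM)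
      (by rw [stageR_S e0 e1]; exact hins _ _ (Or.inl ⟨rfl, rfl⟩))
      (by rw [stageR_S e1 e0]; exact hins _ _ (Or.inr (Or.inl ⟨rfl, rfl⟩)))
      (by rw [stageR_S e3 e2]; exact hins _ _ (Or.inr (Or.inr (Or.inl ⟨rfl, rfl⟩))))
      (by rw [stageR_S e2 e3]; exact hins _ _ (Or.inr (Or.inr (Or.inr ⟨rfl, rfl⟩))))
      (by
        intro a _ b _
        by_cases hab : a ∈ S ∧ b ∈ S
        · rw [stageR_S hab.1 hab.2, stageR_S hab.1 hab.2]
          constructor
          · rintro ⟨h1, h2⟩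
            by_cases h3 : RemAt ρ m a b
            · exact Or.inr h3
            · refine Or.inl ⟨h1, ?_⟩
              rintro ⟨m', hm', hr⟩
              rcases mem_insert.1 hm' with rfl | hm'
              · exact h3 hr
              · exact h2 ⟨m', hm', hr⟩
          · rintro (⟨h1, h2⟩ | h1)
            · exact ⟨h1, fun ⟨m', hm', hr⟩ => h2 ⟨m', mem_insert_of_mem hm', hr⟩⟩
            · refine ⟨(hRm a b h1).2.2.1, ?_⟩
              rintro ⟨m', hm', hr⟩
              exact horb m' hm' a (hRm' m' a b hr) (hRm a b h1).2.2.2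
        · rw [stageR_nS hab, stageR_nS hab]
          constructor
          · exact Or.inl
          · rintro (h1 | h1)
            · exact h1
            · exact absurd ⟨(hRm a b h1).1, (hRm a b h1).2.1⟩ hab)
      (by
        intro u hu
        rw [stageR_nS (fun hh => h.qS m hmM hh.1), h.adjq m hmM u]
        constructor
        · rintro (h1 | h1 | h1)
          · exact Or.inl h1
          · exact Or.inr h1
          · exact absurd hu (h1 ▸ hqT')
        · rintro (h1 | h1)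
          · exact Or.inl h1
          · exact Or.inr (Or.inl h1))
      (by
        intro u hu
        rw [stageR_nS (fun hh => h.q'S m hmM hh.1), h.adjq' m hmM u]
        constructor
        · rintro (h1 | h1 | h1)
          · exact Or.inr h1
          · exact Or.inl h1
          · exact absurd hu (h1 ▸ hqT)
        · rintro (h1 | h1)
          · exact Or.inr (Or.inl h1)
          · exact Or.inl h1)
      (by rw [stageR_nS (fun hh => h.qS m hmM hh.1)]; exact G.irrefl)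
      (by rw [stageR_nS (fun hh => h.q'S m hmM hh.1)]; exact G.irrefl)
      (by
        intro u _
        rw [stageR_nS (fun hh => h.qS m hmM hh.1), stageR_nS (fun hh => h.qS m hmM hh.2)]
        exact G.adj_comm _ _)
      (by
        intro u _
        rw [stageR_nS (fun hh => h.q'S m hmM hh.1), stageR_nS (fun hh => h.q'S m hmM hh.2)]
        exact G.adj_comm _ _)
      (by
        rw [hχ1 _ e0, hχ1 _ e1, hχ1 _ e2, hχ1 _ e3]
        exact hc.not_mono hg e0)
    refine ⟨χ2, ?_, ?_⟩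
    · have hset : S ∪ (insert m M').image q ∪ (insert m M').image q' =
          insert (q' m) (insert (q m) (S ∪ M'.image q ∪ M'.image q')) := by
        ext x
        simp only [image_insert, mem_union, mem_insert]
        constructor
        · rintro ((h1 | h1 | h1) | h1 | h1)
          · exact Or.inr (Or.inr (Or.inl (Or.inl h1)))
          · exact Or.inr (Or.inl h1)
          · exact Or.inr (Or.inr (Or.inl (Or.inr h1)))
          · exact Or.inl h1
          · exact Or.inr (Or.inr (Or.inr h1))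
        · rintro (h1 | h1 | (h1 | h1) | h1)
          · exact Or.inr (Or.inl h1)
          · exact Or.inl (Or.inr (Or.inl h1))
          · exact Or.inl (Or.inl h1)
          · exact Or.inl (Or.inr (Or.inr h1))
          · exact Or.inr (Or.inr h1)
      rw [hset]
      exact hg2
    · intro x hx
      rw [hχ2 x (hST hx), hχ1 x hx]

/-- RUNG INSERTION, all rungs together. -/
theorem Rungs.good [Fintype V] {G : SimpleGraph V} {S : Finset V} {ρ φ : V → V} {M : Finset V}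
    {q q' : V → V} (h : Rungs G S ρ φ M q q') (hc : Corner S ρ φ) {χ : V → Bool}
    (hg : Good (cadj ρ φ) S χ) :
    ∃ χ' : V → Bool, Good G.Adj univ χ' ∧ ∀ x ∈ S, χ' x = χ x := by
  obtain ⟨χ', hg', hχ'⟩ := h.stage hc hg M (Subset.refl _)
  refine ⟨χ', ?_, hχ'⟩
  have hT : S ∪ M.image q ∪ M.image q' = univ := by
    ext x
    simp only [mem_union, mem_image, mem_univ, iff_true]
    rcases h.cover x with h1 | ⟨m, hm, rfl | rfl⟩
    · exact Or.inl (Or.inl h1)
    · exact Or.inl (Or.inr ⟨m, hm, rfl⟩)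
    · exact Or.inr ⟨m, hm, rfl⟩
  rw [hT] at hg'
  intro c
  refine (hg' c).congr ?_
  intro a _ b _
  by_cases hab : a ∈ S ∧ b ∈ S
  · rw [stageR_S hab.1 hab.2, h.adjS a hab.1 b hab.2]
  · rw [stageR_nS hab]

end Pool.Jg
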