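import Pool.Agent.Lib.MP_fc2a59_co.Jg.Small
import Pool.Agent.Lib.MP_fc2a59_co.Jg.RungAll
import Pool.Agent.Lib.MP_fc2a59_co.Jg.MkCfg
import Pool.Agent.Lib.MP_fc2a59_co.Jg.Fin

/-!
# MP_fc2a59_co (Jaeger): the assembly for graphs in which every vertex lies on a 4-cycle
-/

set_option autoImplicit false

namespace Pool.Jg

open Finset

variable {V : Type}

section data

variable {ι : Type} (g : ι → Fin 4 → V) (J : ι → Prop)

open Classical in
/-- the marked corners: one for every ladder -/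
noncomputable def cM [Fintype V] : Finset V := univ.filter fun v => ∃ i, J i ∧ v = g i 3

open Classical in
/-- the middle vertex of the ladder marked by `v` -/
noncomputable def cQ (p : ι → V) (v : V) : V :=
  if h : ∃ i, J i ∧ v = g i 3 then p h.choose else v

end data

variable {G : SimpleGraph V} {ι : Type} {g : ι → Fin 4 → V} {J : ι → Prop} {q q' : ι → V}

theorem mem_cM [Fintype V] {v : V} : v ∈ cM g J ↔ ∃ i, J i ∧ v = g i 3 := by
  simp [cM]

theorem Cfg.cQ_eq (h : Cfg G g J q q') (p : ι → V) {i : ι} (hi : J i) :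
    cQ g J p (g i 3) = p i := by
  have hex : ∃ j, J j ∧ g i 3 = g j 3 := ⟨i, hi, rfl⟩
  rw [cQ, dif_pos hex]
  rw [← (h.inj _ _ _ _ hex.choose_spec.2).1]

variable [Fintype V] [DecidableEq V] [DecidableRel G.Adj]

/-- adjacent corners of one block -/
theorem Cfg.inblock (h : Cfg G g J q q') (h3 : ∀ v, G.degree v = 3) (hc : CutHyp G)
    (h8 : 8 ≤ Fintype.card V) (i : ι) (k l : Fin 4) :
    G.Adj (g i k) (g i l) ↔ (l = k + 1 ∨ k = l + 1) ∧
      ¬ (J i ∧ ((k = 3 ∧ l = 0) ∨ (k = 0 ∧ l = 3) ∨ (k = 2 ∧ l = 1) ∨ (k = 1 ∧ l = 2))) := by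
  by_cases hi : J i
  · have t1 : ¬ G.Adj (g i 3) (g i 0) := fun e =>
      no_tri h3 hc (by omega) (h.l1 i hi) (h.l2 i hi) e
    have t2 : ¬ G.Adj (g i 1) (g i 2) := fun e =>
      no_tri h3 hc (by omega) (h.l4 i hi) (h.l5 i hi) e
    have t3 := h.c02 h3 hc h8 hi
    have t4 := h.c13 h3 hc h8 hi
    have t5 := h.l3 i hi
    have t6 := h.l6 i hi
    have s1 : ¬ G.Adj (g i 0) (g i 3) := fun e => t1 e.symm
    have s2 : ¬ G.Adj (g i 2) (g i 1) := fun e => t2 e.symm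
    have s3 : ¬ G.Adj (g i 2) (g i 0) := fun e => t3 e.symm
    have s4 : ¬ G.Adj (g i 3) (g i 1) := fun e => t4 e.symm
    have s5 := t5.symm
    have s6 := t6.symm
    fin_cases k <;> fin_cases l <;> simp [hi, t1, t2, t3, t4, t5, t6, s1, s2, s3, s4, s5, s6]
  · have e : ∀ k, G.Adj (g i k) (g i (k + 1)) := h.sq i hi
    have f : ∀ k, ¬ G.Adj (g i k) (g i (k + 2)) := by
      intro k hk
      have e2 := e (k + 1)
      have hk2 : k + 1 + 1 = k + 2 := by fin_cases k <;> rfl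
      rw [hk2] at e2
      exact no_tri h3 hc (by omega) (e k) e2 hk
    constructor
    · intro hkl
      refine ⟨?_, fun h' => hi h'.1⟩
      have hl : l = k ∨ l = k + 1 ∨ l = k + 2 ∨ k = l + 1 := by
        fin_cases k <;> fin_cases l <;> simp
      rcases hl with rfl | hl | rfl | hl
      · exact absurd rfl hkl.ne
      · exact Or.inl hl
      · exact absurd hkl (f k)
      · exact Or.inr hl
    · rintro ⟨rfl | rfl, -⟩
      · exact e k
      · exact (e l).symm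

theorem Cfg.rungs (h : Cfg G g J q q') (h3 : ∀ v, G.degree v = 3) (hc : CutHyp G)
    (h8 : 8 ≤ Fintype.card V) :
    Rungs G (cS g) (cρ g) (cφ g J q q' G) (cM g J) (cQ g J q) (cQ g J q') where
  mS := by
    intro m hm
    obtain ⟨i, hi, rfl⟩ := mem_cM.1 hm
    exact mem_cS.2 ⟨_, _, rfl⟩
  m1 := by
    intro m hm hm'
    obtain ⟨i, hi, rfl⟩ := mem_cM.1 hm
    obtain ⟨j, hj, e⟩ := mem_cM.1 hm'
    rw [h.rho] at e
    exact absurd (h.inj _ _ _ _ e).2 (by decide)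
  m2 := by
    intro m hm hm'
    obtain ⟨i, hi, rfl⟩ := mem_cM.1 hm
    obtain ⟨j, hj, e⟩ := mem_cM.1 hm'
    rw [h.rho, h.rho] at e
    exact absurd (h.inj _ _ _ _ e).2 (by decide)
  m3 := by
    intro m hm hm'
    obtain ⟨i, hi, rfl⟩ := mem_cM.1 hm
    obtain ⟨j, hj, e⟩ := mem_cM.1 hm'
    rw [h.rho, h.rho, h.rho] at e
    exact absurd (h.inj _ _ _ _ e).2 (by decide)
  qS := by
    intro m hm hm'
    obtain ⟨i, hi, rfl⟩ := mem_cM.1 hm
    rw [h.cQ_eq q hi] at hm'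
    obtain ⟨j, k, e⟩ := mem_cS.1 hm'
    exact h.qc i hi j k e
  q'S := by
    intro m hm hm'
    obtain ⟨i, hi, rfl⟩ := mem_cM.1 hm
    rw [h.cQ_eq q' hi] at hm'
    obtain ⟨j, k, e⟩ := mem_cS.1 hm'
    exact h.q'c i hi j k e
  cover := by
    intro x
    rcases h.cov x with ⟨i, k, rfl⟩ | ⟨i, hi, e⟩
    · exact Or.inl (mem_cS.2 ⟨_, _, rfl⟩)
    · refine Or.inr ⟨g i 3, mem_cM.2 ⟨i, hi, rfl⟩, ?_⟩
      rw [h.cQ_eq q hi, h.cQ_eq q' hi]
      exact e
  adjS := by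
    intro a ha b hb
    obtain ⟨i, k, rfl⟩ := mem_cS.1 ha
    obtain ⟨j, l, rfl⟩ := mem_cS.1 hb
    have hrem : (∃ m ∈ cM g J, RemAt (cρ g) m (g i k) (g j l)) ↔ (i = j ∧ J i ∧
        ((k = 3 ∧ l = 0) ∨ (k = 0 ∧ l = 3) ∨ (k = 2 ∧ l = 1) ∨ (k = 1 ∧ l = 2))) := by
      constructor
      · rintro ⟨m, hm, hr⟩
        obtain ⟨p, hp, rfl⟩ := mem_cM.1 hm
        unfold RemAt at hr
        rw [h.rho, h.rho, h.rho] at hr
        rcases hr with ⟨e1, e2⟩ | ⟨e1, e2⟩ | ⟨e1, e2⟩ | ⟨e1, e2⟩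
        · obtain ⟨a1, a2⟩ := h.inj _ _ _ _ e1
          obtain ⟨b1, b2⟩ := h.inj _ _ _ _ e2
          subst a1 b1 a2 b2
          exact ⟨rfl, hp, by decide⟩
        · obtain ⟨a1, a2⟩ := h.inj _ _ _ _ e1
          obtain ⟨b1, b2⟩ := h.inj _ _ _ _ e2
          subst a1 b1 a2 b2
          exact ⟨rfl, hp, by decide⟩
        · obtain ⟨a1, a2⟩ := h.inj _ _ _ _ e1
          obtain ⟨b1, b2⟩ := h.inj _ _ _ _ e2
          subst a1 b1 a2 b2
          exact ⟨rfl, hp, by decide⟩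
        · obtain ⟨a1, a2⟩ := h.inj _ _ _ _ e1
          obtain ⟨b1, b2⟩ := h.inj _ _ _ _ e2
          subst a1 b1 a2 b2
          exact ⟨rfl, hp, by decide⟩
      · rintro ⟨rfl, hi, hkl⟩
        refine ⟨g i 3, mem_cM.2 ⟨i, hi, rfl⟩, ?_⟩
        unfold RemAt
        rw [h.rho, h.rho, h.rho]
        rcases hkl with ⟨rfl, rfl⟩ | ⟨rfl, rfl⟩ | ⟨rfl, rfl⟩ | ⟨rfl, rfl⟩
        · exact Or.inl ⟨rfl, rfl⟩
        · exact Or.inr (Or.inl ⟨rfl, rfl⟩)
        · exact Or.inr (Or.inr (Or.inl ⟨rfl, rfl⟩))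
        · exact Or.inr (Or.inr (Or.inr ⟨rfl, rfl⟩))
    rw [hrem]
    obtain ⟨j', l', hji, e, hadj, hall⟩ := h.phi h3 hc h8 i k
    unfold cadj
    rw [h.rho, h.rho, e]
    by_cases hij : i = j
    · subst hij
      rw [h.inblock h3 hc h8]
      constructor
      · rintro ⟨h1, h2⟩
        refine ⟨?_, fun h' => h2 h'.2⟩
        rcases h1 with rfl | rfl
        · exact Or.inl rfl
        · exact Or.inr (Or.inl rfl)
      · rintro ⟨h1, h2⟩
        refine ⟨?_, fun h' => h2 ⟨rfl, h'⟩⟩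
        rcases h1 with h1 | h1 | h1
        · exact Or.inl (h.inj _ _ _ _ h1).2
        · exact Or.inr (h.inj _ _ _ _ h1).2
        · exact absurd (h.inj _ _ _ _ h1).1.symm hji
    · constructor
      · intro h1
        refine ⟨?_, fun h' => hij h'.1⟩
        rcases hall _ h1 with h2 | h2
        · exact Or.inr (Or.inr h2)
        · rw [h.beta_g] at h2
          exact absurd (Option.some.inj h2).symm hij
      · rintro ⟨h1 | h1 | h1, -⟩
        · exact absurd (h.inj _ _ _ _ h1).1.symm hij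
        · exact absurd (h.inj _ _ _ _ h1).1 hij
        · rw [h1]; exact hadj
  adjq := by
    intro m hm u
    obtain ⟨i, hi, rfl⟩ := mem_cM.1 hm
    rw [h.cQ_eq q hi, h.cQ_eq q' hi, h.rho]
    constructor
    · intro hu
      exact h.nb_q h3 hi hu
    · rintro (rfl | rfl | rfl)
      · exact (h.l1 i hi).symm
      · exact h.l2 i hi
      · exact h.l7 i hi
  adjq' := by
    intro m hm u
    obtain ⟨i, hi, rfl⟩ := mem_cM.1 hm
    rw [h.cQ_eq q hi, h.cQ_eq q' hi, h.rho, h.rho, h.rho]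
    constructor
    · intro hu
      exact h.nb_q' h3 hi hu
    · rintro (rfl | rfl | rfl)
      · exact (h.l4 i hi).symm
      · exact h.l5 i hi
      · exact (h.l7 i hi).symm

/-- THE COLOURING for a configuration of squares and ladders. -/
theorem Cfg.good (h : Cfg G g J q q') (h3 : ∀ v, G.degree v = 3) (hc : CutHyp G)
    (h8 : 8 ≤ Fintype.card V) (i : ι) : ∃ χ : V → Bool, Good G.Adj univ χ := by
  have hco := (h.blocks h3 hc h8).corner hc
  obtain ⟨χ, hχ, -, -⟩ := corner_main _ (cS g) (cρ g) (cφ g J q q' G) rfl hco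
    (h.big h3 hc h8 i) (g i 0) (mem_cS.2 ⟨_, _, rfl⟩)
  obtain ⟨χ', hχ', -⟩ := (h.rungs h3 hc h8).good hco hχ
  exact ⟨χ', hχ'⟩

/-- THE THEOREM: two induced trees when every vertex lies on a 4-cycle. -/
theorem good_of_c4 (h3 : ∀ v, G.degree v = 3) (h2 : 2 < Fintype.card V) (hc : CutHyp G)
    (h4 : ∀ v, OnC4 G v) : ∃ χ : V → Bool, Good G.Adj univ χ := by
  obtain ⟨r, hr⟩ := even_card3 h3
  rcases (by omega : Fintype.card V = 4 ∨ Fintype.card V = 6 ∨ 8 ≤ Fintype.card V) with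
    e | e | h8
  · exact good_card4 h3 e
  · exact good_card6 h3 hc e
  · obtain ⟨ι, _, g, J, q, q', h⟩ := exists_cfg h3 hc h8 h4
    have hpos : 0 < Fintype.card V := by omega
    obtain ⟨v⟩ := Fintype.card_pos_iff.1 hpos
    rcases h.cov v with ⟨i, -, -⟩ | ⟨i, -, -⟩
    · exact h.good h3 hc h8 i
    · exact h.good h3 hc h8 i

end Pool.Jg
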