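import Pool.Agent.Lib.MP_fc2a59_co.Jg.Loc2

/-!
# MP_fc2a59_co (Jaeger): a maximum family of disjoint 4-cycles
-/

set_option autoImplicit false

namespace Pool.Jg

open Finset

variable {V : Type} [Fintype V] [DecidableEq V] (G : SimpleGraph V) [DecidableRel G.Adj]

/-- a family of disjoint 4-cycles -/
structure Fam {ι : Type} (f : ι → Fin 4 → V) : Prop where
  inj : ∀ i j k l, f i k = f j l → i = j ∧ k = l
  adj : ∀ i k, G.Adj (f i k) (f i (k + 1))

/-- there is a family of `m` disjoint 4-cycles -/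
def HasFam (m : ℕ) : Prop :=
  ∃ (ι : Type) (_ : Fintype ι), Fintype.card ι = m ∧ ∃ f : ι → Fin 4 → V, Fam G f

omit [DecidableEq V] [DecidableRel G.Adj] in
theorem HasFam.le {m : ℕ} (h : HasFam G m) : m ≤ Fintype.card V := by
  obtain ⟨ι, _, rfl, f, hf⟩ := h
  exact Fintype.card_le_of_injective (fun i => f i 0) fun i j h => (hf.inj i j 0 0 h).1

omit [DecidableEq V] [DecidableRel G.Adj] in
theorem exists_max_fam : ∃ m, HasFam G m ∧ ∀ m', HasFam G m' → m' ≤ m := by
  classical
  let A := (range (Fintype.card V + 1)).filter fun m => HasFam G m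
  have h0 : HasFam G 0 := ⟨Empty, inferInstance, rfl, fun i => i.elim, ⟨fun i => i.elim,
    fun i => i.elim⟩⟩
  have hA : A.Nonempty := ⟨0, by simp [A, h0]⟩
  refine ⟨A.max' hA, ?_, ?_⟩
  · have := A.max'_mem hA
    simp only [A, mem_filter] at this
    exact this.2
  · intro m' hm'
    apply A.le_max'
    simp only [A, mem_filter, mem_range]
    exact ⟨by have := HasFam.le G hm'; omega, hm'⟩

variable {G} {ι : Type} {f : ι → Fin 4 → V}

omit [Fintype V] [DecidableEq V] [DecidableRel G.Adj] in
/-- adding a 4-cycle -/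
theorem Fam.add (h : Fam G f) {g : Fin 4 → V} (hg : Function.Injective g)
    (hadj : ∀ k, G.Adj (g k) (g (k + 1))) (hd : ∀ i k l, f i k ≠ g l) :
    Fam G (fun o : Option ι => match o with | none => g | some i => f i) where
  inj := by
    rintro (_ | i) (_ | j) k l hkl
    · exact ⟨rfl, hg hkl⟩
    · exact absurd hkl.symm (hd j l k)
    · exact absurd hkl (hd i k l)
    · obtain ⟨h1, h2⟩ := h.inj i j k l hkl
      exact ⟨by rw [h1], h2⟩
  adj := by
    rintro (_ | i) k
    · exact hadj k
    · exact h.adj i k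

omit [Fintype V] [DecidableEq V] [DecidableRel G.Adj] in
/-- replacing a 4-cycle -/
theorem Fam.upd [DecidableEq ι] (h : Fam G f) (i₀ : ι) {g : Fin 4 → V} (hg : Function.Injective g)
    (hadj : ∀ k, G.Adj (g k) (g (k + 1))) (hd : ∀ i k l, i ≠ i₀ → f i k ≠ g l) :
    Fam G (Function.update f i₀ g) where
  inj := by
    intro i j k l hkl
    by_cases hi : i = i₀ <;> by_cases hj : j = i₀
    · subst hi; subst hj
      simp only [Function.update_self] at hkl
      exact ⟨rfl, hg hkl⟩
    · subst hi
      rw [Function.update_self, Function.update_of_ne hj] at hkl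
      exact absurd hkl.symm (hd j l k hj)
    · subst hj
      rw [Function.update_self, Function.update_of_ne hi] at hkl
      exact absurd hkl (hd i k l hi)
    · rw [Function.update_of_ne hi, Function.update_of_ne hj] at hkl
      exact h.inj i j k l hkl
  adj := by
    intro i k
    by_cases hi : i = i₀
    · subst hi
      rw [Function.update_self]
      exact hadj k
    · rw [Function.update_of_ne hi]
      exact h.adj i k

/-- 4-cycles as functions on `Fin 4` -/
theorem inj4 {a b c d : V} (ab : a ≠ b) (ac : a ≠ c) (ad : a ≠ d) (bc : b ≠ c) (bd : b ≠ d)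
    (cd : c ≠ d) : Function.Injective ![a, b, c, d] := by
  intro k l
  fin_cases k <;> fin_cases l <;> simp <;> tauto

omit [Fintype V] [DecidableEq V] [DecidableRel G.Adj] in
theorem adj4 {a b c d : V} (ab : G.Adj a b) (bc : G.Adj b c) (cd : G.Adj c d) (da : G.Adj d a) :
    ∀ k, G.Adj (![a, b, c, d] k) (![a, b, c, d] (k + 1)) := by
  intro k
  fin_cases k
  · exact ab
  · exact bc
  · exact cd
  · exact da

/-- the third neighbour -/
theorem exists_third (h3 : ∀ v, G.degree v = 3) {x a b : V} (hab : a ≠ b) (ha : G.Adj x a)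
    (hb : G.Adj x b) : ∃ y, y ≠ a ∧ y ≠ b ∧ G.Adj x y ∧ ∀ w, G.Adj x w → w = a ∨ w = b ∨ w = y := by
  have h1 := h3 x
  rw [← SimpleGraph.card_neighborFinset_eq_degree, card_eq_three] at h1
  obtain ⟨p, q, r, hpq, hpr, hqr, hN⟩ := h1
  have hm : ∀ w, G.Adj x w ↔ w = p ∨ w = q ∨ w = r := by
    intro w
    rw [← SimpleGraph.mem_neighborFinset, hN]
    simp
  have ha' := (hm a).1 ha
  have hb' := (hm b).1 hb
  have hp := (hm p).2 (Or.inl rfl)
  have hq := (hm q).2 (Or.inr (Or.inl rfl))
  have hr := (hm r).2 (Or.inr (Or.inr rfl))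
  rcases ha' with rfl | rfl | rfl <;> rcases hb' with rfl | rfl | rfl
  · exact absurd rfl hab
  · exact ⟨r, hpr.symm, hqr.symm, hr, fun w hw => by rcases (hm w).1 hw with h | h | h <;> tauto⟩
  · exact ⟨q, hpq.symm, hqr, hq, fun w hw => by rcases (hm w).1 hw with h | h | h <;> tauto⟩
  · exact ⟨r, hqr.symm, hpr.symm, hr, fun w hw => by rcases (hm w).1 hw with h | h | h <;> tauto⟩
  · exact absurd rfl hab
  · exact ⟨p, hpq, hpr, hp, fun w hw => by rcases (hm w).1 hw with h | h | h <;> tauto⟩
  · exact ⟨q, hqr, hpq.symm, hq, fun w hw => by rcases (hm w).1 hw with h | h | h <;> tauto⟩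
  · exact ⟨p, hpr, hpq, hp, fun w hw => by rcases (hm w).1 hw with h | h | h <;> tauto⟩
  · exact absurd rfl hab

end Pool.Jg
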