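import Pool.Agent.Lib.MP_fc2a59_co.Jg.Cfg
import Pool.Agent.Lib.MP_fc2a59_co.Jg.Fam

/-!
# MP_fc2a59_co (Jaeger): a configuration of squares and 2x3 ladders gives blocks
-/

set_option autoImplicit false

namespace Pool.Jg

open Finset

variable {V : Type}

section data

variable {ι : Type} (g : ι → Fin 4 → V) (J : ι → Prop) (q q' : ι → V)

open Classical in
/-- the corners -/
noncomputable def cS [Fintype V] : Finset V := univ.filter fun v => ∃ i k, v = g i k

open Classical in
/-- rotation of the corners -/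
noncomputable def cρ (v : V) : V :=
  if h : ∃ p : ι × Fin 4, v = g p.1 p.2 then g h.choose.1 (h.choose.2 + 1) else v

open Classical in
/-- the name of the block of a vertex -/
noncomputable def cβ (v : V) : Option ι :=
  if h : ∃ i, (∃ k, v = g i k) ∨ (J i ∧ (v = q i ∨ v = q' i)) then some h.choose else none

open Classical in
/-- the neighbour of a vertex in another block -/
noncomputable def cφ (G : SimpleGraph V) (v : V) : V :=
  if h : ∃ w, G.Adj v w ∧ cβ g J q q' w ≠ cβ g J q q' v then h.choose else v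

end data

variable {G : SimpleGraph V} {ι : Type} {g : ι → Fin 4 → V} {J : ι → Prop} {q q' : ι → V}

theorem mem_cS [Fintype V] {v : V} : v ∈ cS g ↔ ∃ i k, v = g i k := by
  simp [cS]

theorem Cfg.rho (h : Cfg G g J q q') (i : ι) (k : Fin 4) : cρ g (g i k) = g i (k + 1) := by
  have hex : ∃ p : ι × Fin 4, g i k = g p.1 p.2 := ⟨(i, k), rfl⟩
  rw [cρ, dif_pos hex]
  obtain ⟨h1, h2⟩ := h.inj _ _ _ _ hex.choose_spec
  rw [← h1, ← h2]

theorem Cfg.uniq (h : Cfg G g J q q') {v : V} {i j : ι}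
    (hi : (∃ k, v = g i k) ∨ (J i ∧ (v = q i ∨ v = q' i)))
    (hj : (∃ k, v = g j k) ∨ (J j ∧ (v = q j ∨ v = q' j))) : i = j := by
  rcases hi with ⟨k, hk⟩ | ⟨hi, hk | hk⟩ <;> rcases hj with ⟨l, hl⟩ | ⟨hj, hl | hl⟩
  · exact (h.inj i j k l (hk ▸ hl)).1
  · exact absurd (hl ▸ hk) (h.qc j hj i k)
  · exact absurd (hl ▸ hk) (h.q'c j hj i k)
  · exact absurd (hk ▸ hl) (h.qc i hi j l)
  · exact h.qi i j hi hj (hk ▸ hl)
  · exact absurd (hk ▸ hl) (h.qq' i j hi hj)
  · exact absurd (hk ▸ hl) (h.q'c i hi j l)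
  · exact absurd (hl ▸ hk) (h.qq' j i hj hi)
  · exact h.q'i i j hi hj (hk ▸ hl)

theorem Cfg.beta (h : Cfg G g J q q') {v : V} {i : ι}
    (hi : (∃ k, v = g i k) ∨ (J i ∧ (v = q i ∨ v = q' i))) : cβ g J q q' v = some i := by
  have hex : ∃ i, (∃ k, v = g i k) ∨ (J i ∧ (v = q i ∨ v = q' i)) := ⟨i, hi⟩
  rw [cβ, dif_pos hex, h.uniq hi hex.choose_spec]

theorem Cfg.beta_g (h : Cfg G g J q q') (i : ι) (k : Fin 4) : cβ g J q q' (g i k) = some i :=
  h.beta (Or.inl ⟨k, rfl⟩)

theorem Cfg.beta_q (h : Cfg G g J q q') {i : ι} (hi : J i) : cβ g J q q' (q i) = some i :=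
  h.beta (Or.inr ⟨hi, Or.inl rfl⟩)

theorem Cfg.beta_q' (h : Cfg G g J q q') {i : ι} (hi : J i) : cβ g J q q' (q' i) = some i :=
  h.beta (Or.inr ⟨hi, Or.inr rfl⟩)

theorem Cfg.gne (h : Cfg G g J q q') (i : ι) {k l : Fin 4} (hkl : k ≠ l) : g i k ≠ g i l :=
  fun e => hkl (h.inj i i k l e).2

variable [Fintype V] [DecidableEq V] [DecidableRel G.Adj]

/-- a cycle inside a 4-cycle -/
theorem cyc4 (h3 : ∀ v, G.degree v = 3) {a b c d : V} (hac : a ≠ c) (hbd : b ≠ d)
    (ab : G.Adj a b) (bc : G.Adj b c) (cd : G.Adj c d) (da : G.Adj d a) :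
    ∃ (v : V) (q : G.Walk v v), q.IsCycle ∧ ∀ w ∈ q.support, w = a ∨ w = b ∨ w = c ∨ w = d := by
  have n1 : a ∉ ({b, c, d} : Finset V) := by
    simp only [mem_insert, mem_singleton, not_or]
    exact ⟨ab.ne, hac, da.ne'⟩
  have n2 : b ∉ ({c, d} : Finset V) := by
    simp only [mem_insert, mem_singleton, not_or]
    exact ⟨bc.ne, hbd⟩
  have hcard : ({a, b, c, d} : Finset V).card = 4 := by
    rw [card_insert_of_notMem n1, card_insert_of_notMem n2, card_pair cd.ne]
  have o1 := out1 h3 (U := {a, b, c, d}) (v := a) (x := b) (y := d) (by simp) (by simp) hbd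
    ab da.symm
  have o2 := out1 h3 (U := {a, b, c, d}) (v := b) (x := a) (y := c) (by simp) (by simp) hac
    ab.symm bc
  have o3 := out1 h3 (U := {a, b, c, d}) (v := c) (x := b) (y := d) (by simp) (by simp) hbd
    bc.symm cd
  have o4 := out1 h3 (U := {a, b, c, d}) (v := d) (x := a) (y := c) (by simp) (by simp) hac
    da cd.symm
  obtain ⟨v, p, hp, hp2⟩ := cyc_in G h3 (U := {a, b, c, d}) ⟨a, by simp⟩ (by
    rw [hcard, cutn, sum_insert n1, sum_insert n2, sum_pair cd.ne]
    omega)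
  exact ⟨v, p, hp, fun w hw => by simpa using hp2 w hw⟩

/-- the neighbours of a vertex when three of them are known -/
theorem nb3 (h3 : ∀ v, G.degree v = 3) {x a b c : V} (hab : a ≠ b) (hac : a ≠ c) (hbc : b ≠ c)
    (xa : G.Adj x a) (xb : G.Adj x b) (xc : G.Adj x c) {w : V} (hw : G.Adj x w) :
    w = a ∨ w = b ∨ w = c := by
  obtain ⟨y, hya, hyb, -, hall⟩ := exists_third h3 hab xa xb
  have hc : c = y := by
    rcases hall c xc with e | e | e
    · exact absurd e.symm hac
    · exact absurd e.symm hbc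
    · exact e
  rw [hc]
  exact hall w hw

theorem Cfg.nb_q (h : Cfg G g J q q') (h3 : ∀ v, G.degree v = 3) {i : ι} (hi : J i) {w : V}
    (hw : G.Adj (q i) w) : w = g i 3 ∨ w = g i 0 ∨ w = q' i :=
  nb3 h3 (h.gne i (by decide)) (fun e => h.q'c i hi i 3 e.symm) (fun e => h.q'c i hi i 0 e.symm)
    (h.l1 i hi).symm (h.l2 i hi) (h.l7 i hi) hw

theorem Cfg.nb_q' (h : Cfg G g J q q') (h3 : ∀ v, G.degree v = 3) {i : ι} (hi : J i) {w : V}
    (hw : G.Adj (q' i) w) : w = g i 1 ∨ w = g i 2 ∨ w = q i :=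
  nb3 h3 (h.gne i (by decide)) (fun e => h.qc i hi i 1 e.symm) (fun e => h.qc i hi i 2 e.symm)
    (h.l4 i hi).symm (h.l5 i hi) (h.l7 i hi).symm hw

/-- no chord in a ladder -/
theorem Cfg.c02 (h : Cfg G g J q q') (h3 : ∀ v, G.degree v = 3) (hc : CutHyp G)
    (h8 : 8 ≤ Fintype.card V) {i : ι} (hi : J i) : ¬ G.Adj (g i 0) (g i 2) := fun e =>
  no_K23 h3 hc h8 (x := g i 0) (z := q' i) (a := q i) (b := g i 1) (c := g i 2)
    (fun e => h.q'c i hi i 0 e.symm) (h.qc i hi i 1) (h.qc i hi i 2) (h.gne i (by decide))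
    (h.l2 i hi).symm (h.l3 i hi) e (h.l7 i hi).symm (h.l4 i hi).symm (h.l5 i hi)

theorem Cfg.c13 (h : Cfg G g J q q') (h3 : ∀ v, G.degree v = 3) (hc : CutHyp G)
    (h8 : 8 ≤ Fintype.card V) {i : ι} (hi : J i) : ¬ G.Adj (g i 1) (g i 3) := fun e =>
  no_K23 h3 hc h8 (x := g i 1) (z := q i) (a := g i 0) (b := q' i) (c := g i 3)
    (fun e => h.qc i hi i 1 e.symm) (fun e => h.q'c i hi i 0 e.symm) (h.gne i (by decide))
    (h.q'c i hi i 3)
    (h.l3 i hi).symm (h.l4 i hi) e (h.l2 i hi) (h.l7 i hi) (h.l1 i hi).symm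

/-- THE LINK: the third neighbour of a corner is a corner of another block -/
theorem Cfg.link (h : Cfg G g J q q') (h3 : ∀ v, G.degree v = 3) (hc : CutHyp G)
    (h8 : 8 ≤ Fintype.card V) (i : ι) (k : Fin 4) :
    ∃ j l, j ≠ i ∧ G.Adj (g i k) (g j l) ∧
      ∀ w, G.Adj (g i k) w → w = g j l ∨ (∃ k', w = g i k') ∨ (J i ∧ (w = q i ∨ w = q' i)) := by
  have key : ∃ y, G.Adj (g i k) y ∧ (¬ ∃ k', y = g i k') ∧ ¬ (J i ∧ (y = q i ∨ y = q' i)) ∧
      ∀ w, G.Adj (g i k) w → w = y ∨ (∃ k', w = g i k') ∨ (J i ∧ (w = q i ∨ w = q' i)) := by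
    by_cases hi : J i
    · have t1 : ¬ G.Adj (g i 3) (g i 0) := fun e =>
        no_tri h3 hc (by omega) (h.l1 i hi) (h.l2 i hi) e
      have t2 : ¬ G.Adj (g i 1) (g i 2) := fun e =>
        no_tri h3 hc (by omega) (h.l4 i hi) (h.l5 i hi) e
      have t3 := h.c02 h3 hc h8 hi
      have t4 := h.c13 h3 hc h8 hi
      have b0 : ¬ G.Adj (g i 0) (q' i) := by
        intro e
        rcases h.nb_q' h3 hi e.symm with e | e | e
        · exact h.gne i (by decide) e
        · exact h.gne i (by decide) e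
        · exact h.qc i hi i 0 e.symm
      have b1 : ¬ G.Adj (g i 1) (q i) := by
        intro e
        rcases h.nb_q h3 hi e.symm with e | e | e
        · exact h.gne i (by decide) e
        · exact h.gne i (by decide) e
        · exact h.q'c i hi i 1 e.symm
      have b2 : ¬ G.Adj (g i 2) (q i) := by
        intro e
        rcases h.nb_q h3 hi e.symm with e | e | e
        · exact h.gne i (by decide) e
        · exact h.gne i (by decide) e
        · exact h.q'c i hi i 2 e.symm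
      have b3 : ¬ G.Adj (g i 3) (q' i) := by
        intro e
        rcases h.nb_q' h3 hi e.symm with e | e | e
        · exact h.gne i (by decide) e
        · exact h.gne i (by decide) e
        · exact h.qc i hi i 3 e.symm
      have hk : k = 0 ∨ k = 1 ∨ k = 2 ∨ k = 3 := by fin_cases k <;> simp
      rcases hk with rfl | rfl | rfl | rfl
      · obtain ⟨y, hy1, hy2, hy, hall⟩ := exists_third h3 (h.qc i hi i 1) (h.l2 i hi).symm
          (h.l3 i hi)
        refine ⟨y, hy, ?_, ?_, ?_⟩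
        · rintro ⟨k', rfl⟩
          fin_cases k'
          · exact hy.ne rfl
          · exact hy2 rfl
          · exact t3 hy
          · exact t1 hy.symm
        · rintro ⟨_, rfl | rfl⟩
          · exact hy1 rfl
          · exact b0 hy
        · intro w hw
          rcases hall w hw with rfl | rfl | rfl
          · exact Or.inr (Or.inr ⟨hi, Or.inl rfl⟩)
          · exact Or.inr (Or.inl ⟨_, rfl⟩)
          · exact Or.inl rfl
      · obtain ⟨y, hy1, hy2, hy, hall⟩ := exists_third h3 (h.q'c i hi i 0) (h.l4 i hi)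
          (h.l3 i hi).symm
        refine ⟨y, hy, ?_, ?_, ?_⟩
        · rintro ⟨k', rfl⟩
          fin_cases k'
          · exact hy2 rfl
          · exact hy.ne rfl
          · exact t2 hy
          · exact t4 hy
        · rintro ⟨_, rfl | rfl⟩
          · exact b1 hy
          · exact hy1 rfl
        · intro w hw
          rcases hall w hw with rfl | rfl | rfl
          · exact Or.inr (Or.inr ⟨hi, Or.inr rfl⟩)
          · exact Or.inr (Or.inl ⟨_, rfl⟩)
          · exact Or.inl rfl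
      · obtain ⟨y, hy1, hy2, hy, hall⟩ := exists_third h3 (h.q'c i hi i 3) (h.l5 i hi).symm
          (h.l6 i hi)
        refine ⟨y, hy, ?_, ?_, ?_⟩
        · rintro ⟨k', rfl⟩
          fin_cases k'
          · exact t3 hy.symm
          · exact t2 hy.symm
          · exact hy.ne rfl
          · exact hy2 rfl
        · rintro ⟨_, rfl | rfl⟩
          · exact b2 hy
          · exact hy1 rfl
        · intro w hw
          rcases hall w hw with rfl | rfl | rfl
          · exact Or.inr (Or.inr ⟨hi, Or.inr rfl⟩)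
          · exact Or.inr (Or.inl ⟨_, rfl⟩)
          · exact Or.inl rfl
      · obtain ⟨y, hy1, hy2, hy, hall⟩ := exists_third h3 (h.qc i hi i 2) (h.l1 i hi)
          (h.l6 i hi).symm
        refine ⟨y, hy, ?_, ?_, ?_⟩
        · rintro ⟨k', rfl⟩
          fin_cases k'
          · exact t1 hy
          · exact t4 hy.symm
          · exact hy2 rfl
          · exact hy.ne rfl
        · rintro ⟨_, rfl | rfl⟩
          · exact hy1 rfl
          · exact b3 hy
        · intro w hw
          rcases hall w hw with rfl | rfl | rfl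
          · exact Or.inr (Or.inr ⟨hi, Or.inl rfl⟩)
          · exact Or.inr (Or.inl ⟨_, rfl⟩)
          · exact Or.inl rfl
    · have e1 := h.sq i hi k
      have e2 := h.sq i hi (k + 3)
      have hk4 : k + 3 + 1 = k := by fin_cases k <;> rfl
      rw [hk4] at e2
      have e3 := h.sq i hi (k + 1)
      have hk2 : k + 1 + 1 = k + 2 := by fin_cases k <;> rfl
      rw [hk2] at e3
      have hne : k + 1 ≠ k + 3 := by fin_cases k <;> decide
      obtain ⟨y, hy1, hy2, hy, hall⟩ := exists_third h3 (h.gne i hne) e1 e2.symm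
      refine ⟨y, hy, ?_, fun h' => hi h'.1, ?_⟩
      · rintro ⟨k', rfl⟩
        have hk' : k' = k ∨ k' = k + 1 ∨ k' = k + 2 ∨ k' = k + 3 := by
          fin_cases k <;> fin_cases k' <;> simp
        rcases hk' with rfl | rfl | rfl | rfl
        · exact hy.ne rfl
        · exact hy1 rfl
        · exact no_tri h3 hc (by omega) e1 e3 hy
        · exact hy2 rfl
      · intro w hw
        rcases hall w hw with rfl | rfl | rfl
        · exact Or.inr (Or.inl ⟨_, rfl⟩)
        · exact Or.inr (Or.inl ⟨_, rfl⟩)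
        · exact Or.inl rfl
  obtain ⟨y, hy, hy1, hy2, hall⟩ := key
  rcases h.cov y with ⟨j, l, rfl⟩ | ⟨j, hj, rfl | rfl⟩
  · refine ⟨j, l, ?_, hy, hall⟩
    rintro rfl
    exact hy1 ⟨l, rfl⟩
  · exfalso
    rcases h.nb_q h3 hj hy.symm with e | e | e
    · have := (h.inj _ _ _ _ e).1
      subst this
      exact hy2 ⟨hj, Or.inl rfl⟩
    · have := (h.inj _ _ _ _ e).1
      subst this
      exact hy2 ⟨hj, Or.inl rfl⟩
    · exact h.q'c j hj i k e.symm
  · exfalso
    rcases h.nb_q' h3 hj hy.symm with e | e | e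
    · have := (h.inj _ _ _ _ e).1
      subst this
      exact hy2 ⟨hj, Or.inr rfl⟩
    · have := (h.inj _ _ _ _ e).1
      subst this
      exact hy2 ⟨hj, Or.inr rfl⟩
    · exact h.qc j hj i k e.symm

/-- the value of `φ` at a corner -/
theorem Cfg.phi (h : Cfg G g J q q') (h3 : ∀ v, G.degree v = 3) (hc : CutHyp G)
    (h8 : 8 ≤ Fintype.card V) (i : ι) (k : Fin 4) :
    ∃ j l, j ≠ i ∧ cφ g J q q' G (g i k) = g j l ∧ G.Adj (g i k) (g j l) ∧
      (∀ w, G.Adj (g i k) w → w = g j l ∨ cβ g J q q' w = some i) := by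
  obtain ⟨j, l, hji, hadj, hall⟩ := h.link h3 hc h8 i k
  have hall' : ∀ w, G.Adj (g i k) w → w = g j l ∨ cβ g J q q' w = some i := by
    intro w hw
    rcases hall w hw with e | e
    · exact Or.inl e
    · exact Or.inr (h.beta e)
  refine ⟨j, l, hji, ?_, hadj, hall'⟩
  have hex : ∃ w, G.Adj (g i k) w ∧ cβ g J q q' w ≠ cβ g J q q' (g i k) := by
    refine ⟨g j l, hadj, ?_⟩
    rw [h.beta_g, h.beta_g]
    exact fun e => hji (Option.some.inj e)
  rw [cφ, dif_pos hex]
  obtain ⟨h1, h2⟩ := hex.choose_spec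
  exact (hall' _ h1).resolve_right fun e => h2 (e.trans (h.beta_g i k).symm)

theorem Cfg.blocks (h : Cfg G g J q q') (h3 : ∀ v, G.degree v = 3) (hc : CutHyp G)
    (h8 : 8 ≤ Fintype.card V) :
    Blocks G (cS g) (cρ g) (cφ g J q q' G) (cβ g J q q') where
  rmem := by
    intro x hx
    obtain ⟨i, k, rfl⟩ := mem_cS.1 hx
    rw [h.rho]
    exact mem_cS.2 ⟨_, _, rfl⟩
  rb := by
    intro x hx
    obtain ⟨i, k, rfl⟩ := mem_cS.1 hx
    rw [h.rho, h.beta_g, h.beta_g]
  r4 := by
    intro x hx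
    obtain ⟨i, k, rfl⟩ := mem_cS.1 hx
    rw [h.rho, h.rho, h.rho, h.rho]
    congr 1
    fin_cases k <;> rfl
  r2 := by
    intro x hx
    obtain ⟨i, k, rfl⟩ := mem_cS.1 hx
    rw [h.rho, h.rho]
    apply h.gne
    fin_cases k <;> decide
  orb := by
    intro x hx y hy hxy
    obtain ⟨i, k, rfl⟩ := mem_cS.1 hx
    obtain ⟨j, l, rfl⟩ := mem_cS.1 hy
    rw [h.beta_g, h.beta_g] at hxy
    have := Option.some.inj hxy
    subst this
    rw [h.rho, h.rho, h.rho]
    have hk' : l = k ∨ l = k + 1 ∨ l = k + 1 + 1 ∨ l = k + 1 + 1 + 1 := by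
      fin_cases k <;> fin_cases l <;> simp
    rcases hk' with rfl | rfl | rfl | rfl <;> simp
  fmem := by
    intro x hx
    obtain ⟨i, k, rfl⟩ := mem_cS.1 hx
    obtain ⟨j, l, hji, e, -, -⟩ := h.phi h3 hc h8 i k
    rw [e]
    exact mem_cS.2 ⟨_, _, rfl⟩
  ff := by
    intro x hx
    obtain ⟨i, k, rfl⟩ := mem_cS.1 hx
    obtain ⟨j, l, hji, e, hadj, -⟩ := h.phi h3 hc h8 i k
    rw [e]
    obtain ⟨j', l', hji', e', hadj', hall⟩ := h.phi h3 hc h8 j l
    rw [e']
    rcases hall _ hadj.symm with e2 | e2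
    · exact e2.symm
    · rw [h.beta_g] at e2
      exact absurd (Option.some.inj e2).symm hji
  fb := by
    intro x hx
    obtain ⟨i, k, rfl⟩ := mem_cS.1 hx
    obtain ⟨j, l, hji, e, -, -⟩ := h.phi h3 hc h8 i k
    rw [e, h.beta_g, h.beta_g]
    exact fun e => hji (Option.some.inj e)
  nb := by
    intro x hx y hy
    obtain ⟨i, k, rfl⟩ := mem_cS.1 hx
    obtain ⟨j, l, hji, e, -, hall⟩ := h.phi h3 hc h8 i k
    rw [e, h.beta_g]
    exact hall y hy
  nb' := by
    intro x hx y hy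
    rcases h.cov x with ⟨i, k, rfl⟩ | ⟨i, hi, rfl | rfl⟩
    · exact absurd (mem_cS.2 ⟨_, _, rfl⟩) hx
    · rw [h.beta_q hi]
      rcases h.nb_q h3 hi hy with rfl | rfl | rfl
      · exact h.beta_g _ _
      · exact h.beta_g _ _
      · exact h.beta_q' hi
    · rw [h.beta_q' hi]
      rcases h.nb_q' h3 hi hy with rfl | rfl | rfl
      · exact h.beta_g _ _
      · exact h.beta_g _ _
      · exact h.beta_q hi
  cyc := by
    intro x hx
    obtain ⟨i, k, rfl⟩ := mem_cS.1 hx
    rw [h.beta_g]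
    by_cases hi : J i
    · obtain ⟨v, p, hp, hp2⟩ := cyc4 h3 (a := g i 3) (b := q i) (c := q' i) (d := g i 2)
        (fun e => h.q'c i hi i 3 e.symm) (h.qc i hi i 2) (h.l1 i hi) (h.l7 i hi) (h.l5 i hi)
        (h.l6 i hi)
      refine ⟨v, p, hp, fun w hw => ?_⟩
      rcases hp2 w hw with rfl | rfl | rfl | rfl
      · exact h.beta_g _ _
      · exact h.beta_q hi
      · exact h.beta_q' hi
      · exact h.beta_g _ _
    · obtain ⟨v, p, hp, hp2⟩ := cyc4 h3 (a := g i 0) (b := g i 1) (c := g i 2) (d := g i 3)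
        (h.gne i (by decide)) (h.gne i (by decide)) (h.sq i hi 0) (h.sq i hi 1) (h.sq i hi 2)
        (h.sq i hi 3)
      refine ⟨v, p, hp, fun w hw => ?_⟩
      rcases hp2 w hw with rfl | rfl | rfl | rfl <;> exact h.beta_g _ _

/-- more than one block -/
theorem Cfg.big (h : Cfg G g J q q') (h3 : ∀ v, G.degree v = 3) (hc : CutHyp G)
    (h8 : 8 ≤ Fintype.card V) (i : ι) : 4 < (cS g).card := by
  obtain ⟨j, l, hji, -, -⟩ := h.link h3 hc h8 i 0
  have h1 : ({g j l, g i 0, g i 1, g i 2, g i 3} : Finset V) ⊆ cS g := by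
    intro w hw
    simp only [mem_insert, mem_singleton] at hw
    rcases hw with rfl | rfl | rfl | rfl | rfl <;> exact mem_cS.2 ⟨_, _, rfl⟩
  have hne : ∀ k, g j l ≠ g i k := fun k e => hji (h.inj _ _ _ _ e).1
  have h2 : ({g j l, g i 0, g i 1, g i 2, g i 3} : Finset V).card = 5 := by
    rw [card_insert_of_notMem, card_insert_of_notMem, card_insert_of_notMem, card_pair]
    · exact h.gne i (by decide)
    · simp only [mem_insert, mem_singleton, not_or]
      exact ⟨h.gne i (by decide), h.gne i (by decide)⟩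
    · simp only [mem_insert, mem_singleton, not_or]
      exact ⟨h.gne i (by decide), h.gne i (by decide), h.gne i (by decide)⟩
    · simp only [mem_insert, mem_singleton, not_or]
      exact ⟨hne _, hne _, hne _, hne _⟩
  have := card_le_card h1
  omega

end Pool.Jg
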