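import Pool.Agent.Lib.MP_fc2a59_co.Jg.Cut

/-!
# MP_fc2a59_co (Jaeger): configurations of squares and 2x3 ladders

`Cfg G g J q q'`: the vertices of `G` are divided into squares (`i` with `¬ J i`, corners `g i 0..3`)
and 2x3 ladders (`J i`): rungs `g i 3 - g i 2`, `q i - q' i`, `g i 0 - g i 1`, long paths
`g i 3 - q i - g i 0` and `g i 2 - q' i - g i 1`.
-/

set_option autoImplicit false

namespace Pool.Jg

variable {V : Type}

/-- `v` lies on a 4-cycle -/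
def OnC4 (G : SimpleGraph V) (v : V) : Prop :=
  ∃ a b c, v ≠ b ∧ a ≠ c ∧ G.Adj v a ∧ G.Adj a b ∧ G.Adj b c ∧ G.Adj c v

/-- squares and 2x3 ladders -/
structure Cfg (G : SimpleGraph V) {ι : Type} (g : ι → Fin 4 → V) (J : ι → Prop) (q q' : ι → V) :
    Prop where
  inj : ∀ i j k l, g i k = g j l → i = j ∧ k = l
  cov : ∀ v, (∃ i k, v = g i k) ∨ ∃ i, J i ∧ (v = q i ∨ v = q' i)
  qc : ∀ i, J i → ∀ j k, q i ≠ g j k
  q'c : ∀ i, J i → ∀ j k, q' i ≠ g j k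
  qq' : ∀ i j, J i → J j → q i ≠ q' j
  qi : ∀ i j, J i → J j → q i = q j → i = j
  q'i : ∀ i j, J i → J j → q' i = q' j → i = j
  sq : ∀ i, ¬ J i → ∀ k, G.Adj (g i k) (g i (k + 1))
  l1 : ∀ i, J i → G.Adj (g i 3) (q i)
  l2 : ∀ i, J i → G.Adj (q i) (g i 0)
  l3 : ∀ i, J i → G.Adj (g i 0) (g i 1)
  l4 : ∀ i, J i → G.Adj (g i 1) (q' i)
  l5 : ∀ i, J i → G.Adj (q' i) (g i 2)
  l6 : ∀ i, J i → G.Adj (g i 2) (g i 3)
  l7 : ∀ i, J i → G.Adj (q i) (q' i)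

end Pool.Jg
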