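import Pool.Agent.Lib.MP_fc2a59_co.Jg.Split

set_option autoImplicit false

/-!
The theorem for the corner model.
-/

namespace Pool.Jg

variable {V : Type} [DecidableEq V]

section main

variable {S : Finset V} {ρ φ : V → V} (h : Corner S ρ φ) {a b c d : V} (ha : a ∈ S)
  (hQ : sq4 ρ a = {a, b, c, d}) (hab : a ≠ b) (hac : a ≠ c) (had : a ≠ d) (hbc : b ≠ c)
  (hbd : b ≠ d) (hcd : c ≠ d) (hS : 4 < S.card)

include h ha hQ hab hac had hbc hbd hcd hS

/-- One of the two adjacent pairings is admissible (cut condition). -/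
theorem Corner.one_good (T U : Finset V) (hT : T ⊆ S \ sq4 ρ a) (hTn : T.Nonempty)
    (hTc : ∀ x ∈ T, ρ x ∈ T) (hTne : T ≠ S \ sq4 ρ a)
    (hTb : (T.filter (fun x => spl φ (φ a) (φ b) (φ c) (φ d) x ∉ T)).card < 4)
    (hU : U ⊆ S \ sq4 ρ a) (hUn : U.Nonempty) (hUc : ∀ x ∈ U, ρ x ∈ U)
    (hUne : U ≠ S \ sq4 ρ a)
    (hUb : (U.filter (fun x => spl φ (φ a) (φ d) (φ c) (φ b) x ∉ U)).card < 4) : False := by
  obtain ⟨_, hb, hc, hd, hx⟩ := h.sq_mems ha hQ hab hac had hbc hbd hcd hS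
  have t1 := h.bad_type ha hQ hab hac had hbc hbd hcd hS hT hTn hTc hTne hTb
  have hQ' : sq4 ρ a = {a, d, c, b} := by
    rw [hQ]; ext x; simp only [Finset.mem_insert, Finset.mem_singleton]; tauto
  have u1 := h.bad_type ha hQ' had hac hab hcd.symm hbd.symm hbc.symm hS hU hUn hUc hUne hUb
  have sub := cutc_submod φ T U
  have hTU : T ∪ U ⊆ S \ sq4 ρ a := Finset.union_subset hT hU
  have hTI : T ∩ U ⊆ S \ sq4 ρ a := fun x hx => hT (Finset.mem_inter.1 hx).1
  have cu : ∀ x ∈ T ∪ U, ρ x ∈ T ∪ U := by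
    intro x hx
    rcases Finset.mem_union.1 hx with k | k
    · exact Finset.mem_union_left _ (hTc x k)
    · exact Finset.mem_union_right _ (hUc x k)
  have ci : ∀ x ∈ T ∩ U, ρ x ∈ T ∩ U := by
    intro x hx
    have := Finset.mem_inter.1 hx
    exact Finset.mem_inter.2 ⟨hTc x this.1, hUc x this.2⟩
  have out : ∀ q, (q = a ∨ q = b ∨ q = c ∨ q = d) → φ q ∉ T ∪ U → T ∪ U ≠ S \ sq4 ρ a := by
    intro q hq hn e
    rw [e] at hn
    exact hn (hx q hq)
  have inter : ∀ y, y ∈ T → y ∈ U → 4 ≤ cutc φ (T ∩ U) := by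
    intro y h1 h2
    refine h.cut (T ∩ U) (fun z hz => (Finset.mem_sdiff.1 (hTI hz)).1)
      ⟨y, Finset.mem_inter.2 ⟨h1, h2⟩⟩ ?_ ci
    intro e
    have : a ∈ T ∩ U := e ▸ ha
    exact (Finset.mem_sdiff.1 (hTI this)).2 (mem_sq4.2 (Or.inl rfl))
  have un : T ∪ U ≠ S \ sq4 ρ a → 2 * ((if φ a ∈ T ∪ U then 1 else 0) +
      (if φ b ∈ T ∪ U then 1 else 0) + (if φ c ∈ T ∪ U then 1 else 0) +
      (if φ d ∈ T ∪ U then 1 else 0)) ≤ cutc φ (T ∪ U) := fun hn =>
    h.cut_add ha hQ hab hac had hbc hbd hcd hS hTU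
      (hTn.mono Finset.subset_union_left) cu hn
  obtain ⟨ct, tt⟩ := t1
  obtain ⟨cu', uu⟩ := u1
  rcases tt with ⟨t1, t2, t3, t4⟩ | ⟨t1, t2, t3, t4⟩ <;>
    rcases uu with ⟨u1, u2, u3, u4⟩ | ⟨u1, u2, u3, u4⟩
  · -- T has a b, U has a d
    have i := inter _ t1 u1
    have n := un (out c (by simp) (by simp [t3, u3]))
    simp only [Finset.mem_union, t1, t2, t3, t4, u1, u2, u3, u4, or_true, true_or, or_false,
      if_true, if_false] at n
    omega
  · -- T has a b, U has c b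
    have i := inter _ t2 u4
    have n := un (out d (by simp) (by simp [t4, u2]))
    simp only [Finset.mem_union, t1, t2, t3, t4, u1, u2, u3, u4, or_true, true_or, or_false,
      if_true, if_false] at n
    omega
  · -- T has c d, U has a d
    have i := inter _ t4 u2
    have n := un (out b (by simp) (by simp [t2, u4]))
    simp only [Finset.mem_union, t1, t2, t3, t4, u1, u2, u3, u4, or_true, true_or, or_false,
      if_true, if_false] at n
    omega
  · -- T has c d, U has c b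
    have i := inter _ t3 u3
    have n := un (out a (by simp) (by simp [t1, u1]))
    simp only [Finset.mem_union, t1, t2, t3, t4, u1, u2, u3, u4, or_true, true_or, or_false,
      if_true, if_false] at n
    omega

/-- The split structure is a corner model if the cut condition holds. -/
theorem Corner.spl_corner
    (hcut : ∀ T : Finset V, T ⊆ S \ sq4 ρ a → T.Nonempty → T ≠ S \ sq4 ρ a →
      (∀ x ∈ T, ρ x ∈ T) →
      4 ≤ (T.filter (fun x => spl φ (φ a) (φ b) (φ c) (φ d) x ∉ T)).card) :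
    Corner (S \ sq4 ρ a) ρ (spl φ (φ a) (φ b) (φ c) (φ d)) := by
  obtain ⟨_, hb, hc, hd, hx⟩ := h.sq_mems ha hQ hab hac had hbc hbd hcd hS
  have inj : ∀ p ∈ S, ∀ q ∈ S, φ p = φ q → p = q := by
    intro p hp q hq e
    rw [← h.ff p hp, ← h.ff q hq, e]
  have eab : φ a ≠ φ b := fun e => hab (inj _ ha _ hb e)
  have eac : φ a ≠ φ c := fun e => hac (inj _ ha _ hc e)
  have ead : φ a ≠ φ d := fun e => had (inj _ ha _ hd e)
  have ebc : φ b ≠ φ c := fun e => hbc (inj _ hb _ hc e)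
  have ebd : φ b ≠ φ d := fun e => hbd (inj _ hb _ hd e)
  have ecd : φ c ≠ φ d := fun e => hcd (inj _ hc _ hd e)
  have hother : ∀ y ∈ S \ sq4 ρ a, y ≠ φ a → y ≠ φ b → y ≠ φ c → y ≠ φ d →
      φ y ∈ S \ sq4 ρ a ∧ φ y ≠ φ a ∧ φ y ≠ φ b ∧ φ y ≠ φ c ∧ φ y ≠ φ d := by
    intro y hy n1 n2 n3 n4
    have hyS := (Finset.mem_sdiff.1 hy).1
    have hyQ := (Finset.mem_sdiff.1 hy).2
    have hyn : ∀ q, (q = a ∨ q = b ∨ q = c ∨ q = d) → y ≠ q := by
      intro q hq e
      apply hyQ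
      rw [hQ, e]
      simpa using hq
    refine ⟨Finset.mem_sdiff.2 ⟨h.fmem y hyS, ?_⟩, ?_, ?_, ?_, ?_⟩
    · intro hh
      rw [hQ] at hh
      simp only [Finset.mem_insert, Finset.mem_singleton] at hh
      rcases hh with e | e | e | e
      · apply n1; rw [← e, h.ff y hyS]
      · apply n2; rw [← e, h.ff y hyS]
      · apply n3; rw [← e, h.ff y hyS]
      · apply n4; rw [← e, h.ff y hyS]
    · intro e; exact hyn a (by simp) (inj _ hyS _ ha e)
    · intro e; exact hyn b (by simp) (inj _ hyS _ hb e)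
    · intro e; exact hyn c (by simp) (inj _ hyS _ hc e)
    · intro e; exact hyn d (by simp) (inj _ hyS _ hd e)
  have va : spl φ (φ a) (φ b) (φ c) (φ d) (φ a) = φ b := by simp [spl]
  have vb : spl φ (φ a) (φ b) (φ c) (φ d) (φ b) = φ a := by simp [spl, eab.symm]
  have vc : spl φ (φ a) (φ b) (φ c) (φ d) (φ c) = φ d := by simp [spl, eac.symm, ebc.symm]
  have vd : spl φ (φ a) (φ b) (φ c) (φ d) (φ d) = φ c := by
    simp [spl, ead.symm, ebd.symm, ecd.symm]
  have vo : ∀ y, y ≠ φ a → y ≠ φ b → y ≠ φ c → y ≠ φ d →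
      spl φ (φ a) (φ b) (φ c) (φ d) y = φ y := by
    intro y n1 n2 n3 n4
    simp [spl, n1, n2, n3, n4]
  refine ⟨h.compl_closed ha, ?_, ?_, ?_, ?_, ?_, ?_⟩
  · intro x hx'; exact h.r4 x (Finset.mem_sdiff.1 hx').1
  · intro x hx'; exact h.r2 x (Finset.mem_sdiff.1 hx').1
  · intro y hy
    by_cases e1 : y = φ a
    · rw [e1, va]; exact hx b (by simp)
    by_cases e2 : y = φ b
    · rw [e2, vb]; exact hx a (by simp)
    by_cases e3 : y = φ c
    · rw [e3, vc]; exact hx d (by simp)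
    by_cases e4 : y = φ d
    · rw [e4, vd]; exact hx c (by simp)
    rw [vo y e1 e2 e3 e4]
    exact (hother y hy e1 e2 e3 e4).1
  · intro y hy
    by_cases e1 : y = φ a
    · rw [e1, va, vb]
    by_cases e2 : y = φ b
    · rw [e2, vb, va]
    by_cases e3 : y = φ c
    · rw [e3, vc, vd]
    by_cases e4 : y = φ d
    · rw [e4, vd, vc]
    have o := hother y hy e1 e2 e3 e4
    rw [vo y e1 e2 e3 e4, vo (φ y) o.2.1 o.2.2.1 o.2.2.2.1 o.2.2.2.2]
    exact h.ff y (Finset.mem_sdiff.1 hy).1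
  · intro y hy
    by_cases e1 : y = φ a
    · rw [e1, va]; exact eab.symm
    by_cases e2 : y = φ b
    · rw [e2, vb]; exact eab
    by_cases e3 : y = φ c
    · rw [e3, vc]; exact ecd.symm
    by_cases e4 : y = φ d
    · rw [e4, vd]; exact ecd
    rw [vo y e1 e2 e3 e4]
    exact h.fne y (Finset.mem_sdiff.1 hy).1
  · exact hcut

end main

end Pool.Jg
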