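import Pool.Agent.Lib.MP_fc2a59_co.Jg.CornerMain

set_option autoImplicit false

/-!
The theorem for the corner model: induction on the number of squares.
-/

namespace Pool.Jg

variable {V : Type} [DecidableEq V]

/-- Conclusion for one marked corner. -/
def Mark (S : Finset V) (ρ φ : V → V) (a : V) : Prop :=
  ∃ χ : V → Bool, Good (cadj ρ φ) S χ ∧ χ (φ a) ≠ χ a ∧ χ (ρ a) ≠ χ (ρ (ρ (ρ a)))

theorem Corner.nbr {S : Finset V} {ρ φ : V → V} (h : Corner S ρ φ) {x u : V} (hx : x ∈ S)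
    (hu : u ∈ S) : cadj ρ φ x u ↔ u = ρ x ∨ u = ρ (ρ (ρ x)) ∨ u = φ x := by
  unfold cadj
  constructor
  · rintro (e | e | e)
    · exact Or.inl e
    · right; left; rw [e, h.r4 u hu]
    · exact Or.inr (Or.inr e)
  · rintro (e | e | e)
    · exact Or.inl e
    · right; left; rw [e, h.r4 x hx]
    · exact Or.inr (Or.inr e)

/-- A pair of adjacent vertices is a tree. -/
theorem Tr_pair {R : V → V → Prop} {x y : V} (hxy : x ≠ y) (h1 : R x y) (h2 : R y x)
    (hx : ¬ R x x) (hy : ¬ R y y) : Tr R {x, y} := by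
  have t : Tr R ({y} : Finset V) := by
    refine ⟨⟨y, by simp⟩, ?_, ?_⟩
    · intro p hp q hq
      rw [Finset.mem_singleton] at hp hq
      rw [hp, hq]
    · unfold pairs
      classical
      simp [Finset.filter_singleton, hy]
  refine t.leaf (w := y) (by simpa using hxy) (by simp) h1 ?_ hx ?_
  · intro u hu _; simpa using hu
  · intro u hu
    rw [Finset.mem_singleton] at hu
    rw [hu]
    exact ⟨fun _ => h1, fun _ => h2⟩

theorem Corner.sqctx {S : Finset V} {ρ φ : V → V} (h : Corner S ρ φ) {a : V} (ha : a ∈ S)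
    (hS : 4 < S.card) :
    full (S \ sq4 ρ a) a (ρ a) (ρ (ρ a)) (ρ (ρ (ρ a))) = S ∧
    SqCtx (cadj ρ φ) (S \ sq4 ρ a) a (ρ a) (ρ (ρ a)) (ρ (ρ (ρ a)))
      (φ a) (φ (ρ a)) (φ (ρ (ρ a))) (φ (ρ (ρ (ρ a)))) := by
  have hb := h.rmem a ha
  have hc := h.rmem _ hb
  have hd := h.rmem _ hc
  have hab : a ≠ ρ a := (h.ne1 ha).symm
  have hac : a ≠ ρ (ρ a) := (h.r2 a ha).symm
  have had : a ≠ ρ (ρ (ρ a)) := (h.ne3 ha).symm
  have hbc : ρ a ≠ ρ (ρ a) := (h.ne1 hb).symm
  have hbd : ρ a ≠ ρ (ρ (ρ a)) := (h.r2 _ hb).symm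
  have hcd : ρ (ρ a) ≠ ρ (ρ (ρ a)) := (h.ne1 hc).symm
  have hQ : sq4 ρ a = {a, ρ a, ρ (ρ a), ρ (ρ (ρ a))} := rfl
  obtain ⟨_, _, _, _, hx⟩ := h.sq_mems ha hQ hab hac had hbc hbd hcd hS
  have inj : ∀ p ∈ S, ∀ q ∈ S, φ p = φ q → p = q := by
    intro p hp q hq e
    rw [← h.ff p hp, ← h.ff q hq, e]
  have hfull : full (S \ sq4 ρ a) a (ρ a) (ρ (ρ a)) (ρ (ρ (ρ a))) = S := by
    ext x
    unfold full
    simp only [Finset.mem_insert, Finset.mem_sdiff, mem_sq4]
    constructor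
    · rintro (e | e | e | e | e)
      · rw [e]; exact ha
      · rw [e]; exact hb
      · rw [e]; exact hc
      · rw [e]; exact hd
      · exact e.1
    · intro hxS
      by_cases k : x = a ∨ x = ρ a ∨ x = ρ (ρ a) ∨ x = ρ (ρ (ρ a))
      · rcases k with k | k | k | k
        · exact Or.inl k
        · exact Or.inr (Or.inl k)
        · exact Or.inr (Or.inr (Or.inl k))
        · exact Or.inr (Or.inr (Or.inr (Or.inl k)))
      · exact Or.inr (Or.inr (Or.inr (Or.inr ⟨hxS, k⟩)))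
  refine ⟨hfull, ?_⟩
  have nin : ∀ q, q = a ∨ q = ρ a ∨ q = ρ (ρ a) ∨ q = ρ (ρ (ρ a)) → q ∉ S \ sq4 ρ a := by
    intro q hq hh
    exact (Finset.mem_sdiff.1 hh).2 (mem_sq4.2 hq)
  refine
    { ha := nin _ (by simp), hb := nin _ (by simp), hc := nin _ (by simp), hd := nin _ (by simp)
      ab := hab, ac := hac, ad := had, bc := hbc, bd := hbd, cd := hcd
      m1 := hx _ (by simp), m2 := hx _ (by simp), m3 := hx _ (by simp), m4 := hx _ (by simp)
      x12 := fun e => hab (inj _ ha _ hb e)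
      x23 := fun e => hbc (inj _ hb _ hc e)
      x24 := fun e => hbd (inj _ hb _ hd e)
      x34 := fun e => hcd (inj _ hc _ hd e)
      na := ?_, nb := ?_, nc := ?_, nd := ?_, sym := ?_, irr := ?_ }
  · intro u hu; rw [hfull] at hu; rw [h.nbr ha hu]
  · intro u hu; rw [hfull] at hu; rw [h.nbr hb hu, h.r4 a ha]; tauto
  · intro u hu; rw [hfull] at hu; rw [h.nbr hc hu, h.r4 a ha]; tauto
  · intro u hu; rw [hfull] at hu; rw [h.nbr hd hu, h.r4 a ha]
  · intro u hu v hv; rw [hfull] at hu hv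
    unfold cadj
    rintro (e | e | e)
    · exact Or.inr (Or.inl e)
    · exact Or.inl e
    · right; right; rw [e, h.ff u hu]
  · intro u hu; rw [hfull] at hu
    unfold cadj
    rintro (e | e | e)
    · exact h.ne1 hu e.symm
    · exact h.ne1 hu e.symm
    · exact h.fne u hu e.symm

/-- base colouring of a single square -/
theorem base_col {R : V → V → Prop} {S : Finset V} {p q r s x3 x4 : V}
    (hS : S = {p, q, r, s}) (pq : p ≠ q) (pr : p ≠ r) (ps : p ≠ s) (qr : q ≠ r) (qs : q ≠ s)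
    (rs : r ≠ s) (m3 : x3 ∈ S) (m4 : x4 ∈ S) (n3 : x3 ≠ p) (n4 : x4 ≠ p) (x34 : x3 ≠ x4)
    (hpq : R p q) (hqr : R q r) (hrs : R r s) (hsp : R s p)
    (sym : ∀ u ∈ S, ∀ v ∈ S, R u v → R v u) (irr : ∀ u ∈ S, ¬ R u u) :
    ∃ χ : V → Bool, Good R S χ ∧ χ x3 ≠ χ x4 ∧ χ q ≠ χ s := by
  have mp : p ∈ S := by rw [hS]; simp
  have mq : q ∈ S := by rw [hS]; simp
  have mr : r ∈ S := by rw [hS]; simp
  have ms : s ∈ S := by rw [hS]; simp
  by_cases k : x3 = q ∨ x4 = q
  · refine ⟨fun v => decide (v ∈ ({p, q} : Finset V)), ?_, ?_, ?_⟩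
    · refine good_of_sets (P := {p, q}) (Q := {r, s}) ?_ ?_ (Tr_pair pq hpq
        (sym _ mp _ mq hpq) (irr _ mp) (irr _ mq)) (Tr_pair rs hrs (sym _ mr _ ms hrs)
        (irr _ mr) (irr _ ms))
      · rw [Finset.disjoint_left]
        intro v hv hv'
        simp only [Finset.mem_insert, Finset.mem_singleton] at hv hv'
        rcases hv with rfl | rfl <;> rcases hv' with h | h
        · exact pr h
        · exact ps h
        · exact qr h
        · exact qs h
      · rw [hS]; ext v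
        simp only [Finset.mem_union, Finset.mem_insert, Finset.mem_singleton]; tauto
    · rcases k with k | k
      · subst k
        simp [n4, Ne.symm x34]
      · subst k
        simp [n3, x34]
    · simp [ps.symm, qs.symm]
  · have hk3 : x3 = r ∨ x3 = s := by
      rw [hS] at m3
      simp only [Finset.mem_insert, Finset.mem_singleton] at m3
      tauto
    have hk4 : x4 = r ∨ x4 = s := by
      rw [hS] at m4
      simp only [Finset.mem_insert, Finset.mem_singleton] at m4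
      tauto
    refine ⟨fun v => decide (v ∈ ({s, p} : Finset V)), ?_, ?_, ?_⟩
    · refine good_of_sets (P := {s, p}) (Q := {q, r}) ?_ ?_ (Tr_pair ps.symm hsp
        (sym _ ms _ mp hsp) (irr _ ms) (irr _ mp)) (Tr_pair qr hqr (sym _ mq _ mr hqr)
        (irr _ mq) (irr _ mr))
      · rw [Finset.disjoint_left]
        intro v hv hv'
        simp only [Finset.mem_insert, Finset.mem_singleton] at hv hv'
        rcases hv with rfl | rfl <;> rcases hv' with h | h
        · exact qs h.symm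
        · exact rs h.symm
        · exact pq h
        · exact pr h
      · rw [hS]; ext v
        simp only [Finset.mem_union, Finset.mem_insert, Finset.mem_singleton]; tauto
    · rcases hk3 with e3 | e3 <;> rcases hk4 with e4 | e4
      · exact absurd (e3.trans e4.symm) x34
      · subst e3; subst e4
        simp [rs, pr.symm]
      · subst e3; subst e4
        simp [rs, pr.symm]
      · exact absurd (e3.trans e4.symm) x34
    · simp [pq.symm, qs]

theorem Corner.step {S : Finset V} {ρ φ : V → V} (h : Corner S ρ φ) {a : V} (ha : a ∈ S)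
    (hS : 4 < S.card)
    (hcut : ∀ T : Finset V, T ⊆ S \ sq4 ρ a → T.Nonempty → T ≠ S \ sq4 ρ a →
      (∀ x ∈ T, ρ x ∈ T) →
      4 ≤ (T.filter (fun x => spl φ (φ a) (φ (ρ a)) (φ (ρ (ρ a))) (φ (ρ (ρ (ρ a)))) x ∉ T)).card)
    (ih : ∀ (S' : Finset V) (φ' : V → V), S'.card < S.card → Corner S' ρ φ' → 4 < S'.card →
      ∀ x ∈ S', Mark S' ρ φ' x) : Mark S ρ φ a := by
  obtain ⟨hfull, ctx⟩ := h.sqctx ha hS
  have hc0 := h.spl_corner (b := ρ a) (c := ρ (ρ a)) (d := ρ (ρ (ρ a))) ha rfl ctx.ab ctx.ac ctx.ad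
    ctx.bc ctx.bd ctx.cd hS hcut
  set b := ρ a with hbdef
  set c := ρ b with hcdef
  set d := ρ c with hddef
  set S' := S \ sq4 ρ a with hS'
  have p2 := ctx.m2
  have hsub : sq4 ρ (φ b) ⊆ S' := hc0.sq4_sub p2
  have hcard : (sq4 ρ (φ b)).card = 4 := hc0.card_sq4 p2
  have hle : 4 ≤ S'.card := hcard ▸ Finset.card_le_card hsub
  have hlt : S'.card < S.card := by
    apply Finset.card_lt_card
    refine ⟨Finset.sdiff_subset, ?_⟩
    intro hh
    exact ctx.ha (hh ha)
  have S'S : ∀ u ∈ S', u ∈ S := fun u hu => (Finset.mem_sdiff.1 hu).1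
  have hff2 : φ (φ b) = b := h.ff b (h.rmem a ha)
  -- neighbours of x2 in S'
  have hn : ∀ u ∈ S', (cadj ρ φ (φ b) u ↔ u = ρ (φ b) ∨ u = ρ (ρ (ρ (φ b)))) := by
    intro u hu
    rw [h.nbr (S'S _ p2) (S'S _ hu), hff2]
    constructor
    · rintro (e | e | e)
      · exact Or.inl e
      · exact Or.inr e
      · exact absurd (e ▸ hu) ctx.hb
    · rintro (e | e)
      · exact Or.inl e
      · exact Or.inr (Or.inl e)
  have ms : ρ (φ b) ∈ S' := hc0.rmem _ p2
  have mt : ρ (ρ (ρ (φ b))) ∈ S' := hc0.rmem _ (hc0.rmem _ ms)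
  suffices hsuf : ∃ χ : V → Bool, Good (addE (cadj ρ φ) (φ c) (φ d)) S' χ ∧
      (χ (φ c) = χ (φ d) → ¬ cadj ρ φ (φ c) (φ d)) ∧ χ (ρ (φ b)) ≠ χ (ρ (ρ (ρ (φ b)))) by
    obtain ⟨χ, hG, hno, hst⟩ := hsuf
    obtain ⟨χ', hG', h1, h2⟩ := lift_sq ctx hG hno ms mt hn hst
    rw [hfull] at hG'
    exact ⟨χ', hG', h1, h2⟩
  by_cases hbase : S'.card = 4
  · -- base
    have e : sq4 ρ (φ b) = S' := Finset.eq_of_subset_of_card_le hsub (by omega)
    have symS : ∀ u ∈ S', ∀ v ∈ S', cadj ρ φ u v → cadj ρ φ v u := by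
      intro u hu v hv
      exact ctx.sym u (by rw [hfull]; exact S'S _ hu) v (by rw [hfull]; exact S'S _ hv)
    have irrS : ∀ u ∈ S', ¬ cadj ρ φ u u := fun u hu =>
      ctx.irr u (by rw [hfull]; exact S'S _ hu)
    obtain ⟨χ, hG, h34, hst⟩ := base_col (R := cadj ρ φ) (S := S') (p := φ b) (q := ρ (φ b))
      (r := ρ (ρ (φ b))) (s := ρ (ρ (ρ (φ b)))) (x3 := φ c) (x4 := φ d) e.symm
      (hc0.ne1 p2).symm (hc0.r2 _ p2).symm (hc0.ne3 p2).symm (hc0.ne1 ms).symm
      (hc0.r2 _ ms).symm (hc0.ne1 (hc0.rmem _ ms)).symm ctx.m3 ctx.m4 ctx.x23.symm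
      ctx.x24.symm ctx.x34 (Or.inl rfl) (Or.inl rfl) (Or.inl rfl)
      (Or.inl (hc0.r4 _ p2).symm) symS irrS
    refine ⟨χ, ?_, fun hh => absurd hh h34, hst⟩
    intro k
    refine (hG k).congr ?_
    intro u hu v hv
    unfold addE
    constructor
    · exact Or.inl
    · rintro (hh | ⟨e1, e2⟩ | ⟨e1, e2⟩)
      · exact hh
      · subst e1; subst e2
        exact absurd ((mem_cl.1 hu).2.trans (mem_cl.1 hv).2.symm) h34
      · subst e1; subst e2
        exact absurd ((mem_cl.1 hv).2.trans (mem_cl.1 hu).2.symm) h34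
  · have hbig : 4 < S'.card := by omega
    obtain ⟨χ, hG, h1, h2⟩ := ih S' _ hlt hc0 hbig (φ b) p2
    have v1 : spl φ (φ a) (φ b) (φ c) (φ d) (φ a) = φ b := by simp [spl]
    have v2 : spl φ (φ a) (φ b) (φ c) (φ d) (φ b) = φ a := by simp [spl, ctx.x12.symm]
    have x13 : φ a ≠ φ c := by
      intro e
      exact ctx.ac (by rw [← h.ff a ha, ← h.ff c (h.rmem _ (h.rmem a ha)), e])
    have x14 : φ a ≠ φ d := by
      intro e
      exact ctx.ad (by rw [← h.ff a ha, ← h.ff d (h.rmem _ (h.rmem _ (h.rmem a ha))), e])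
    have v3 : spl φ (φ a) (φ b) (φ c) (φ d) (φ c) = φ d := by
      simp [spl, x13.symm, ctx.x23.symm]
    have v4 : spl φ (φ a) (φ b) (φ c) (φ d) (φ d) = φ c := by
      simp [spl, x14.symm, ctx.x24.symm, ctx.x34.symm]
    rw [v2] at h1
    refine ⟨χ, ?_, ?_, h2⟩
    · intro k
      refine (hG k).congr ?_
      intro u hu v hv
      have huS := (mem_cl.1 hu).1
      have hvS := (mem_cl.1 hv).1
      have huv : χ u = χ v := (mem_cl.1 hu).2.trans (mem_cl.1 hv).2.symm
      unfold addE cadj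
      constructor
      · rintro (e | e | e)
        · exact Or.inl (Or.inl e)
        · exact Or.inl (Or.inr (Or.inl e))
        · by_cases e1 : u = φ a
          · rw [e1, v1] at e
            rw [e1, e] at huv
            exact absurd huv h1
          by_cases e2 : u = φ b
          · rw [e2, v2] at e
            rw [e2, e] at huv
            exact absurd huv.symm h1
          by_cases e3 : u = φ c
          · rw [e3, v3] at e
            exact Or.inr (Or.inl ⟨e3, e⟩)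
          by_cases e4 : u = φ d
          · rw [e4, v4] at e
            exact Or.inr (Or.inr ⟨e4, e⟩)
          left; right; right
          rw [e]; simp [spl, e1, e2, e3, e4]
      · rintro ((e | e | e) | ⟨e1, e2⟩ | ⟨e1, e2⟩)
        · exact Or.inl e
        · exact Or.inr (Or.inl e)
        · right; right
          have hu' := S'S _ huS
          have n1 : u ≠ φ a := by
            intro e1; rw [e1, h.ff a ha] at e; exact ctx.ha (e ▸ hvS)
          have n2 : u ≠ φ b := by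
            intro e1; rw [e1, hff2] at e; exact ctx.hb (e ▸ hvS)
          have n3 : u ≠ φ c := by
            intro e1; rw [e1, h.ff c (h.rmem _ (h.rmem a ha))] at e; exact ctx.hc (e ▸ hvS)
          have n4 : u ≠ φ d := by
            intro e1; rw [e1, h.ff d (h.rmem _ (h.rmem _ (h.rmem a ha)))] at e
            exact ctx.hd (e ▸ hvS)
          rw [e]; simp [spl, n1, n2, n3, n4]
        · right; right; rw [e1, e2, v3]
        · right; right; rw [e1, e2, v4]
    · intro _ hR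
      have ho := hc0.sq4_out ctx.m3 hbig (φ c) (mem_sq4.2 (Or.inl rfl))
      rw [v3] at ho
      apply ho
      rw [h.nbr (S'S _ ctx.m3) (S'S _ ctx.m4)] at hR
      rw [mem_sq4]
      rcases hR with e | e | e
      · exact Or.inr (Or.inl e)
      · exact Or.inr (Or.inr (Or.inr e))
      · rw [h.ff c (h.rmem _ (h.rmem a ha))] at e
        exact absurd (e ▸ ctx.m4) ctx.hc

/-- The reversed rotation. -/
theorem Corner.rev {S : Finset V} {ρ φ : V → V} (h : Corner S ρ φ) :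
    Corner S (fun x => ρ (ρ (ρ x))) φ := by
  refine ⟨fun x hx => h.rmem _ (h.rmem _ (h.rmem x hx)), ?_, ?_, h.fmem, h.ff, h.fne, ?_⟩
  · intro x hx
    have k1 := h.rmem x hx
    have k2 := h.rmem _ k1
    have k3 := h.rmem _ k2
    show ρ (ρ (ρ (ρ (ρ (ρ (ρ (ρ (ρ (ρ (ρ (ρ x))))))))))) = x
    rw [h.r4 x hx, h.r4 x hx, h.r4 x hx]
  · intro x hx
    show ρ (ρ (ρ (ρ (ρ (ρ x))))) ≠ x
    rw [h.r4 x hx]
    exact h.r2 x hx
  · intro T hT hn hne hcl
    refine h.cut T hT hn hne ?_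
    intro x hx
    have k1 := hcl x hx
    have k2 := hcl _ k1
    have k3 := hcl _ k2
    have e : ρ (ρ (ρ (ρ (ρ (ρ (ρ (ρ (ρ x)))))))) = ρ x := by
      rw [h.r4 x (hT hx), h.r4 x (hT hx)]
    have k3' : ρ (ρ (ρ (ρ (ρ (ρ (ρ (ρ (ρ x)))))))) ∈ T := k3
    rw [e] at k3'
    exact k3'

theorem corner_main (n : ℕ) : ∀ (S : Finset V) (ρ φ : V → V), S.card = n → Corner S ρ φ →
    4 < S.card → ∀ a ∈ S, Mark S ρ φ a := by
  induction n using Nat.strong_induction_on with
  | _ n ihn =>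
    intro S ρ φ hn h hS a ha
    have ih : ∀ (S' : Finset V) (ρ' φ' : V → V), S'.card < S.card → Corner S' ρ' φ' →
        4 < S'.card → ∀ x ∈ S', Mark S' ρ' φ' x := by
      intro S' ρ' φ' hlt hc hb x hx
      exact ihn S'.card (hn ▸ hlt) S' ρ' φ' rfl hc hb x hx
    by_cases hcut : ∀ T : Finset V, T ⊆ S \ sq4 ρ a → T.Nonempty → T ≠ S \ sq4 ρ a →
      (∀ x ∈ T, ρ x ∈ T) →
      4 ≤ (T.filter (fun x => spl φ (φ a) (φ (ρ a)) (φ (ρ (ρ a))) (φ (ρ (ρ (ρ a)))) x ∉ T)).card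
    · exact h.step ha hS hcut (fun S' φ' => ih S' ρ φ')
    · push_neg at hcut
      obtain ⟨T, hT, hTn, hTne, hTc, hTb⟩ := hcut
      obtain ⟨_, ctx⟩ := h.sqctx ha hS
      have hr := h.rev
      have hb := h.rmem a ha
      have hc := h.rmem _ hb
      have hd := h.rmem _ hc
      -- sq4 for the reversed rotation
      have e1 : ρ (ρ (ρ (ρ (ρ (ρ a))))) = ρ (ρ a) := by rw [h.r4 a ha]
      have e2 : ρ (ρ (ρ (ρ (ρ (ρ (ρ (ρ (ρ a)))))))) = ρ a := by rw [h.r4 a ha, h.r4 a ha]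
      have hsq : sq4 (fun x => ρ (ρ (ρ x))) a = sq4 ρ a := by
        ext x
        rw [mem_sq4, mem_sq4]
        show (x = a ∨ x = ρ (ρ (ρ a)) ∨ x = ρ (ρ (ρ (ρ (ρ (ρ a))))) ∨
          x = ρ (ρ (ρ (ρ (ρ (ρ (ρ (ρ (ρ a))))))))) ↔ _
        rw [e1, h.r4 a ha]
        tauto
      have hmark : Mark S (fun x => ρ (ρ (ρ x))) φ a := by
        refine hr.step ha hS ?_ (fun S' φ' => ih S' _ φ')
        intro U hU hUn hUne hUc
        rw [hsq] at hU hUne
        show 4 ≤ (U.filter (fun x => spl φ (φ a) (φ (ρ (ρ (ρ a))))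
          (φ (ρ (ρ (ρ (ρ (ρ (ρ a))))))) (φ (ρ (ρ (ρ (ρ (ρ (ρ (ρ (ρ (ρ a)))))))))) x ∉ U)).card
        rw [e1, h.r4 a ha]
        by_contra hlt
        push_neg at hlt
        have hUc' : ∀ x ∈ U, ρ x ∈ U := by
          intro x hx
          have k1 := hUc x hx
          have k2 := hUc _ k1
          have k3 := hUc _ k2
          have xS : x ∈ S := (Finset.mem_sdiff.1 (hU hx)).1
          have e : ρ (ρ (ρ (ρ (ρ (ρ (ρ (ρ (ρ x)))))))) = ρ x := by
            rw [h.r4 x xS, h.r4 x xS]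
          have k3' : ρ (ρ (ρ (ρ (ρ (ρ (ρ (ρ (ρ x)))))))) ∈ U := k3
          rw [e] at k3'
          exact k3'
        exact h.one_good ha (b := ρ a) (c := ρ (ρ a)) (d := ρ (ρ (ρ a))) rfl ctx.ab ctx.ac ctx.ad
          ctx.bc ctx.bd ctx.cd hS T U hT hTn hTc hTne hTb hU hUn hUc' hUne hlt
      obtain ⟨χ, hG, h1, h2⟩ := hmark
      refine ⟨χ, ?_, h1, ?_⟩
      · intro k
        refine (hG k).congr ?_
        intro u hu v hv
        have huS := (mem_cl.1 hu).1
        have hvS := (mem_cl.1 hv).1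
        rw [hr.nbr huS hvS, h.nbr huS hvS]
        show (v = ρ (ρ (ρ u)) ∨ v = ρ (ρ (ρ (ρ (ρ (ρ (ρ (ρ (ρ u)))))))) ∨ v = φ u) ↔ _
        rw [h.r4 u huS, h.r4 u huS]
        tauto
      · have h2' : χ (ρ (ρ (ρ a))) ≠ χ (ρ (ρ (ρ (ρ (ρ (ρ (ρ (ρ (ρ a))))))))) := h2
        rw [e2] at h2'
        exact h2'.symm

end Pool.Jg
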