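import Pool.Agent.Lib.MP_fc2a59_co.Jg.Defs

/-!
# MP_fc2a59_co (Jaeger): blocks of a cubic graph give a corner model

`Blocks G S ρ φ β`: the vertices of `G` are divided into blocks (`β v` is the name of the block of
`v`); every block contains a cycle and exactly four corners (elements of `S`), which are rotated by
`ρ`; a corner `x` has exactly one neighbour `φ x` outside its block, which is a corner; the other
vertices have no neighbour outside their block.
-/

set_option autoImplicit false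

namespace Pool.Jg

open Finset

variable {V ι : Type}

/-- the hypothesis of the frozen statement: every edge cut separating two cycles has at least four
edges -/
def CutHyp [Fintype V] [DecidableEq V] (G : SimpleGraph V) [DecidableRel G.Adj] : Prop :=
  ∀ S : Finset V,
    (∃ (v : V) (q : G.Walk v v), q.IsCycle ∧ ∀ w ∈ q.support, w ∈ S) →
    (∃ (v : V) (q : G.Walk v v), q.IsCycle ∧ ∀ w ∈ q.support, w ∉ S) →
    4 ≤ ((Finset.univ ×ˢ Finset.univ).filter
      (fun e : V × V => e.1 ∈ S ∧ e.2 ∉ S ∧ G.Adj e.1 e.2)).card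

/-- a division of the vertices into blocks with four corners -/
structure Blocks (G : SimpleGraph V) (S : Finset V) (ρ φ : V → V) (β : V → ι) : Prop where
  rmem : ∀ x ∈ S, ρ x ∈ S
  rb : ∀ x ∈ S, β (ρ x) = β x
  r4 : ∀ x ∈ S, ρ (ρ (ρ (ρ x))) = x
  r2 : ∀ x ∈ S, ρ (ρ x) ≠ x
  orb : ∀ x ∈ S, ∀ y ∈ S, β x = β y → y = x ∨ y = ρ x ∨ y = ρ (ρ x) ∨ y = ρ (ρ (ρ x))
  fmem : ∀ x ∈ S, φ x ∈ S
  ff : ∀ x ∈ S, φ (φ x) = x
  fb : ∀ x ∈ S, β (φ x) ≠ β x
  nb : ∀ x ∈ S, ∀ y, G.Adj x y → y = φ x ∨ β y = β x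
  nb' : ∀ x, x ∉ S → ∀ y, G.Adj x y → β y = β x
  cyc : ∀ x ∈ S, ∃ (v : V) (q : G.Walk v v), q.IsCycle ∧ ∀ w ∈ q.support, β w = β x

theorem Blocks.corner [Fintype V] [DecidableEq V] {G : SimpleGraph V} [DecidableRel G.Adj]
    {S : Finset V} {ρ φ : V → V} {β : V → ι} (h : Blocks G S ρ φ β) (hc : CutHyp G) :
    Corner S ρ φ where
  rmem := h.rmem
  r4 := h.r4
  r2 := h.r2
  fmem := h.fmem
  ff := h.ff
  fne x hx hx' := h.fb x hx (by rw [hx'])
  cut := by
    classical
    intro T hTS hT hne hρ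
    have hTT : ∀ x ∈ T, ∀ y ∈ S, β x = β y → y ∈ T := by
      intro x hx y hy hxy
      have h1 := hρ x hx
      have h2 := hρ _ h1
      have h3 := hρ _ h2
      rcases h.orb x (hTS hx) y hy hxy with rfl | rfl | rfl | rfl <;> assumption
    have hU : ∀ v, v ∈ (univ.filter fun v => ∃ x ∈ T, β x = β v) ↔ ∃ x ∈ T, β x = β v := by
      intro v; simp
    have h4 := hc (univ.filter fun v => ∃ x ∈ T, β x = β v) ?_ ?_
    · refine h4.trans ?_
      refine card_le_card_of_injOn (fun e => e.1) ?_ ?_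
      · rintro ⟨u, v⟩ he
        simp only [coe_filter, mem_product, mem_univ, true_and, Set.mem_ofPred_eq,
          mem_filter] at he ⊢
        obtain ⟨⟨x, hx, hxu⟩, hv, hadj⟩ := he
        have hb : β v ≠ β u := fun h' => hv ⟨x, hx, hxu.trans h'.symm⟩
        have huS : u ∈ S := by
          by_contra hu
          exact hb (h.nb' u hu v hadj)
        have hvu : v = φ u := (h.nb u huS v hadj).resolve_right hb
        refine ⟨hTT x hx u huS hxu, fun h' => hv ⟨φ u, h', by rw [hvu]⟩⟩
      · rintro ⟨u, v⟩ he ⟨u', v'⟩ he' huu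
        simp only [coe_filter, mem_product, mem_univ, true_and, Set.mem_ofPred_eq,
          mem_filter] at he he'
        have huu' : u = u' := huu
        subst huu'
        obtain ⟨⟨x, hx, hxu⟩, hv, hadj⟩ := he
        obtain ⟨_, hv', hadj'⟩ := he'
        have huS : u ∈ S := by
          by_contra hu
          exact hv ⟨x, hx, hxu.trans (h.nb' u hu v hadj).symm⟩
        have h1 := (h.nb u huS v hadj).resolve_right
          (fun h' => hv ⟨x, hx, hxu.trans h'.symm⟩)
        have h2 := (h.nb u huS v' hadj').resolve_right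
          (fun h' => hv' ⟨x, hx, hxu.trans h'.symm⟩)
        rw [h1, h2]
    · obtain ⟨x, hx⟩ := hT
      obtain ⟨v, q, hq, hq2⟩ := h.cyc x (hTS hx)
      exact ⟨v, q, hq, fun w hw => (hU w).2 ⟨x, hx, (hq2 w hw).symm⟩⟩
    · obtain ⟨y, hy, hyT⟩ : ∃ y ∈ S, y ∉ T := by
        by_contra hcon
        push Not at hcon
        exact hne (Subset.antisymm hTS hcon)
      obtain ⟨v, q, hq, hq2⟩ := h.cyc y hy
      refine ⟨v, q, hq, fun w hw hw' => ?_⟩
      obtain ⟨x, hx, hxw⟩ := (hU w).1 hw'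
      exact hyT (hTT x hx y hy (hxw.trans (hq2 w hw)))

end Pool.Jg
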