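import Mathlib

set_option autoImplicit false

/-!
Basic notions for two-tree partitions of cubic graphs (Jaeger problem, MP_fc2a59_co).
A graph is given by a relation on an ambient type together with an active finite set.
-/

namespace Pool.Jg

variable {V : Type}

/-- One step of the relation `R` inside the finite set `s`. -/
def stepIn (R : V → V → Prop) (s : Finset V) (a b : V) : Prop :=
  a ∈ s ∧ b ∈ s ∧ R a b

/-- `s` is connected by the relation `R` (walks stay inside `s`). -/
def Conn (R : V → V → Prop) (s : Finset V) : Prop :=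
  ∀ a ∈ s, ∀ b ∈ s, Relation.ReflTransGen (stepIn R s) a b

open Classical in
/-- Number of ordered adjacent pairs inside `s` (twice the number of edges). -/
noncomputable def pairs (R : V → V → Prop) (s : Finset V) : ℕ :=
  ((s ×ˢ s).filter (fun p => R p.1 p.2)).card

/-- `s` induces a tree (connected, number of edges plus one equals number of vertices). -/
structure Tr (R : V → V → Prop) (s : Finset V) : Prop where
  ne : s.Nonempty
  conn : Conn R s
  cnt : pairs R s + 2 = 2 * s.card

/-- colour class -/
def cl (S : Finset V) (χ : V → Bool) (c : Bool) : Finset V :=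
  S.filter (fun v => χ v = c)

/-- Both colour classes of `χ` on `S` induce trees. -/
def Good (R : V → V → Prop) (S : Finset V) (χ : V → Bool) : Prop :=
  ∀ c : Bool, Tr R (cl S χ c)

/-- The corner model: `S` is a disjoint union of squares, `ρ` rotates every square, `φ` is the
fixed-point-free involution given by the links; every union of squares which is neither empty
nor everything has at least four outgoing links. -/
structure Corner [DecidableEq V] (S : Finset V) (ρ φ : V → V) : Prop where
  rmem : ∀ x ∈ S, ρ x ∈ S
  r4 : ∀ x ∈ S, ρ (ρ (ρ (ρ x))) = x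
  r2 : ∀ x ∈ S, ρ (ρ x) ≠ x
  fmem : ∀ x ∈ S, φ x ∈ S
  ff : ∀ x ∈ S, φ (φ x) = x
  fne : ∀ x ∈ S, φ x ≠ x
  cut : ∀ T : Finset V, T ⊆ S → T.Nonempty → T ≠ S → (∀ x ∈ T, ρ x ∈ T) →
    4 ≤ (T.filter (fun x => φ x ∉ T)).card

/-- Adjacency of the graph of a corner model. -/
def cadj (ρ φ : V → V) (a b : V) : Prop :=
  b = ρ a ∨ a = ρ b ∨ b = φ a

end Pool.Jg
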