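import Pool.Agent.Lib.MP_fc2a59_co.Jg.Surg

set_option autoImplicit false

/-!
The lifting step: a square `a b c d` is put back.
-/

namespace Pool.Jg

variable {V : Type} [DecidableEq V]

/-- The active set after the square is added. -/
def full (S : Finset V) (a b c d : V) : Finset V :=
  insert a (insert b (insert c (insert d S)))

/-- Local data: the square `a b c d` with outer neighbours `x1 x2 x3 x4` in `S`. -/
structure SqCtx (R : V → V → Prop) (S : Finset V) (a b c d x1 x2 x3 x4 : V) : Prop where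
  ha : a ∉ S
  hb : b ∉ S
  hc : c ∉ S
  hd : d ∉ S
  ab : a ≠ b
  ac : a ≠ c
  ad : a ≠ d
  bc : b ≠ c
  bd : b ≠ d
  cd : c ≠ d
  m1 : x1 ∈ S
  m2 : x2 ∈ S
  m3 : x3 ∈ S
  m4 : x4 ∈ S
  x12 : x1 ≠ x2
  x23 : x2 ≠ x3
  x24 : x2 ≠ x4
  x34 : x3 ≠ x4
  na : ∀ u ∈ full S a b c d, (R a u ↔ u = b ∨ u = d ∨ u = x1)
  nb : ∀ u ∈ full S a b c d, (R b u ↔ u = a ∨ u = c ∨ u = x2)
  nc : ∀ u ∈ full S a b c d, (R c u ↔ u = b ∨ u = d ∨ u = x3)
  nd : ∀ u ∈ full S a b c d, (R d u ↔ u = a ∨ u = c ∨ u = x4)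
  sym : ∀ u ∈ full S a b c d, ∀ v ∈ full S a b c d, R u v → R v u
  irr : ∀ u ∈ full S a b c d, ¬ R u u

/-- Moving the leaf `x` from `P` to `Q`. -/
theorem flip_leaf {R : V → V → Prop} {P Q : Finset V} {x s t : V}
    (hP : Tr R P) (hQ : Tr R Q) (hx : x ∈ P) (hxQ : x ∉ Q) (hs : s ∈ P) (ht : t ∈ Q)
    (hsx : x ≠ s)
    (hn : ∀ u, u ∈ P ∨ u ∈ Q → (R x u ↔ u = s ∨ u = t))
    (hsym : ∀ u, u ∈ P ∨ u ∈ Q → (R u x ↔ R x u))
    (hst : s ∉ Q) (hts : t ∉ P) : Tr R (P.erase x) ∧ Tr R (insert x Q) := by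
  have hirr : ¬ R x x := by
    intro h
    rcases (hn x (Or.inl hx)).1 h with h | h
    · exact hsx h
    · exact hxQ (h ▸ ht)
  constructor
  · refine hP.erase hx hs hsx ((hn s (Or.inl hs)).2 (Or.inl rfl)) ?_ hirr
      (fun u hu => hsym u (Or.inl hu))
    intro u hu hr
    rcases (hn u (Or.inl hu)).1 hr with h | h
    · exact h
    · exact absurd (h ▸ hu) hts
  · refine hQ.leaf hxQ ht ((hn t (Or.inr ht)).2 (Or.inr rfl)) ?_ hirr
      (fun u hu => hsym u (Or.inr hu))
    intro u hu hr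
    rcases (hn u (Or.inr hu)).1 hr with h | h
    · exact absurd (h ▸ hu) hst
    · exact h

/-- The result of putting the square back. -/
def Res (R : V → V → Prop) (S : Finset V) (a b c d x1 : V) : Prop :=
  ∃ P Q : Finset V, Disjoint P Q ∧ P ∪ Q = full S a b c d ∧ Tr R P ∧ Tr R Q ∧
    ((x1 ∈ P ∧ a ∈ Q) ∨ (x1 ∈ Q ∧ a ∈ P)) ∧ ((b ∈ P ∧ d ∈ Q) ∨ (b ∈ Q ∧ d ∈ P))

/-- Last step: the corner `a` is added. -/
theorem add_a {R : V → V → Prop} {S : Finset V} {a b c d x1 x2 x3 x4 : V}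
    (h : SqCtx R S a b c d x1 x2 x3 x4) {P Q : Finset V} (hdis : Disjoint P Q)
    (hun : P ∪ Q = insert b (insert c (insert d S))) (hP : Tr R P) (hQ : Tr R Q)
    (hbP : b ∈ P) (hdQ : d ∈ Q) : Res R S a b c d x1 := by
  have haU : a ∉ P ∪ Q := by
    rw [hun]
    simp only [Finset.mem_insert, not_or]
    exact ⟨h.ab, h.ac, h.ad, h.ha⟩
  have haP : a ∉ P := fun hh => haU (Finset.mem_union_left _ hh)
  have haQ : a ∉ Q := fun hh => haU (Finset.mem_union_right _ hh)
  have hsub : ∀ u, u ∈ P ∨ u ∈ Q → u ∈ full S a b c d := by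
    intro u hu
    have : u ∈ P ∪ Q := Finset.mem_union.2 hu
    rw [hun] at this
    exact Finset.mem_insert_of_mem this
  have haf : a ∈ full S a b c d := Finset.mem_insert_self _ _
  have hx1 : x1 ∈ P ∨ x1 ∈ Q := by
    have : x1 ∈ P ∪ Q := by
      rw [hun]
      exact Finset.mem_insert_of_mem (Finset.mem_insert_of_mem (Finset.mem_insert_of_mem h.m1))
    exact Finset.mem_union.1 this
  have hsym : ∀ u, u ∈ P ∨ u ∈ Q → (R u a ↔ R a u) := fun u hu =>
    ⟨h.sym u (hsub u hu) a haf, h.sym a haf u (hsub u hu)⟩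
  have hirr : ¬ R a a := h.irr a haf
  have hbQ : b ∉ Q := Finset.disjoint_left.1 hdis hbP
  have hdP : d ∉ P := Finset.disjoint_right.1 hdis hdQ
  rcases hx1 with hx1 | hx1
  · -- a goes to Q
    have hx1Q : x1 ∉ Q := Finset.disjoint_left.1 hdis hx1
    refine ⟨P, insert a Q, ?_, ?_, hP, ?_, Or.inl ⟨hx1, Finset.mem_insert_self _ _⟩,
      Or.inl ⟨hbP, Finset.mem_insert_of_mem hdQ⟩⟩
    · rw [Finset.disjoint_insert_right]; exact ⟨haP, hdis⟩
    · rw [Finset.union_insert, hun]; rfl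
    · refine hQ.leaf haQ hdQ ((h.na d (hsub d (Or.inr hdQ))).2 (Or.inr (Or.inl rfl))) ?_ hirr
        (fun u hu => hsym u (Or.inr hu))
      intro u hu hr
      rcases (h.na u (hsub u (Or.inr hu))).1 hr with e | e | e
      · exact absurd (e ▸ hu) hbQ
      · exact e
      · exact absurd (e ▸ hu) hx1Q
  · have hx1P : x1 ∉ P := Finset.disjoint_right.1 hdis hx1
    refine ⟨insert a P, Q, ?_, ?_, ?_, hQ, Or.inr ⟨hx1, Finset.mem_insert_self _ _⟩,
      Or.inl ⟨Finset.mem_insert_of_mem hbP, hdQ⟩⟩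
    · rw [Finset.disjoint_insert_left]; exact ⟨haQ, hdis⟩
    · rw [Finset.insert_union, hun]; rfl
    · refine hP.leaf haP hbP ((h.na b (hsub b (Or.inl hbP))).2 (Or.inl rfl)) ?_ hirr
        (fun u hu => hsym u (Or.inl hu))
      intro u hu hr
      rcases (h.na u (hsub u (Or.inl hu))).1 hr with e | e | e
      · exact e
      · exact absurd (e ▸ hu) hdP
      · exact absurd (e ▸ hu) hx1P

/-- `R` with the edge `x y` added. -/
def addE (R : V → V → Prop) (x y : V) (u v : V) : Prop :=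
  R u v ∨ (u = x ∧ v = y) ∨ (u = y ∧ v = x)

/-- Case A after the flip: `x3 ∈ P`, `x4 ∈ Q`, `x2 ∈ Q`, both classes are trees. -/
theorem lift_A {R : V → V → Prop} {S : Finset V} {a b c d x1 x2 x3 x4 : V}
    (h : SqCtx R S a b c d x1 x2 x3 x4) {P Q : Finset V} (hdis : Disjoint P Q)
    (hun : P ∪ Q = S) (hP : Tr R P) (hQ : Tr R Q) (h3 : x3 ∈ P) (h4 : x4 ∈ Q) (h2 : x2 ∈ Q) :
    Res R S a b c d x1 := by
  have hPS : ∀ u ∈ P, u ∈ S := fun u hu => hun ▸ Finset.mem_union_left _ hu
  have hQS : ∀ u ∈ Q, u ∈ S := fun u hu => hun ▸ Finset.mem_union_right _ hu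
  have fS : ∀ u ∈ S, u ∈ full S a b c d := fun u hu => Finset.mem_insert_of_mem
    (Finset.mem_insert_of_mem (Finset.mem_insert_of_mem (Finset.mem_insert_of_mem hu)))
  have fb : b ∈ full S a b c d := by simp [full]
  have fc : c ∈ full S a b c d := by simp [full]
  have fd : d ∈ full S a b c d := by simp [full]
  have h3Q : x3 ∉ Q := Finset.disjoint_left.1 hdis h3
  have h4P : x4 ∉ P := Finset.disjoint_right.1 hdis h4
  have h2P : x2 ∉ P := Finset.disjoint_right.1 hdis h2
  have cP : c ∉ P := fun hh => h.hc (hPS c hh)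
  have bP : b ∉ P := fun hh => h.hb (hPS b hh)
  have dP : d ∉ P := fun hh => h.hd (hPS d hh)
  have cQ : c ∉ Q := fun hh => h.hc (hQS c hh)
  have bQ : b ∉ Q := fun hh => h.hb (hQS b hh)
  have dQ : d ∉ Q := fun hh => h.hd (hQS d hh)
  have aP : a ∉ P := fun hh => h.ha (hPS a hh)
  have aQ : a ∉ Q := fun hh => h.ha (hQS a hh)
  -- add c to P
  have t1 : Tr R (insert c P) := by
    refine hP.leaf cP h3 ((h.nc x3 (fS x3 h.m3)).2 (Or.inr (Or.inr rfl))) ?_ (h.irr c fc) ?_
    · intro u hu hr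
      rcases (h.nc u (fS u (hPS u hu))).1 hr with e | e | e
      · exact absurd (e ▸ hu) bP
      · exact absurd (e ▸ hu) dP
      · exact e
    · intro u hu
      exact ⟨h.sym u (fS u (hPS u hu)) c fc, h.sym c fc u (fS u (hPS u hu))⟩
  -- add b to P
  have t2 : Tr R (insert b (insert c P)) := by
    refine t1.leaf ?_ (Finset.mem_insert_self c P) ((h.nb c fc).2 (Or.inr (Or.inl rfl))) ?_
      (h.irr b fb) ?_
    · simp only [Finset.mem_insert, not_or]; exact ⟨h.bc, bP⟩
    · intro u hu hr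
      have hu' : u ∈ full S a b c d := by
        rcases Finset.mem_insert.1 hu with rfl | hu
        · exact fc
        · exact fS u (hPS u hu)
      rcases (h.nb u hu').1 hr with e | e | e
      · subst e
        rcases Finset.mem_insert.1 hu with hh | hh
        · exact absurd hh h.ac
        · exact absurd hh aP
      · exact e
      · subst e
        rcases Finset.mem_insert.1 hu with hh | hh
        · exact absurd (hh ▸ h.m2) h.hc
        · exact absurd hh h2P
    · intro u hu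
      have hu' : u ∈ full S a b c d := by
        rcases Finset.mem_insert.1 hu with rfl | hu
        · exact fc
        · exact fS u (hPS u hu)
      exact ⟨h.sym u hu' b fb, h.sym b fb u hu'⟩
  -- add d to Q
  have t3 : Tr R (insert d Q) := by
    refine hQ.leaf dQ h4 ((h.nd x4 (fS x4 h.m4)).2 (Or.inr (Or.inr rfl))) ?_ (h.irr d fd) ?_
    · intro u hu hr
      rcases (h.nd u (fS u (hQS u hu))).1 hr with e | e | e
      · exact absurd (e ▸ hu) aQ
      · exact absurd (e ▸ hu) cQ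
      · exact e
    · intro u hu
      exact ⟨h.sym u (fS u (hQS u hu)) d fd, h.sym d fd u (fS u (hQS u hu))⟩
  refine add_a h (P := insert b (insert c P)) (Q := insert d Q) ?_ ?_ t2 t3
    (Finset.mem_insert_self _ _) (Finset.mem_insert_self _ _)
  · rw [Finset.disjoint_insert_left, Finset.disjoint_insert_left, Finset.disjoint_insert_right]
    simp only [Finset.mem_insert, not_or]
    exact ⟨⟨h.bd, bQ⟩, ⟨h.cd, cQ⟩, dP, hdis⟩
  · rw [← hun]
    ext u
    simp only [Finset.mem_union, Finset.mem_insert]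
    tauto

/-- Case B after the flip: `x3 x4 ∈ P` with the virtual edge, `x2 ∈ Q`. -/
theorem lift_B {R : V → V → Prop} {S : Finset V} {a b c d x1 x2 x3 x4 : V}
    (h : SqCtx R S a b c d x1 x2 x3 x4) {P Q : Finset V} (hdis : Disjoint P Q)
    (hun : P ∪ Q = S) (hP : Tr (addE R x3 x4) P) (hQ : Tr R Q) (h3 : x3 ∈ P) (h4 : x4 ∈ P)
    (h2 : x2 ∈ Q) (hno : ¬ R x3 x4) : Res R S a b c d x1 := by
  have hPS : ∀ u ∈ P, u ∈ S := fun u hu => hun ▸ Finset.mem_union_left _ hu
  have hQS : ∀ u ∈ Q, u ∈ S := fun u hu => hun ▸ Finset.mem_union_right _ hu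
  have fS : ∀ u ∈ S, u ∈ full S a b c d := fun u hu => Finset.mem_insert_of_mem
    (Finset.mem_insert_of_mem (Finset.mem_insert_of_mem (Finset.mem_insert_of_mem hu)))
  have fb : b ∈ full S a b c d := by simp [full]
  have fc : c ∈ full S a b c d := by simp [full]
  have fd : d ∈ full S a b c d := by simp [full]
  have hno' : ¬ R x4 x3 := fun hh => hno (h.sym x4 (fS _ h.m4) x3 (fS _ h.m3) hh)
  have h3Q : x3 ∉ Q := Finset.disjoint_left.1 hdis h3
  have h4Q : x4 ∉ Q := Finset.disjoint_left.1 hdis h4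
  have h2P : x2 ∉ P := Finset.disjoint_right.1 hdis h2
  have cP : c ∉ P := fun hh => h.hc (hPS c hh)
  have bP : b ∉ P := fun hh => h.hb (hPS b hh)
  have dP : d ∉ P := fun hh => h.hd (hPS d hh)
  have cQ : c ∉ Q := fun hh => h.hc (hQS c hh)
  have bQ : b ∉ Q := fun hh => h.hb (hQS b hh)
  have dQ : d ∉ Q := fun hh => h.hd (hQS d hh)
  have aP : a ∉ P := fun hh => h.ha (hPS a hh)
  have aQ : a ∉ Q := fun hh => h.ha (hQS a hh)
  have x4c : x4 ≠ c := fun hh => h.hc (hh ▸ h.m4)
  have x3c : x3 ≠ c := fun hh => h.hc (hh ▸ h.m3)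
  -- subdivide x3 x4 by c
  have t1 : Tr (addE R c x4) (insert c P) := by
    refine Tr.subdiv (R := addE R c x4) (R' := addE R x3 x4) hP h3 h4 h.x34 cP ?_ ?_ ?_ ?_ ?_ ?_
    · rintro (hh | ⟨hh, _⟩ | ⟨hh, _⟩)
      · exact hno hh
      · exact x3c hh
      · exact h.x34 hh
    · rintro (hh | ⟨hh, _⟩ | ⟨_, hh⟩)
      · exact hno' hh
      · exact x4c hh
      · exact x3c hh
    · intro u hu v hv
      have uc : u ≠ c := fun hh => cP (hh ▸ hu)
      have vc : v ≠ c := fun hh => cP (hh ▸ hv)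
      unfold addE
      constructor
      · rintro (hh | hh | hh)
        · exact Or.inl (Or.inl hh)
        · exact Or.inr (Or.inl hh)
        · exact Or.inr (Or.inr hh)
      · rintro ((hh | ⟨hh, _⟩ | ⟨_, hh⟩) | hh | hh)
        · exact Or.inl hh
        · exact absurd hh uc
        · exact absurd hh vc
        · exact Or.inr (Or.inl hh)
        · exact Or.inr (Or.inr hh)
    · intro u hu
      have uS := hPS u hu
      unfold addE
      rw [h.nc u (fS u uS)]
      constructor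
      · rintro ((hh | hh | hh) | ⟨_, hh⟩ | ⟨hh, _⟩)
        · exact absurd (hh ▸ hu) bP
        · exact absurd (hh ▸ hu) dP
        · exact Or.inl hh
        · exact Or.inr hh
        · exact absurd hh.symm x4c
      · rintro (hh | hh)
        · exact Or.inl (Or.inr (Or.inr hh))
        · exact Or.inr (Or.inl ⟨rfl, hh⟩)
    · rintro (hh | ⟨_, hh⟩ | ⟨hh, _⟩)
      · exact h.irr c fc hh
      · exact x4c hh.symm
      · exact x4c hh.symm
    · intro u hu
      have uS := hPS u hu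
      have uc : u ≠ c := fun hh => cP (hh ▸ hu)
      unfold addE
      constructor
      · rintro (hh | ⟨hh, _⟩ | ⟨hh, _⟩)
        · exact Or.inl (h.sym u (fS u uS) c fc hh)
        · exact absurd hh uc
        · exact Or.inr (Or.inl ⟨rfl, hh⟩)
      · rintro (hh | ⟨_, hh⟩ | ⟨_, hh⟩)
        · exact Or.inl (h.sym c fc u (fS u uS) hh)
        · exact Or.inr (Or.inr ⟨hh, rfl⟩)
        · exact absurd hh uc
  -- subdivide c x4 by d
  have fcP : ∀ u ∈ insert c P, u ∈ full S a b c d := by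
    intro u hu
    rcases Finset.mem_insert.1 hu with rfl | hu
    · exact fc
    · exact fS u (hPS u hu)
  have ncx4 : ¬ R c x4 := by
    rw [h.nc x4 (fS x4 h.m4)]
    rintro (hh | hh | hh)
    · exact h.hb (hh ▸ h.m4)
    · exact h.hd (hh ▸ h.m4)
    · exact h.x34 hh.symm
  have nx4c : ¬ R x4 c := fun hh => ncx4 (h.sym x4 (fS x4 h.m4) c fc hh)
  have t2 : Tr R (insert d (insert c P)) := by
    refine Tr.subdiv (R := R) (R' := addE R c x4) t1 (Finset.mem_insert_self _ _)
      (Finset.mem_insert_of_mem h4) x4c.symm ?_ ncx4 nx4c ?_ ?_ (h.irr d fd) ?_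
    · simp only [Finset.mem_insert, not_or]; exact ⟨h.cd.symm, dP⟩
    · intro u _ v _; rfl
    · intro u hu
      rw [h.nd u (fcP u hu)]
      constructor
      · rintro (hh | hh | hh)
        · subst hh
          rcases Finset.mem_insert.1 hu with e | e
          · exact absurd e h.ac
          · exact absurd e aP
        · exact Or.inl hh
        · exact Or.inr hh
      · rintro (hh | hh)
        · exact Or.inr (Or.inl hh)
        · exact Or.inr (Or.inr hh)
    · intro u hu
      exact ⟨h.sym u (fcP u hu) d fd, h.sym d fd u (fcP u hu)⟩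
  -- add b to Q
  have t3 : Tr R (insert b Q) := by
    refine hQ.leaf bQ h2 ((h.nb x2 (fS x2 h.m2)).2 (Or.inr (Or.inr rfl))) ?_ (h.irr b fb) ?_
    · intro u hu hr
      rcases (h.nb u (fS u (hQS u hu))).1 hr with e | e | e
      · exact absurd (e ▸ hu) aQ
      · exact absurd (e ▸ hu) cQ
      · exact e
    · intro u hu
      exact ⟨h.sym u (fS u (hQS u hu)) b fb, h.sym b fb u (fS u (hQS u hu))⟩
  have r := add_a h (P := insert b Q) (Q := insert d (insert c P)) ?_ ?_ t3 t2
    (Finset.mem_insert_self _ _) (Finset.mem_insert_self _ _)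
  · exact r
  · rw [Finset.disjoint_insert_left, Finset.disjoint_insert_right, Finset.disjoint_insert_right]
    simp only [Finset.mem_insert, not_or]
    exact ⟨⟨h.bd, h.bc, bP⟩, dQ, cQ, hdis.symm⟩
  · rw [← hun]
    ext u
    simp only [Finset.mem_union, Finset.mem_insert]
    tauto

end Pool.Jg
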