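import Pool.Agent.Lib.MP_fc2a59_co.Jg.Lift

set_option autoImplicit false

/-!
The lifting step for colourings.
-/

namespace Pool.Jg

variable {V : Type} [DecidableEq V]

theorem mem_cl {S : Finset V} {χ : V → Bool} {c : Bool} {v : V} :
    v ∈ cl S χ c ↔ v ∈ S ∧ χ v = c := by
  unfold cl; simp

/-- Two disjoint trees covering `U` give a good colouring. -/
theorem good_of_sets {R : V → V → Prop} {P Q U : Finset V} (hdis : Disjoint P Q)
    (hun : P ∪ Q = U) (hP : Tr R P) (hQ : Tr R Q) :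
    Good R U (fun v => decide (v ∈ P)) := by
  have h1 : cl U (fun v => decide (v ∈ P)) true = P := by
    ext v
    rw [mem_cl]
    simp only [decide_eq_true_eq]
    constructor
    · exact fun h => h.2
    · intro h
      exact ⟨hun ▸ Finset.mem_union_left _ h, h⟩
  have h2 : cl U (fun v => decide (v ∈ P)) false = Q := by
    ext v
    rw [mem_cl]
    simp only [decide_eq_false_iff_not]
    constructor
    · rintro ⟨hu, hn⟩
      rw [← hun] at hu
      rcases Finset.mem_union.1 hu with h | h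
      · exact absurd h hn
      · exact h
    · intro h
      exact ⟨hun ▸ Finset.mem_union_right _ h, Finset.disjoint_right.1 hdis h⟩
  intro c
  cases c
  · rw [h2]; exact hQ
  · rw [h1]; exact hP

theorem Res.good {R : V → V → Prop} {S : Finset V} {a b c d x1 : V}
    (h : Res R S a b c d x1) : ∃ χ : V → Bool,
      Good R (full S a b c d) χ ∧ χ x1 ≠ χ a ∧ χ b ≠ χ d := by
  obtain ⟨P, Q, hdis, hun, hP, hQ, h1, h2⟩ := h
  refine ⟨fun v => decide (v ∈ P), good_of_sets hdis hun hP hQ, ?_, ?_⟩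
  · rcases h1 with ⟨hp, hq⟩ | ⟨hq, hp⟩
    · have := Finset.disjoint_right.1 hdis hq
      simp [hp, this]
    · have := Finset.disjoint_right.1 hdis hq
      simp [hp, this]
  · rcases h2 with ⟨hp, hq⟩ | ⟨hq, hp⟩
    · have := Finset.disjoint_right.1 hdis hq
      simp [hp, this]
    · have := Finset.disjoint_right.1 hdis hq
      simp [hp, this]

/-- If one end of the added edge is missing, the added edge does not matter. -/
theorem Tr.of_addE {R : V → V → Prop} {P : Finset V} {x y : V} (h : Tr (addE R x y) P)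
    (hx : x ∉ P ∨ y ∉ P) : Tr R P := by
  refine h.congr ?_
  intro u hu v hv
  unfold addE
  constructor
  · rintro (h1 | ⟨rfl, rfl⟩ | ⟨rfl, rfl⟩)
    · exact h1
    · rcases hx with hx | hx
      · exact absurd hu hx
      · exact absurd hv hx
    · rcases hx with hx | hx
      · exact absurd hv hx
      · exact absurd hu hx
  · exact Or.inl

theorem lift_sq {R : V → V → Prop} {S : Finset V} {a b c d x1 x2 x3 x4 : V}
    (h : SqCtx R S a b c d x1 x2 x3 x4) {χ : V → Bool}
    (hG : Good (addE R x3 x4) S χ) (hno : χ x3 = χ x4 → ¬ R x3 x4) {s t : V}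
    (hs : s ∈ S) (ht : t ∈ S) (hn : ∀ u ∈ S, (R x2 u ↔ u = s ∨ u = t)) (hst : χ s ≠ χ t) :
    ∃ χ' : V → Bool, Good R (full S a b c d) χ' ∧ χ' x1 ≠ χ' a ∧ χ' b ≠ χ' d := by
  have fS : ∀ u ∈ S, u ∈ full S a b c d := fun u hu => Finset.mem_insert_of_mem
    (Finset.mem_insert_of_mem (Finset.mem_insert_of_mem (Finset.mem_insert_of_mem hu)))
  have hdis0 : Disjoint (cl S χ (χ x3)) (cl S χ (!χ x3)) := by
    rw [Finset.disjoint_left]
    intro u hu hu'
    rw [mem_cl] at hu hu'
    rw [hu.2] at hu'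
    exact absurd hu'.2 (by cases χ x3 <;> simp)
  have hun0 : cl S χ (χ x3) ∪ cl S χ (!χ x3) = S := by
    ext u
    rw [Finset.mem_union, mem_cl, mem_cl]
    constructor
    · rintro (hh | hh) <;> exact hh.1
    · intro hh
      by_cases e : χ u = χ x3
      · exact Or.inl ⟨hh, e⟩
      · refine Or.inr ⟨hh, ?_⟩
        cases h1 : χ u <;> cases h2 : χ x3 <;> simp_all
  have h3 : x3 ∈ cl S χ (χ x3) := mem_cl.2 ⟨h.m3, rfl⟩
  -- after the flip
  obtain ⟨P, Q, hdis, hun, hP, hQ, m3, m2, m4⟩ : ∃ P Q : Finset V, Disjoint P Q ∧ P ∪ Q = S ∧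
      Tr (addE R x3 x4) P ∧ Tr (addE R x3 x4) Q ∧ x3 ∈ P ∧ x2 ∈ Q ∧
      (x4 ∈ P ∧ χ x4 = χ x3 ∨ x4 ∈ Q) := by
    by_cases h2 : x2 ∈ cl S χ (χ x3)
    · have h2' : x2 ∉ cl S χ (!χ x3) := Finset.disjoint_left.1 hdis0 h2
      -- the neighbour of x2 in its class
      obtain ⟨s', t', hs', ht', hsx, hn'⟩ : ∃ s' t' : V, s' ∈ cl S χ (χ x3) ∧
          t' ∈ cl S χ (!χ x3) ∧ x2 ≠ s' ∧ ∀ u ∈ S, (R x2 u ↔ u = s' ∨ u = t') := by
        have hsx : x2 ≠ s := fun hh => h.irr x2 (fS _ h.m2) ((hn x2 h.m2).2 (Or.inl hh))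
        have htx : x2 ≠ t := fun hh => h.irr x2 (fS _ h.m2) ((hn x2 h.m2).2 (Or.inr hh))
        by_cases e : χ s = χ x3
        · refine ⟨s, t, mem_cl.2 ⟨hs, e⟩, mem_cl.2 ⟨ht, ?_⟩, hsx, hn⟩
          cases h1 : χ t <;> cases h2 : χ x3 <;> simp_all
        · refine ⟨t, s, mem_cl.2 ⟨ht, ?_⟩, mem_cl.2 ⟨hs, ?_⟩, htx, ?_⟩
          · cases h1 : χ t <;> cases h2 : χ x3 <;> simp_all
          · cases h1 : χ s <;> cases h2 : χ x3 <;> simp_all
          · intro u hu; rw [hn u hu]; tauto
      have hS : ∀ u, u ∈ cl S χ (χ x3) ∨ u ∈ cl S χ (!χ x3) → u ∈ S := by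
        intro u hu
        rcases hu with hu | hu <;> exact (mem_cl.1 hu).1
      have hadd : ∀ u, (addE R x3 x4 x2 u ↔ R x2 u) := by
        intro u
        unfold addE
        constructor
        · rintro (hh | ⟨hh, _⟩ | ⟨hh, _⟩)
          · exact hh
          · exact absurd hh h.x23
          · exact absurd hh h.x24
        · exact Or.inl
      have hadd' : ∀ u, (addE R x3 x4 u x2 ↔ R u x2) := by
        intro u
        unfold addE
        constructor
        · rintro (hh | ⟨_, hh⟩ | ⟨_, hh⟩)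
          · exact hh
          · exact absurd hh h.x24
          · exact absurd hh h.x23
        · exact Or.inl
      have fl := flip_leaf (R := addE R x3 x4) (x := x2) (s := s') (t := t')
        (hG (χ x3)) (hG (!χ x3)) h2 h2' hs' ht' hsx
        (fun u hu => by rw [hadd u]; exact hn' u (hS u hu))
        (fun u hu => by
          rw [hadd u, hadd' u]
          exact ⟨h.sym u (fS u (hS u hu)) x2 (fS _ h.m2), h.sym x2 (fS _ h.m2) u (fS u (hS u hu))⟩)
        (Finset.disjoint_left.1 hdis0 hs') (Finset.disjoint_right.1 hdis0 ht')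
      refine ⟨(cl S χ (χ x3)).erase x2, insert x2 (cl S χ (!χ x3)), ?_, ?_, fl.1, fl.2, ?_, ?_, ?_⟩
      · rw [Finset.disjoint_insert_right]
        exact ⟨Finset.notMem_erase _ _, Finset.disjoint_of_subset_left (Finset.erase_subset _ _) hdis0⟩
      · refine Eq.trans ?_ hun0
        ext u
        simp only [Finset.mem_union, Finset.mem_erase, Finset.mem_insert]
        constructor
        · rintro (⟨_, hh⟩ | rfl | hh)
          · exact Or.inl hh
          · exact Or.inl h2
          · exact Or.inr hh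
        · rintro (hh | hh)
          · by_cases e : u = x2
            · exact Or.inr (Or.inl e)
            · exact Or.inl ⟨e, hh⟩
          · exact Or.inr (Or.inr hh)
      · exact Finset.mem_erase.2 ⟨h.x23.symm, h3⟩
      · exact Finset.mem_insert_self _ _
      · have : x4 ∈ cl S χ (χ x3) ∪ cl S χ (!χ x3) := by rw [hun0]; exact h.m4
        rcases Finset.mem_union.1 this with hh | hh
        · exact Or.inl ⟨Finset.mem_erase.2 ⟨h.x24.symm, hh⟩, (mem_cl.1 hh).2⟩
        · exact Or.inr (Finset.mem_insert_of_mem hh)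
    · have h2' : x2 ∈ cl S χ (!χ x3) := by
        have : x2 ∈ cl S χ (χ x3) ∪ cl S χ (!χ x3) := by rw [hun0]; exact h.m2
        rcases Finset.mem_union.1 this with hh | hh
        · exact absurd hh h2
        · exact hh
      refine ⟨cl S χ (χ x3), cl S χ (!χ x3), hdis0, hun0, hG _, hG _, h3, h2', ?_⟩
      have : x4 ∈ cl S χ (χ x3) ∪ cl S χ (!χ x3) := by rw [hun0]; exact h.m4
      rcases Finset.mem_union.1 this with hh | hh
      · exact Or.inl ⟨hh, (mem_cl.1 hh).2⟩
      · exact Or.inr hh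
  have hQ' : Tr R Q := hQ.of_addE (Or.inl (Finset.disjoint_left.1 hdis m3))
  rcases m4 with ⟨m4, e4⟩ | m4
  · exact (lift_B h hdis hun hP hQ' m3 m4 m2 (hno e4.symm)).good
  · have hP' : Tr R P := hP.of_addE (Or.inr (Finset.disjoint_right.1 hdis m4))
    exact (lift_A h hdis hun hP' hQ' m3 m4 m2).good

end Pool.Jg
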