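import Pool.Agent.Lib.MP_fc2a59_co.Jg.Loc

/-!
# MP_fc2a59_co (Jaeger): no triangles, no `K_{2,3}`
-/

set_option autoImplicit false

namespace Pool.Jg

open Finset

variable {V : Type} [Fintype V] [DecidableEq V] {G : SimpleGraph V} [DecidableRel G.Adj]

/-- the number of the neighbours outside `U` -/
theorem out_le (h3 : ∀ v, G.degree v = 3) {U : Finset V} {v : V} {N : Finset V} (hN : N ⊆ U)
    (h : ∀ w ∈ N, G.Adj v w) : (univ.filter fun w => w ∉ U ∧ G.Adj v w).card + N.card ≤ 3 := by
  have h1 := in_add_out G U v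
  rw [h3] at h1
  have h2 : N.card ≤ (U.filter fun w => G.Adj v w).card := by
    apply card_le_card
    intro w hw
    rw [mem_filter]
    exact ⟨hN hw, h w hw⟩
  omega

theorem out1 (h3 : ∀ v, G.degree v = 3) {U : Finset V} {v x y : V} (hx : x ∈ U) (hy : y ∈ U)
    (hxy : x ≠ y) (h1 : G.Adj v x) (h2 : G.Adj v y) :
    (univ.filter fun w => w ∉ U ∧ G.Adj v w).card ≤ 1 := by
  have h := out_le h3 (U := U) (v := v) (N := {x, y}) (by
    intro w hw
    rw [mem_insert, mem_singleton] at hw
    rcases hw with rfl | rfl <;> assumption) (by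
    intro w hw
    rw [mem_insert, mem_singleton] at hw
    rcases hw with rfl | rfl <;> assumption)
  rw [card_pair hxy] at h
  omega

theorem out0 (h3 : ∀ v, G.degree v = 3) {U : Finset V} {v x y z : V} (hx : x ∈ U) (hy : y ∈ U)
    (hz : z ∈ U) (hxy : x ≠ y) (hxz : x ≠ z) (hyz : y ≠ z) (h1 : G.Adj v x) (h2 : G.Adj v y)
    (h4 : G.Adj v z) : (univ.filter fun w => w ∉ U ∧ G.Adj v w).card = 0 := by
  have h := out_le h3 (U := U) (v := v) (N := {x, y, z}) (by
    intro w hw
    rw [mem_insert, mem_insert, mem_singleton] at hw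
    rcases hw with rfl | rfl | rfl <;> assumption) (by
    intro w hw
    rw [mem_insert, mem_insert, mem_singleton] at hw
    rcases hw with rfl | rfl | rfl <;> assumption)
  rw [card_insert_of_notMem, card_pair hyz] at h
  · omega
  · rw [mem_insert, mem_singleton]; tauto

/-- a small set with few leaving edges: contradiction if the graph is large -/
theorem small_cut' (h3 : ∀ v, G.degree v = 3) (hc : CutHyp G) {U : Finset V} (hne : U.Nonempty)
    {k m : ℕ} (hk : cutn G U ≤ k) (hk3 : k ≤ 3) (hkU : k ≤ U.card) (hU : U.card ≤ m)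
    (hm : m + k ≤ Fintype.card V) (hkm : m < Fintype.card V) : False := by
  rcases small_cut G h3 hc (cyc_in G h3 hne (by omega)) (by omega : cutn G U ≤ 3) with h | h
  · rw [h, card_univ] at hU
    omega
  · rw [card_compl] at h
    omega

/-- no triangle -/
theorem no_tri (h3 : ∀ v, G.degree v = 3) (hc : CutHyp G) (h6 : 6 ≤ Fintype.card V) {a b c : V}
    (hab : G.Adj a b) (hbc : G.Adj b c) (hac : G.Adj a c) : False := by
  have h1 := out1 h3 (U := {a, b, c}) (v := a) (x := b) (y := c) (by simp) (by simp) hbc.ne hab hac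
  have h2 := out1 h3 (U := {a, b, c}) (v := b) (x := a) (y := c) (by simp) (by simp) hac.ne
    hab.symm hbc
  have h4 := out1 h3 (U := {a, b, c}) (v := c) (x := a) (y := b) (by simp) (by simp) hab.ne
    hac.symm hbc.symm
  have hcard : ({a, b, c} : Finset V).card = 3 := by
    rw [card_insert_of_notMem, card_pair hbc.ne]
    rw [mem_insert, mem_singleton]
    have := hab.ne
    have := hac.ne
    tauto
  refine small_cut' h3 hc (U := {a, b, c}) ⟨a, by simp⟩ (k := 3) (m := 3) ?_ le_rfl
    (by rw [hcard]) (by rw [hcard]) h6 (by omega)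
  rw [cutn, sum_insert, sum_pair hbc.ne]
  · omega
  · rw [mem_insert, mem_singleton]
    have := hab.ne
    have := hac.ne
    tauto

/-- no `K_{2,3}` -/
theorem no_K23 (h3 : ∀ v, G.degree v = 3) (hc : CutHyp G) (h8 : 8 ≤ Fintype.card V)
    {x z a b c : V} (hxz : x ≠ z) (hab : a ≠ b) (hac : a ≠ c) (hbc : b ≠ c)
    (xa : G.Adj x a) (xb : G.Adj x b) (xc : G.Adj x c)
    (za : G.Adj z a) (zb : G.Adj z b) (zc : G.Adj z c) : False := by
  have m1 := xa.ne
  have m2 := xb.ne
  have m3 := xc.ne
  have m4 := za.ne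
  have m5 := zb.ne
  have m6 := zc.ne
  have o1 := out0 h3 (U := {x, z, a, b, c}) (v := x) (x := a) (y := b) (z := c)
    (by simp) (by simp) (by simp) hab hac hbc xa xb xc
  have o2 := out0 h3 (U := {x, z, a, b, c}) (v := z) (x := a) (y := b) (z := c)
    (by simp) (by simp) (by simp) hab hac hbc za zb zc
  have o3 := out1 h3 (U := {x, z, a, b, c}) (v := a) (x := x) (y := z) (by simp) (by simp) hxz
    xa.symm za.symm
  have o4 := out1 h3 (U := {x, z, a, b, c}) (v := b) (x := x) (y := z) (by simp) (by simp) hxz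
    xb.symm zb.symm
  have o5 := out1 h3 (U := {x, z, a, b, c}) (v := c) (x := x) (y := z) (by simp) (by simp) hxz
    xc.symm zc.symm
  have n1 : x ∉ ({z, a, b, c} : Finset V) := by simp; tauto
  have n2 : z ∉ ({a, b, c} : Finset V) := by simp; tauto
  have n3 : a ∉ ({b, c} : Finset V) := by simp; tauto
  have hcard : ({x, z, a, b, c} : Finset V).card = 5 := by
    rw [card_insert_of_notMem n1, card_insert_of_notMem n2, card_insert_of_notMem n3, card_pair hbc]
  refine small_cut' h3 hc (U := {x, z, a, b, c}) ⟨a, by simp⟩ (k := 3) (m := 5) ?_ le_rfl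
    (by rw [hcard]; omega) (by rw [hcard]) (by omega) (by omega)
  rw [cutn, sum_insert n1, sum_insert n2, sum_insert n3, sum_pair hbc]
  omega

end Pool.Jg
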