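import Pool.Agent.Lib.MP_fc2a59_co.Jg.Surg

set_option autoImplicit false

/-!
Insertion of rungs: a ladder 2 x 3 (vertices `r q v` and `r' q' v'`) is obtained from the square
`r v v' r'` by subdividing the two opposite edges `r v` and `r' v'` by `q`, `q'` and joining `q q'`.
-/

namespace Pool.Jg

variable {V : Type} [DecidableEq V]

omit [DecidableEq V] in
theorem mem_cl0 {S : Finset V} {χ : V → Bool} {c : Bool} {u : V} :
    u ∈ cl S χ c ↔ u ∈ S ∧ χ u = c := by
  simp [cl]

theorem cl_insert_self {S : Finset V} {χ : V → Bool} {q : V} {c : Bool} (hq : q ∉ S) :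
    cl (insert q S) (Function.update χ q c) c = insert q (cl S χ c) := by
  ext u
  simp only [mem_cl0, Finset.mem_insert]
  by_cases h : u = q
  · subst h; simp
  · simp [h]

theorem cl_insert_ne {S : Finset V} {χ : V → Bool} {q : V} {c d : Bool} (hq : q ∉ S)
    (hd : d ≠ c) :
    cl (insert q S) (Function.update χ q c) d = cl S χ d := by
  ext u
  simp only [mem_cl0, Finset.mem_insert]
  by_cases h : u = q
  · subst h
    simp only [Function.update_self, true_or, true_and]
    constructor
    · intro h; exact absurd h.symm hd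
    · intro h; exact absurd h.1 hq
  · simp [h]

/-- Subdividing the edge `x y` by the vertex `q`, coloured `c`; if the ends of the edge have the
same colour, this has to be `c`. Neighbours of `q` of colour different from `c` do not matter. -/
theorem Good.sub {R R' : V → V → Prop} {S : Finset V} {χ : V → Bool} {x y q : V} {c : Bool}
    (hg : Good R' S χ) (hx : x ∈ S) (hy : y ∈ S) (hxy : x ≠ y) (hq : q ∉ S)
    (hnxy : ¬ R x y) (hnyx : ¬ R y x)
    (hag : ∀ a ∈ S, ∀ b ∈ S, (R' a b ↔ R a b ∨ (a = x ∧ b = y) ∨ (a = y ∧ b = x)))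
    (hqn : ∀ u ∈ S, χ u = c → (R q u ↔ u = x ∨ u = y)) (hirr : ¬ R q q)
    (hsym : ∀ u ∈ S, χ u = c → (R u q ↔ R q u)) (hc : χ x = χ y → c = χ x) :
    Good R (insert q S) (Function.update χ q c) := by
  intro d
  by_cases hd : d = c
  · subst hd
    rw [cl_insert_self hq]
    by_cases hxe : χ x = d
    · by_cases hye : χ y = d
      · -- subdivision
        refine Tr.subdiv (hg d) (mem_cl0.2 ⟨hx, hxe⟩) (mem_cl0.2 ⟨hy, hye⟩) hxy
          (fun h => hq (mem_cl0.1 h).1) hnxy hnyx ?_ ?_ hirr ?_
        · intro a ha b hb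
          exact hag a (mem_cl0.1 ha).1 b (mem_cl0.1 hb).1
        · intro u hu
          exact hqn u (mem_cl0.1 hu).1 (mem_cl0.1 hu).2
        · intro u hu
          exact hsym u (mem_cl0.1 hu).1 (mem_cl0.1 hu).2
      · -- leaf at x
        refine Tr.leaf (w := x) ((hg d).congr ?_) (fun h => hq (mem_cl0.1 h).1)
          (mem_cl0.2 ⟨hx, hxe⟩) ((hqn x hx hxe).2 (Or.inl rfl)) ?_ hirr ?_
        · intro a ha b hb
          obtain ⟨ha, ha'⟩ := mem_cl0.1 ha
          obtain ⟨hb, hb'⟩ := mem_cl0.1 hb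
          rw [hag a ha b hb]
          constructor
          · rintro (h | ⟨rfl, rfl⟩ | ⟨rfl, rfl⟩)
            · exact h
            · exact absurd hb' hye
            · exact absurd ha' hye
          · exact Or.inl
        · intro u hu hr
          obtain ⟨hu, hu'⟩ := mem_cl0.1 hu
          rcases (hqn u hu hu').1 hr with h | h
          · exact h
          · subst h; exact absurd hu' hye
        · intro u hu
          exact hsym u (mem_cl0.1 hu).1 (mem_cl0.1 hu).2
    · have hye : χ y = d := by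
        by_contra hye
        have : χ x = χ y := by
          revert hxe hye
          cases χ x <;> cases χ y <;> cases d <;> simp
        exact hxe (hc this).symm
      refine Tr.leaf (w := y) ((hg d).congr ?_) (fun h => hq (mem_cl0.1 h).1)
          (mem_cl0.2 ⟨hy, hye⟩) ((hqn y hy hye).2 (Or.inr rfl)) ?_ hirr ?_
      · intro a ha b hb
        obtain ⟨ha, ha'⟩ := mem_cl0.1 ha
        obtain ⟨hb, hb'⟩ := mem_cl0.1 hb
        rw [hag a ha b hb]
        constructor
        · rintro (h | ⟨rfl, rfl⟩ | ⟨rfl, rfl⟩)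
          · exact h
          · exact absurd ha' hxe
          · exact absurd hb' hxe
        · exact Or.inl
      · intro u hu hr
        obtain ⟨hu, hu'⟩ := mem_cl0.1 hu
        rcases (hqn u hu hu').1 hr with h | h
        · subst h; exact absurd hu' hxe
        · exact h
      · intro u hu
        exact hsym u (mem_cl0.1 hu).1 (mem_cl0.1 hu).2
  · rw [cl_insert_ne hq hd]
    refine (hg d).congr ?_
    intro a ha b hb
    obtain ⟨ha, ha'⟩ := mem_cl0.1 ha
    obtain ⟨hb, hb'⟩ := mem_cl0.1 hb
    rw [hag a ha b hb]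
    constructor
    · rintro (h | ⟨rfl, rfl⟩ | ⟨rfl, rfl⟩)
      · exact h
      · exact absurd (ha'.symm.trans (hc (ha'.trans hb'.symm)).symm) hd
      · exact absurd (hb'.symm.trans (hc (hb'.trans ha'.symm)).symm) hd
    · exact Or.inl

/-- RUNG INSERTION. -/
theorem Good.rung {R R' : V → V → Prop} {S : Finset V} {χ : V → Bool} {r v r' v' q q' : V}
    (hg : Good R' S χ) (hr : r ∈ S) (hv : v ∈ S) (hr' : r' ∈ S) (hv' : v' ∈ S)
    (hrv : r ≠ v) (hrv' : r' ≠ v') (hrr : r ≠ r') (hrv2 : r ≠ v') 
    (hq : q ∉ S) (hq' : q' ∉ S) (hqq : q ≠ q')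
    (hn1 : ¬ R r v) (hn2 : ¬ R v r) (hn3 : ¬ R r' v') (hn4 : ¬ R v' r')
    (hag : ∀ a ∈ S, ∀ b ∈ S, (R' a b ↔ R a b ∨ (a = r ∧ b = v) ∨ (a = v ∧ b = r) ∨
      (a = r' ∧ b = v') ∨ (a = v' ∧ b = r')))
    (hqn : ∀ u ∈ S, (R q u ↔ u = r ∨ u = v)) (hqn' : ∀ u ∈ S, (R q' u ↔ u = r' ∨ u = v'))
    (hirr : ¬ R q q) (hirr' : ¬ R q' q')
    (hsym : ∀ u ∈ S, (R u q ↔ R q u)) (hsym' : ∀ u ∈ S, (R u q' ↔ R q' u))
    (hne : ¬ (χ r = χ v ∧ χ r = χ r' ∧ χ r = χ v')) :
    ∃ χ' : V → Bool, Good R (insert q' (insert q S)) χ' ∧ ∀ u ∈ S, χ' u = χ u := by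
  -- the colour of `q`
  obtain ⟨c, hc1, hc2⟩ : ∃ c : Bool, (χ r = χ v → c = χ r) ∧ (χ r' = χ v' → (!c) = χ r') := by
    by_cases h1 : χ r = χ v
    · refine ⟨χ r, fun _ => rfl, fun h2 => ?_⟩
      revert hne h1 h2
      cases χ r <;> cases χ v <;> cases χ r' <;> cases χ v' <;> simp
    · exact ⟨! χ r', fun h => absurd h h1, fun _ => by simp⟩
  have hur : ∀ {u}, u ∈ S → u ≠ q := fun hu h => hq (h ▸ hu)
  have hur' : ∀ {u}, u ∈ S → u ≠ q' := fun hu h => hq' (h ▸ hu)
  set R1 : V → V → Prop := fun a b => R a b ∨ (a = r' ∧ b = v') ∨ (a = v' ∧ b = r') with hR1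
  have s1 : Good R1 (insert q S) (Function.update χ q c) := by
    refine hg.sub hr hv hrv hq ?_ ?_ ?_ ?_ ?_ ?_ hc1
    · rintro (h | ⟨h, _⟩ | ⟨h, _⟩)
      · exact hn1 h
      · exact hrr h
      · exact hrv2 h
    · rintro (h | ⟨_, h⟩ | ⟨_, h⟩)
      · exact hn2 h
      · exact hrv2 h
      · exact hrr h
    · intro a ha b hb
      rw [hag a ha b hb]
      constructor
      · rintro (h | h | h | h | h)
        · exact Or.inl (Or.inl h)
        · exact Or.inr (Or.inl h)
        · exact Or.inr (Or.inr h)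
        · exact Or.inl (Or.inr (Or.inl h))
        · exact Or.inl (Or.inr (Or.inr h))
      · rintro ((h | h | h) | h | h)
        · exact Or.inl h
        · exact Or.inr (Or.inr (Or.inr (Or.inl h)))
        · exact Or.inr (Or.inr (Or.inr (Or.inr h)))
        · exact Or.inr (Or.inl h)
        · exact Or.inr (Or.inr (Or.inl h))
    · intro u hu _
      simp only [hR1]
      rw [hqn u hu]
      constructor
      · rintro (h | ⟨h, _⟩ | ⟨h, _⟩)
        · exact h
        · exact absurd h.symm (hur hr')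
        · exact absurd h.symm (hur hv')
      · exact Or.inl
    · rintro (h | ⟨h, _⟩ | ⟨h, _⟩)
      · exact hirr h
      · exact absurd h.symm (hur hr')
      · exact absurd h.symm (hur hv')
    · intro u hu _
      simp only [hR1]
      rw [hsym u hu]
      constructor
      · rintro (h | ⟨_, h⟩ | ⟨_, h⟩)
        · exact Or.inl h
        · exact absurd h.symm (hur hv')
        · exact absurd h.symm (hur hr')
      · rintro (h | ⟨h, _⟩ | ⟨h, _⟩)
        · exact Or.inl h
        · exact absurd h.symm (hur hr')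
        · exact absurd h.symm (hur hv')
  have hχ : ∀ u ∈ S, Function.update χ q c u = χ u :=
    fun u hu => Function.update_of_ne (hur hu) _ _
  refine ⟨Function.update (Function.update χ q c) q' (!c), ?_, ?_⟩
  · refine s1.sub (x := r') (y := v') (Finset.mem_insert_of_mem hr') (Finset.mem_insert_of_mem hv')
      hrv' ?_ hn3 hn4 ?_ ?_ hirr' ?_ ?_
    · intro h
      rcases Finset.mem_insert.1 h with h | h
      · exact hqq h.symm
      · exact hq' h
    · intro a _ b _
      exact Iff.rfl
    · intro u hu hcu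
      rcases Finset.mem_insert.1 hu with rfl | hu
      · simp at hcu
      · exact hqn' u hu
    · intro u hu hcu
      rcases Finset.mem_insert.1 hu with rfl | hu
      · simp at hcu
      · exact hsym' u hu
    · rw [hχ _ hr', hχ _ hv']
      exact hc2
  · intro u hu
    rw [Function.update_of_ne (hur' hu), hχ u hu]

end Pool.Jg
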