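import Pool.Agent.Lib.MP_fc2a59_co.Jg.CornerThm
import Pool.Agent.Lib.MP_fc2a59_co.Jg.Blk

/-!
# MP_fc2a59_co (Jaeger): cubic graphs with four and six vertices
-/

set_option autoImplicit false

namespace Pool.Jg

open Finset

variable {V : Type} [Fintype V] [DecidableEq V] {G : SimpleGraph V} [DecidableRel G.Adj]

/-- a path with three vertices is a tree -/
theorem Tr_path3 {a b c : V} (hab : G.Adj a b) (hbc : G.Adj b c) (hac : ¬ G.Adj a c)
    (hne : a ≠ c) : Tr G.Adj ({a, b, c} : Finset V) := by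
  refine (Tr_pair hbc.ne hbc hbc.symm (G.loopless.irrefl _) (G.loopless.irrefl _)).leaf (w := b) ?_ ?_ hab ?_
    (G.loopless.irrefl _) ?_
  · simp only [mem_insert, mem_singleton, not_or]
    exact ⟨hab.ne, hne⟩
  · simp
  · intro u hu h
    simp only [mem_insert, mem_singleton] at hu
    rcases hu with rfl | rfl
    · rfl
    · exact absurd h hac
  · intro u _
    exact G.adj_comm _ _

theorem exists_three (h3 : ∀ v, G.degree v = 3) (x : V) :
    ∃ a b c, a ≠ b ∧ a ≠ c ∧ b ≠ c ∧ ∀ w, G.Adj x w ↔ w = a ∨ w = b ∨ w = c := by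
  have h1 := h3 x
  rw [← SimpleGraph.card_neighborFinset_eq_degree, card_eq_three] at h1
  obtain ⟨p, q, r, hpq, hpr, hqr, hN⟩ := h1
  refine ⟨p, q, r, hpq, hpr, hqr, ?_⟩
  intro w
  rw [← SimpleGraph.mem_neighborFinset, hN]
  simp

theorem exists_two (h3 : ∀ v, G.degree v = 3) {x a : V} (ha : G.Adj x a) :
    ∃ b c, b ≠ a ∧ c ≠ a ∧ b ≠ c ∧ G.Adj x b ∧ G.Adj x c ∧
      ∀ w, G.Adj x w → w = a ∨ w = b ∨ w = c := by
  obtain ⟨p, q, r, hpq, hpr, hqr, hm⟩ := exists_three h3 x
  have hp := (hm p).2 (Or.inl rfl)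
  have hq := (hm q).2 (Or.inr (Or.inl rfl))
  have hr := (hm r).2 (Or.inr (Or.inr rfl))
  rcases (hm a).1 ha with rfl | rfl | rfl
  · exact ⟨q, r, hpq.symm, hpr.symm, hqr, hq, hr, fun w hw => (hm w).1 hw⟩
  · exact ⟨p, r, hpq, hqr.symm, hpr, hp, hr, fun w hw => by
      rcases (hm w).1 hw with h | h | h <;> tauto⟩
  · exact ⟨p, q, hpr, hqr, hpq, hp, hq, fun w hw => by
      rcases (hm w).1 hw with h | h | h <;> tauto⟩

theorem good_card4 (h3 : ∀ v, G.degree v = 3) (h4 : Fintype.card V = 4) :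
    ∃ χ : V → Bool, Good G.Adj univ χ := by
  have hall : ∀ x y, x ≠ y → G.Adj x y := by
    intro x y hxy
    have h1 : G.neighborFinset x ⊆ univ.erase x := by
      intro w hw
      rw [SimpleGraph.mem_neighborFinset] at hw
      simp only [mem_erase, mem_univ, and_true]
      exact hw.ne'
    have h2 : (univ.erase x).card ≤ (G.neighborFinset x).card := by
      rw [card_erase_of_mem (mem_univ _), card_univ, h4, SimpleGraph.card_neighborFinset_eq_degree,
        h3]
    have h5 := eq_of_subset_of_card_le h1 h2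
    rw [← SimpleGraph.mem_neighborFinset, h5]
    simp only [mem_erase, mem_univ, and_true]
    exact hxy.symm
  have hpos : 0 < Fintype.card V := by omega
  obtain ⟨v⟩ := Fintype.card_pos_iff.1 hpos
  obtain ⟨a, b, c, hab, hac, hbc, hm⟩ := exists_three h3 v
  have hva : v ≠ a := ((hm a).2 (Or.inl rfl)).ne
  have hvb : v ≠ b := ((hm b).2 (Or.inr (Or.inl rfl))).ne
  have hvc : v ≠ c := ((hm c).2 (Or.inr (Or.inr rfl))).ne
  have irr : ∀ x, ¬ G.Adj x x := fun x h => h.ne rfl
  refine ⟨_, good_of_sets (P := {v, a}) (Q := {b, c}) ?_ ?_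
    (Tr_pair hva (hall _ _ hva) (hall _ _ hva.symm) (irr _) (irr _))
    (Tr_pair hbc (hall _ _ hbc) (hall _ _ hbc.symm) (irr _) (irr _))⟩
  · rw [disjoint_left]
    intro w hw hw'
    simp only [mem_insert, mem_singleton] at hw hw'
    rcases hw with rfl | rfl <;> rcases hw' with h | h
    · exact hvb h
    · exact hvc h
    · exact hab h
    · exact hac h
  · ext w
    simp only [mem_union, mem_insert, mem_singleton, mem_univ, iff_true]
    by_cases hw : w = v
    · exact Or.inl (Or.inl hw)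
    · rcases (hm w).1 (hall v w (Ne.symm hw)) with h | h | h
      · exact Or.inl (Or.inr h)
      · exact Or.inr (Or.inl h)
      · exact Or.inr (Or.inr h)

theorem good_card6 (h3 : ∀ v, G.degree v = 3) (hc : CutHyp G) (h6 : Fintype.card V = 6) :
    ∃ χ : V → Bool, Good G.Adj univ χ := by
  have hpos : 0 < Fintype.card V := by omega
  obtain ⟨v⟩ := Fintype.card_pos_iff.1 hpos
  obtain ⟨a, b, c, hab, hac, hbc, hm⟩ := exists_three h3 v
  have va : G.Adj v a := (hm a).2 (Or.inl rfl)
  have vb : G.Adj v b := (hm b).2 (Or.inr (Or.inl rfl))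
  have vc : G.Adj v c := (hm c).2 (Or.inr (Or.inr rfl))
  have nab : ¬ G.Adj a b := fun e => no_tri h3 hc h6.ge va e vb
  have nac : ¬ G.Adj a c := fun e => no_tri h3 hc h6.ge va e vc
  have nbc : ¬ G.Adj b c := fun e => no_tri h3 hc h6.ge vb e vc
  obtain ⟨d, e, hdv, hev, hde, ad, ae, -⟩ := exists_two h3 va.symm
  have nde : ¬ G.Adj d e := fun h => no_tri h3 hc h6.ge ad h ae
  have hdb : d ≠ b := fun h => nab (h ▸ ad)
  have hdc : d ≠ c := fun h => nac (h ▸ ad)
  have heb : e ≠ b := fun h => nab (h ▸ ae)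
  have hec : e ≠ c := fun h => nac (h ▸ ae)
  have n1 : v ∉ ({a, b, c, d, e} : Finset V) := by
    simp only [mem_insert, mem_singleton, not_or]
    exact ⟨va.ne, vb.ne, vc.ne, hdv.symm, hev.symm⟩
  have n2 : a ∉ ({b, c, d, e} : Finset V) := by
    simp only [mem_insert, mem_singleton, not_or]
    exact ⟨hab, hac, ad.ne, ae.ne⟩
  have n3 : b ∉ ({c, d, e} : Finset V) := by
    simp only [mem_insert, mem_singleton, not_or]
    exact ⟨hbc, hdb.symm, heb.symm⟩
  have n4 : c ∉ ({d, e} : Finset V) := by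
    simp only [mem_insert, mem_singleton, not_or]
    exact ⟨hdc.symm, hec.symm⟩
  have hcard : ({v, a, b, c, d, e} : Finset V).card = 6 := by
    rw [card_insert_of_notMem n1, card_insert_of_notMem n2, card_insert_of_notMem n3,
      card_insert_of_notMem n4, card_pair hde]
  have huniv : ({v, a, b, c, d, e} : Finset V) = univ := by
    apply eq_univ_of_card
    rw [hcard, h6]
  have hw6 : ∀ w, w = v ∨ w = a ∨ w = b ∨ w = c ∨ w = d ∨ w = e := by
    intro w
    have := mem_univ w
    rw [← huniv] at this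
    simpa using this
  obtain ⟨y, z, hyv, hzv, hyz, cy, cz, -⟩ := exists_two h3 vc.symm
  have hy : y = d ∨ y = e := by
    rcases hw6 y with h | h | h | h | h | h
    · exact absurd h hyv
    · exact absurd (h ▸ cy).symm nac
    · exact absurd (h ▸ cy).symm nbc
    · exact absurd h cy.ne'
    · exact Or.inl h
    · exact Or.inr h
  have hz : z = d ∨ z = e := by
    rcases hw6 z with h | h | h | h | h | h
    · exact absurd h hzv
    · exact absurd (h ▸ cz).symm nac
    · exact absurd (h ▸ cz).symm nbc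
    · exact absurd h cz.ne'
    · exact Or.inl h
    · exact Or.inr h
  have cde : G.Adj c d ∧ G.Adj c e := by
    rcases hy with rfl | rfl <;> rcases hz with rfl | rfl
    · exact absurd rfl hyz
    · exact ⟨cy, cz⟩
    · exact ⟨cz, cy⟩
    · exact absurd rfl hyz
  refine ⟨_, good_of_sets (P := {a, v, b}) (Q := {d, c, e}) ?_ ?_
    (Tr_path3 va.symm vb nab hab) (Tr_path3 cde.1.symm cde.2 nde hde)⟩
  · rw [disjoint_left]
    intro w hw hw'
    simp only [mem_insert, mem_singleton] at hw hw' n1 n2 n3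
    rcases hw with rfl | rfl | rfl <;> tauto
  · ext w
    simp only [mem_union, mem_insert, mem_singleton, mem_univ, iff_true]
    rcases hw6 w with h | h | h | h | h | h <;> tauto

/-- the number of vertices is even -/
theorem even_card3 (h3 : ∀ v, G.degree v = 3) : Even (Fintype.card V) := by
  have h1 := G.sum_degrees_eq_twice_card_edges
  rw [sum_congr rfl fun v _ => h3 v, sum_const, card_univ, smul_eq_mul] at h1
  have h2 : Even (Fintype.card V * 3) := ⟨_, by rw [h1]; ring⟩
  rcases Nat.even_mul.1 h2 with h | h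
  · exact h
  · exact absurd h (by decide)

theorem card_ge4 (h3 : ∀ v, G.degree v = 3) (h2 : 2 < Fintype.card V) : 4 ≤ Fintype.card V := by
  obtain ⟨k, hk⟩ := even_card3 h3
  omega

end Pool.Jg
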