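import Pool.Agent.Lib.MP_fc2a59_co.Jg.Lift2

set_option autoImplicit false

/-!
Splitting off a square in the corner model: one of the two adjacent pairings is admissible.
-/

namespace Pool.Jg

variable {V : Type} [DecidableEq V]

/-- number of links leaving `T` -/
def cutc (φ : V → V) (T : Finset V) : ℕ := (T.filter (fun x => φ x ∉ T)).card

theorem cutc_submod (φ : V → V) (T U : Finset V) :
    cutc φ (T ∩ U) + cutc φ (T ∪ U) ≤ cutc φ T + cutc φ U := by
  unfold cutc
  set A := (T ∩ U).filter (fun x => φ x ∉ T ∩ U)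
  set B := (T ∪ U).filter (fun x => φ x ∉ T ∪ U)
  set C := T.filter (fun x => φ x ∉ T)
  set D := U.filter (fun x => φ x ∉ U)
  have h1 : A ∪ B ⊆ C ∪ D := by
    intro x hx
    simp only [A, B, C, D, Finset.mem_union, Finset.mem_filter, Finset.mem_inter, not_and,
      not_or] at hx ⊢
    tauto
  have h2 : A ∩ B ⊆ C ∩ D := by
    intro x hx
    simp only [A, B, C, D, Finset.mem_union, Finset.mem_filter, Finset.mem_inter, not_and,
      not_or] at hx ⊢
    tauto
  have e1 := Finset.card_union_add_card_inter A B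
  have e2 := Finset.card_union_add_card_inter C D
  have l1 := Finset.card_le_card h1
  have l2 := Finset.card_le_card h2
  omega

theorem even_card_of_invol {T : Finset V} (f : V → V) (hf : ∀ x ∈ T, f x ∈ T)
    (hff : ∀ x ∈ T, f (f x) = x) (hne : ∀ x ∈ T, f x ≠ x) : Even T.card := by
  have h : (∑ _x ∈ T, (1 : ZMod 2)) = 0 := by
    refine Finset.sum_involution (fun a _ => f a) ?_ ?_ ?_ ?_
    · intro a _; decide
    · intro a ha _; exact hne a ha
    · intro a ha; exact hf a ha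
    · intro a ha; exact hff a ha
  rw [Finset.sum_const, nsmul_eq_mul, mul_one] at h
  exact (ZMod.natCast_eq_zero_iff_even).1 h

theorem Corner.even_cutc {S : Finset V} {ρ φ : V → V} (h : Corner S ρ φ) {T : Finset V}
    (hT : T ⊆ S) (hcl : ∀ x ∈ T, ρ x ∈ T) : Even (cutc φ T) := by
  have e1 : Even T.card := by
    refine even_card_of_invol (fun x => ρ (ρ x)) (fun x hx => hcl _ (hcl _ hx))
      (fun x hx => h.r4 x (hT hx)) (fun x hx => h.r2 x (hT hx))
  have e2 : Even (T.filter (fun x => φ x ∈ T)).card := by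
    refine even_card_of_invol φ ?_ ?_ ?_
    · intro x hx
      rw [Finset.mem_filter] at hx ⊢
      refine ⟨hx.2, ?_⟩
      rw [h.ff x (hT hx.1)]
      exact hx.1
    · intro x hx
      exact h.ff x (hT (Finset.mem_filter.1 hx).1)
    · intro x hx
      exact h.fne x (hT (Finset.mem_filter.1 hx).1)
  have e3 := Finset.card_filter_add_card_filter_not (s := T) (fun x => φ x ∈ T)
  unfold cutc
  rw [← e3] at e1
  exact (Nat.even_add.1 e1).1 e2

/-- the square of `a` -/
def sq4 (ρ : V → V) (a : V) : Finset V := {a, ρ a, ρ (ρ a), ρ (ρ (ρ a))}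

theorem mem_sq4 {ρ : V → V} {a x : V} :
    x ∈ sq4 ρ a ↔ x = a ∨ x = ρ a ∨ x = ρ (ρ a) ∨ x = ρ (ρ (ρ a)) := by
  unfold sq4; simp

section facts

variable {S : Finset V} {ρ φ : V → V} (h : Corner S ρ φ) {a : V} (ha : a ∈ S)

include h ha

theorem Corner.ne1 : ρ a ≠ a := by
  intro e
  have := h.r2 a ha
  rw [e, e] at this
  exact this rfl

theorem Corner.ne3 : ρ (ρ (ρ a)) ≠ a := by
  intro e
  have h4 := h.r4 a ha
  rw [e] at h4
  exact h.ne1 ha h4

theorem Corner.card_sq4 : (sq4 ρ a).card = 4 := by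
  have hb := h.rmem a ha
  have hc := h.rmem _ hb
  unfold sq4
  have n1 := h.ne1 ha
  have n2 := h.r2 a ha
  have n3 := h.ne3 ha
  have m1 := h.ne1 hb
  have m2 := h.r2 _ hb
  have k1 := h.ne1 hc
  rw [Finset.card_insert_of_notMem, Finset.card_insert_of_notMem, Finset.card_pair k1.symm]
  · simp only [Finset.mem_insert, Finset.mem_singleton, not_or]
    exact ⟨m1.symm, m2.symm⟩
  · simp only [Finset.mem_insert, Finset.mem_singleton, not_or]
    exact ⟨n1.symm, n2.symm, n3.symm⟩

theorem Corner.sq4_sub : sq4 ρ a ⊆ S := by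
  intro x hx
  rw [mem_sq4] at hx
  have hb := h.rmem a ha
  have hc := h.rmem _ hb
  have hd := h.rmem _ hc
  rcases hx with rfl | rfl | rfl | rfl <;> assumption

theorem Corner.sq4_closed : ∀ x ∈ sq4 ρ a, ρ x ∈ sq4 ρ a := by
  intro x hx
  rw [mem_sq4] at hx ⊢
  rcases hx with rfl | rfl | rfl | rfl
  · exact Or.inr (Or.inl rfl)
  · exact Or.inr (Or.inr (Or.inl rfl))
  · exact Or.inr (Or.inr (Or.inr rfl))
  · exact Or.inl (h.r4 a ha)

theorem Corner.sq4_out (hS : 4 < S.card) : ∀ x ∈ sq4 ρ a, φ x ∉ sq4 ρ a := by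
  have hne : sq4 ρ a ≠ S := by
    intro e
    have := h.card_sq4 ha
    rw [e] at this
    omega
  have hc := h.cut (sq4 ρ a) (h.sq4_sub ha) ⟨a, mem_sq4.2 (Or.inl rfl)⟩ hne (h.sq4_closed ha)
  have hc4 := h.card_sq4 ha
  have hsub : (sq4 ρ a).filter (fun x => φ x ∉ sq4 ρ a) = sq4 ρ a := by
    refine Finset.eq_of_subset_of_card_le (Finset.filter_subset _ _) ?_
    omega
  intro x hx
  rw [← hsub] at hx
  exact (Finset.mem_filter.1 hx).2

/-- the complement of the square is closed under rotation -/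
theorem Corner.compl_closed : ∀ x ∈ S \ sq4 ρ a, ρ x ∈ S \ sq4 ρ a := by
  intro x hx
  rw [Finset.mem_sdiff] at hx ⊢
  refine ⟨h.rmem x hx.1, ?_⟩
  intro hh
  apply hx.2
  have h1 := h.sq4_closed ha _ hh
  have h2 := h.sq4_closed ha _ h1
  have h3 := h.sq4_closed ha _ h2
  rw [h.r4 x hx.1] at h3
  exact h3

end facts

/-- the new links after a square is removed -/
def spl (φ : V → V) (x1 x2 x3 x4 : V) (y : V) : V :=
  if y = x1 then x2 else if y = x2 then x1 else if y = x3 then x4 else if y = x4 then x3 else φ y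

section main

variable {S : Finset V} {ρ φ : V → V} (h : Corner S ρ φ) {a b c d : V} (ha : a ∈ S)
  (hQ : sq4 ρ a = {a, b, c, d}) (hab : a ≠ b) (hac : a ≠ c) (had : a ≠ d) (hbc : b ≠ c)
  (hbd : b ≠ d) (hcd : c ≠ d) (hS : 4 < S.card)

include h ha hQ hab hac had hbc hbd hcd hS

theorem Corner.sq_mems : a ∈ S ∧ b ∈ S ∧ c ∈ S ∧ d ∈ S ∧
    (∀ q, q = a ∨ q = b ∨ q = c ∨ q = d → φ q ∈ S \ sq4 ρ a) := by
  have hsub := h.sq4_sub ha
  have hout := h.sq4_out ha hS
  have mem : ∀ q, q = a ∨ q = b ∨ q = c ∨ q = d → q ∈ sq4 ρ a := by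
    intro q hq
    rw [hQ]
    simpa using hq
  refine ⟨ha, hsub (mem b (by simp)), hsub (mem c (by simp)), hsub (mem d (by simp)), ?_⟩
  intro q hq
  rw [Finset.mem_sdiff]
  exact ⟨h.fmem q (hsub (mem q hq)), hout q (mem q hq)⟩

/-- The cut of `T` together with the removed square. -/
theorem Corner.cut_add {T : Finset V} (hT : T ⊆ S \ sq4 ρ a) (hne : T.Nonempty)
    (hcl : ∀ x ∈ T, ρ x ∈ T) (hTne : T ≠ S \ sq4 ρ a) :
    2 * ((if φ a ∈ T then 1 else 0) + (if φ b ∈ T then 1 else 0) + (if φ c ∈ T then 1 else 0) +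
      (if φ d ∈ T then 1 else 0)) ≤ cutc φ T := by
  obtain ⟨_, hb, hc, hd, hx⟩ := h.sq_mems ha hQ hab hac had hbc hbd hcd hS
  have hTS : T ⊆ S := fun x hx => (Finset.mem_sdiff.1 (hT hx)).1
  have hTQ : ∀ x ∈ T, x ∉ sq4 ρ a := fun x hx => (Finset.mem_sdiff.1 (hT hx)).2
  have hsub := h.sq4_sub ha
  -- the union is proper
  have hun : T ∪ sq4 ρ a ≠ S := by
    intro e
    apply hTne
    ext x
    constructor
    · exact fun hh => hT hh
    · intro hh
      rw [Finset.mem_sdiff] at hh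
      have := hh.1
      rw [← e, Finset.mem_union] at this
      rcases this with h1 | h1
      · exact h1
      · exact absurd h1 hh.2
  have h4 := h.cut (T ∪ sq4 ρ a) (Finset.union_subset hTS hsub)
    ⟨a, Finset.mem_union_right _ (mem_sq4.2 (Or.inl rfl))⟩ hun (by
      intro x hx
      rcases Finset.mem_union.1 hx with h1 | h1
      · exact Finset.mem_union_left _ (hcl x h1)
      · exact Finset.mem_union_right _ (h.sq4_closed ha x h1))
  -- split
  set F1 := T.filter (fun x => φ x ∉ T ∧ φ x ∉ sq4 ρ a)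
  set F2 := (sq4 ρ a).filter (fun x => φ x ∉ T)
  set F3 := T.filter (fun x => φ x ∈ sq4 ρ a)
  have hin : (T ∪ sq4 ρ a).filter (fun x => φ x ∉ T ∪ sq4 ρ a) ⊆ F1 ∪ F2 := by
    intro x hx
    simp only [F1, F2, Finset.mem_filter, Finset.mem_union, not_or] at hx ⊢
    tauto
  have hc1 : F1.card + F3.card ≤ cutc φ T := by
    have hd13 : Disjoint F1 F3 := by
      rw [Finset.disjoint_left]
      intro x h1 h3
      exact (Finset.mem_filter.1 h1).2.2 (Finset.mem_filter.1 h3).2
    rw [← Finset.card_union_of_disjoint hd13]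
    unfold cutc
    apply Finset.card_le_card
    intro x hx
    simp only [F1, F3, Finset.mem_filter, Finset.mem_union] at hx ⊢
    rcases hx with h1 | h1
    · exact ⟨h1.1, h1.2.1⟩
    · exact ⟨h1.1, fun hh => hTQ _ hh h1.2⟩
  have hc3 : ((sq4 ρ a).filter (fun x => φ x ∈ T)).card ≤ F3.card := by
    apply Finset.card_le_card_of_injOn φ
    · intro x hx
      have hx' := Finset.mem_filter.1 hx
      simp only [F3, Finset.coe_filter, Set.mem_setOf_eq]
      refine ⟨hx'.2, ?_⟩
      rw [h.ff x (hsub hx'.1)]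
      exact hx'.1
    · intro x hx y hy e
      have hx' := Finset.mem_filter.1 hx
      have hy' := Finset.mem_filter.1 hy
      rw [← h.ff x (hsub hx'.1), ← h.ff y (hsub hy'.1), e]
  have hc2 := Finset.card_filter_add_card_filter_not (s := sq4 ρ a) (fun x => φ x ∈ T)
  rw [h.card_sq4 ha] at hc2
  have hm : ((sq4 ρ a).filter (fun x => φ x ∈ T)).card
      = (if φ a ∈ T then 1 else 0) + (if φ b ∈ T then 1 else 0) + (if φ c ∈ T then 1 else 0) +
      (if φ d ∈ T then 1 else 0) := by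
    rw [hQ, Finset.card_filter, Finset.sum_insert, Finset.sum_insert, Finset.sum_insert,
      Finset.sum_singleton]
    · ring
    · simpa using hcd
    · simp only [Finset.mem_insert, Finset.mem_singleton, not_or]; exact ⟨hbc, hbd⟩
    · simp only [Finset.mem_insert, Finset.mem_singleton, not_or]; exact ⟨hab, hac, had⟩
  have l1 := Finset.card_le_card hin
  have l2 := Finset.card_union_le F1 F2
  rw [← hm]
  have e2 : F2.card = ((sq4 ρ a).filter (fun x => ¬ φ x ∈ T)).card := rfl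
  omega

/-- `T` is bad for the pairing `{ab|cd}`. -/
theorem Corner.bad_type {T : Finset V} (hT : T ⊆ S \ sq4 ρ a) (hne : T.Nonempty)
    (hcl : ∀ x ∈ T, ρ x ∈ T) (hTne : T ≠ S \ sq4 ρ a)
    (hbad : (T.filter (fun x => spl φ (φ a) (φ b) (φ c) (φ d) x ∉ T)).card < 4) :
    cutc φ T = 4 ∧ ((φ a ∈ T ∧ φ b ∈ T ∧ φ c ∉ T ∧ φ d ∉ T) ∨
      (φ a ∉ T ∧ φ b ∉ T ∧ φ c ∈ T ∧ φ d ∈ T)) := by
  obtain ⟨_, hb, hc, hd, hx⟩ := h.sq_mems ha hQ hab hac had hbc hbd hcd hS
  have hTS : T ⊆ S := fun x hx => (Finset.mem_sdiff.1 (hT hx)).1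
  have hTQ : ∀ x ∈ T, x ∉ sq4 ρ a := fun x hx => (Finset.mem_sdiff.1 (hT hx)).2
  have hadd := h.cut_add ha hQ hab hac had hbc hbd hcd hS hT hne hcl hTne
  have hTneS : T ≠ S := by
    intro e
    have : a ∈ T := e ▸ ha
    exact hTQ a this (mem_sq4.2 (Or.inl rfl))
  have hcut : 4 ≤ cutc φ T := h.cut T hTS hne hTneS hcl
  have heven := h.even_cutc hTS hcl
  -- c(T) <= c'(T) + corrections
  have hle : cutc φ T ≤ (T.filter (fun x => spl φ (φ a) (φ b) (φ c) (φ d) x ∉ T)).card +
      (if φ a ∈ T ∧ φ b ∈ T then 2 else 0) + (if φ c ∈ T ∧ φ d ∈ T then 2 else 0) := by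
    have hin : T.filter (fun x => φ x ∉ T) ⊆
        (T.filter (fun x => spl φ (φ a) (φ b) (φ c) (φ d) x ∉ T) ∪
        (if φ a ∈ T ∧ φ b ∈ T then {φ a, φ b} else ∅)) ∪
        (if φ c ∈ T ∧ φ d ∈ T then {φ c, φ d} else ∅) := by
      intro x hx
      rw [Finset.mem_filter] at hx
      rw [Finset.mem_union, Finset.mem_union, Finset.mem_filter]
      by_cases e1 : x = φ a
      · by_cases k : φ b ∈ T
        · left; right
          rw [if_pos ⟨e1 ▸ hx.1, k⟩]; simp [e1]
        · left; left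
          refine ⟨hx.1, ?_⟩
          rw [spl, if_pos e1]; exact k
      by_cases e2 : x = φ b
      · by_cases k : φ a ∈ T
        · left; right
          rw [if_pos ⟨k, e2 ▸ hx.1⟩]; simp [e2]
        · left; left
          refine ⟨hx.1, ?_⟩
          rw [spl, if_neg e1, if_pos e2]; exact k
      by_cases e3 : x = φ c
      · by_cases k : φ d ∈ T
        · right
          rw [if_pos ⟨e3 ▸ hx.1, k⟩]; simp [e3]
        · left; left
          refine ⟨hx.1, ?_⟩
          rw [spl, if_neg e1, if_neg e2, if_pos e3]; exact k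
      by_cases e4 : x = φ d
      · by_cases k : φ c ∈ T
        · right
          rw [if_pos ⟨k, e4 ▸ hx.1⟩]; simp [e4]
        · left; left
          refine ⟨hx.1, ?_⟩
          rw [spl, if_neg e1, if_neg e2, if_neg e3, if_pos e4]; exact k
      left; left
      refine ⟨hx.1, ?_⟩
      rw [spl, if_neg e1, if_neg e2, if_neg e3, if_neg e4]; exact hx.2
    have l1 := Finset.card_le_card hin
    have l2 := Finset.card_union_le ((T.filter (fun x => spl φ (φ a) (φ b) (φ c) (φ d) x ∉ T) ∪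
        (if φ a ∈ T ∧ φ b ∈ T then {φ a, φ b} else ∅)))
        (if φ c ∈ T ∧ φ d ∈ T then {φ c, φ d} else ∅)
    have l3 := Finset.card_union_le (T.filter (fun x => spl φ (φ a) (φ b) (φ c) (φ d) x ∉ T))
        (if φ a ∈ T ∧ φ b ∈ T then {φ a, φ b} else ∅)
    have l4 : (if φ a ∈ T ∧ φ b ∈ T then ({φ a, φ b} : Finset V) else ∅).card ≤
        (if φ a ∈ T ∧ φ b ∈ T then 2 else 0) := by
      split_ifs
      · exact Finset.card_le_two
      · simp
    have l5 : (if φ c ∈ T ∧ φ d ∈ T then ({φ c, φ d} : Finset V) else ∅).card ≤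
        (if φ c ∈ T ∧ φ d ∈ T then 2 else 0) := by
      split_ifs
      · exact Finset.card_le_two
      · simp
    unfold cutc
    omega
  obtain ⟨r, hr⟩ := heven
  by_cases k1 : φ a ∈ T <;> by_cases k2 : φ b ∈ T <;> by_cases k3 : φ c ∈ T <;>
    by_cases k4 : φ d ∈ T <;> simp only [k1, k2, k3, k4, if_true, if_false, and_true, true_and,
      and_false, false_and, not_true, not_false_iff, or_true, or_false, true_or, false_or] at hadd hle ⊢ <;>
    omega

end main

end Pool.Jg
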