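import Pool.Agent.Lib.MP_fc2a59_co.Jg.Defs

set_option autoImplicit false

/-!
Surgery lemmas for trees in the Euler form `Tr`.
-/

namespace Pool.Jg

variable {V : Type} [DecidableEq V]

open Classical in
theorem pairs_eq_sum (R : V → V → Prop) (s : Finset V) :
    pairs R s = ∑ a ∈ s, (s.filter (fun b => R a b)).card := by
  unfold pairs
  rw [Finset.card_filter, Finset.sum_product]
  refine Finset.sum_congr rfl ?_
  intro a _
  rw [Finset.card_filter]

open Classical in
theorem pairs_insert (R : V → V → Prop) (s : Finset V) (v : V) (hv : v ∉ s)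
    (hirr : ¬ R v v) (hsym : ∀ u ∈ s, (R u v ↔ R v u)) :
    pairs R (insert v s) = pairs R s + 2 * (s.filter (fun u => R v u)).card := by
  rw [pairs_eq_sum, pairs_eq_sum, Finset.sum_insert hv]
  have h1 : ((insert v s).filter (fun b => R v b)) = s.filter (fun b => R v b) := by
    rw [Finset.filter_insert]; simp [hirr]
  have h2 : ∀ a ∈ s, ((insert v s).filter (fun b => R a b)).card
      = (s.filter (fun b => R a b)).card + (if R a v then 1 else 0) := by
    intro a ha
    rw [Finset.filter_insert]
    by_cases h : R a v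
    · simp only [h, if_true]
      rw [Finset.card_insert_of_notMem]
      simp [hv]
    · simp [h]
  rw [Finset.sum_congr rfl h2, Finset.sum_add_distrib, h1]
  have h3 : (∑ a ∈ s, (if R a v then 1 else 0)) = (s.filter (fun u => R v u)).card := by
    rw [Finset.card_filter]
    refine Finset.sum_congr rfl ?_
    intro a ha
    by_cases h : R a v
    · have : R v a := (hsym a ha).1 h
      simp [h, this]
    · have : ¬ R v a := fun hh => h ((hsym a ha).2 hh)
      simp [h, this]
  rw [h3]; ring

open Classical in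
theorem pairs_congr (R R' : V → V → Prop) (s : Finset V)
    (h : ∀ a ∈ s, ∀ b ∈ s, (R a b ↔ R' a b)) : pairs R s = pairs R' s := by
  rw [pairs_eq_sum, pairs_eq_sum]
  refine Finset.sum_congr rfl ?_
  intro a ha
  congr 1
  refine Finset.filter_congr ?_
  intro b hb
  exact h a ha b hb

theorem Conn.congr {R R' : V → V → Prop} {s : Finset V}
    (h : ∀ a ∈ s, ∀ b ∈ s, (R a b ↔ R' a b)) (hc : Conn R s) : Conn R' s := by
  intro a ha b hb
  have := hc a ha b hb
  refine Relation.ReflTransGen.mono ?_ _ _ this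
  rintro x y ⟨hx, hy, hxy⟩
  exact ⟨hx, hy, (h x hx y hy).1 hxy⟩

theorem Tr.congr {R R' : V → V → Prop} {s : Finset V}
    (h : ∀ a ∈ s, ∀ b ∈ s, (R a b ↔ R' a b)) (ht : Tr R s) : Tr R' s :=
  ⟨ht.ne, ht.conn.congr h, by rw [← pairs_congr R R' s h]; exact ht.cnt⟩

/-- Adding a vertex joined to at least one vertex keeps connectivity. -/
theorem Conn.ins {R : V → V → Prop} {s : Finset V} {v w : V} (hc : Conn R s)
    (hw : w ∈ s) (hvw : R v w) (hwv : R w v) : Conn R (insert v s) := by
  have mono : ∀ a b, Relation.ReflTransGen (stepIn R s) a b →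
      Relation.ReflTransGen (stepIn R (insert v s)) a b := by
    intro a b h
    refine Relation.ReflTransGen.mono ?_ _ _ h
    rintro x y ⟨hx, hy, hxy⟩
    exact ⟨Finset.mem_insert_of_mem hx, Finset.mem_insert_of_mem hy, hxy⟩
  have hto : ∀ a ∈ insert v s, Relation.ReflTransGen (stepIn R (insert v s)) a w := by
    intro a ha
    rcases Finset.mem_insert.1 ha with rfl | ha'
    · exact Relation.ReflTransGen.single
        ⟨Finset.mem_insert_self _ _, Finset.mem_insert_of_mem hw, hvw⟩
    · exact mono _ _ (hc a ha' w hw)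
  have hfrom : ∀ a ∈ insert v s, Relation.ReflTransGen (stepIn R (insert v s)) w a := by
    intro a ha
    rcases Finset.mem_insert.1 ha with rfl | ha'
    · exact Relation.ReflTransGen.single
        ⟨Finset.mem_insert_of_mem hw, Finset.mem_insert_self _ _, hwv⟩
    · exact mono _ _ (hc w hw a ha')
  intro a ha b hb
  exact (hto a ha).trans (hfrom b hb)

open Classical in
/-- Adding a leaf. -/
theorem Tr.leaf {R : V → V → Prop} {s : Finset V} {v w : V} (ht : Tr R s) (hv : v ∉ s)
    (hw : w ∈ s) (hvw : R v w) (honly : ∀ u ∈ s, R v u → u = w)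
    (hirr : ¬ R v v) (hsym : ∀ u ∈ s, (R u v ↔ R v u)) : Tr R (insert v s) := by
  refine ⟨⟨v, Finset.mem_insert_self _ _⟩, ht.conn.ins hw hvw ((hsym w hw).2 hvw), ?_⟩
  rw [pairs_insert R s v hv hirr hsym, Finset.card_insert_of_notMem hv]
  have h1 : (s.filter (fun u => R v u)) = {w} := by
    ext u
    simp only [Finset.mem_filter, Finset.mem_singleton]
    constructor
    · rintro ⟨hu, hr⟩; exact honly u hu hr
    · rintro rfl; exact ⟨hw, hvw⟩
  rw [h1, Finset.card_singleton]
  have := ht.cnt
  omega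

/-- Removing a leaf keeps connectivity. -/
theorem Conn.erase {R : V → V → Prop} {s : Finset V} {v w : V} (hc : Conn R s)
    (hv : v ∈ s) (hvw : v ≠ w)
    (honly : ∀ u ∈ s, R v u → u = w) (hsym : ∀ u ∈ s, (R u v ↔ R v u)) :
    Conn R (s.erase v) := by
  intro a ha b hb
  have ha' := Finset.mem_erase.1 ha
  have hb' := Finset.mem_erase.1 hb
  have key : ∀ z, Relation.ReflTransGen (stepIn R s) a z →
      (z ≠ v → Relation.ReflTransGen (stepIn R (s.erase v)) a z) ∧
      (z = v → Relation.ReflTransGen (stepIn R (s.erase v)) a w) := by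
    intro z hz
    induction hz with
    | refl => exact ⟨fun _ => Relation.ReflTransGen.refl, fun h => absurd h ha'.1⟩
    | @tail y z _ hstep ih =>
      obtain ⟨hy, hz, hr⟩ := hstep
      constructor
      · intro hzv
        by_cases hyv : y = v
        · subst hyv
          have := honly z hz hr
          rw [this]
          exact ih.2 rfl
        · refine (ih.1 hyv).tail ⟨Finset.mem_erase.2 ⟨hyv, hy⟩, Finset.mem_erase.2 ⟨hzv, hz⟩, hr⟩
      · intro hzv
        subst hzv
        by_cases hyv : y = z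
        · subst hyv
          exact ih.2 rfl
        · have h1 : R z y := (hsym y hy).1 hr
          have h2 : y = w := honly y hy h1
          rw [← h2]
          exact ih.1 hyv
  exact (key b (hc a ha'.2 b hb'.2)).1 hb'.1

open Classical in
/-- Removing a leaf. -/
theorem Tr.erase {R : V → V → Prop} {s : Finset V} {v w : V} (ht : Tr R s) (hv : v ∈ s)
    (hw : w ∈ s) (hvw : v ≠ w) (hr : R v w) (honly : ∀ u ∈ s, R v u → u = w)
    (hirr : ¬ R v v) (hsym : ∀ u ∈ s, (R u v ↔ R v u)) : Tr R (s.erase v) := by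
  refine ⟨⟨w, Finset.mem_erase.2 ⟨hvw.symm, hw⟩⟩, ht.conn.erase hv hvw honly hsym, ?_⟩
  have h0 : insert v (s.erase v) = s := Finset.insert_erase hv
  have h1 := pairs_insert R (s.erase v) v (Finset.notMem_erase v s) hirr
    (fun u hu => hsym u (Finset.mem_of_mem_erase hu))
  rw [h0] at h1
  have h2 : ((s.erase v).filter (fun u => R v u)) = {w} := by
    ext u
    simp only [Finset.mem_filter, Finset.mem_singleton]
    constructor
    · rintro ⟨hu, hru⟩; exact honly u (Finset.mem_of_mem_erase hu) hru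
    · rintro rfl; exact ⟨Finset.mem_erase.2 ⟨hvw.symm, hw⟩, hr⟩
  rw [h2, Finset.card_singleton] at h1
  have h3 := ht.cnt
  have h4 : (s.erase v).card + 1 = s.card := Finset.card_erase_add_one hv
  omega

open Classical in
/-- Subdividing the edge `x y` of the tree by the new vertex `q`. -/
theorem Tr.subdiv {R R' : V → V → Prop} {s : Finset V} {x y q : V} (ht : Tr R' s)
    (hx : x ∈ s) (hy : y ∈ s) (hxy : x ≠ y) (hq : q ∉ s)
    (hnxy : ¬ R x y) (hnyx : ¬ R y x)
    (hag : ∀ a ∈ s, ∀ b ∈ s, (R' a b ↔ R a b ∨ (a = x ∧ b = y) ∨ (a = y ∧ b = x)))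
    (hqn : ∀ u ∈ s, (R q u ↔ u = x ∨ u = y)) (hirr : ¬ R q q)
    (hsym : ∀ u ∈ s, (R u q ↔ R q u)) : Tr R (insert q s) := by
  refine ⟨⟨q, Finset.mem_insert_self _ _⟩, ?_, ?_⟩
  · -- connectivity
    have hqx : R q x := (hqn x hx).2 (Or.inl rfl)
    have hqy : R q y := (hqn y hy).2 (Or.inr rfl)
    have hxq : R x q := (hsym x hx).2 hqx
    have hyq : R y q := (hsym y hy).2 hqy
    have mq : q ∈ insert q s := Finset.mem_insert_self _ _
    have mm : ∀ {u}, u ∈ s → u ∈ insert q s := fun h => Finset.mem_insert_of_mem h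
    have key : ∀ a b, Relation.ReflTransGen (stepIn R' s) a b →
        Relation.ReflTransGen (stepIn R (insert q s)) a b := by
      intro a b h
      induction h with
      | refl => exact Relation.ReflTransGen.refl
      | tail _ hstep ih =>
        obtain ⟨hy1, hz1, hr⟩ := hstep
        rcases (hag _ hy1 _ hz1).1 hr with h1 | ⟨rfl, rfl⟩ | ⟨rfl, rfl⟩
        · exact ih.tail ⟨mm hy1, mm hz1, h1⟩
        · exact (ih.tail ⟨mm hy1, mq, hxq⟩).tail ⟨mq, mm hz1, hqy⟩
        · exact (ih.tail ⟨mm hy1, mq, hyq⟩).tail ⟨mq, mm hz1, hqx⟩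
    have hto : ∀ a ∈ insert q s, Relation.ReflTransGen (stepIn R (insert q s)) a x := by
      intro a ha
      rcases Finset.mem_insert.1 ha with rfl | ha'
      · exact Relation.ReflTransGen.single ⟨mq, mm hx, hqx⟩
      · exact key _ _ (ht.conn a ha' x hx)
    have hfrom : ∀ a ∈ insert q s, Relation.ReflTransGen (stepIn R (insert q s)) x a := by
      intro a ha
      rcases Finset.mem_insert.1 ha with rfl | ha'
      · exact Relation.ReflTransGen.single ⟨mm hx, mq, hxq⟩
      · exact key _ _ (ht.conn x hx a ha')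
    intro a ha b hb
    exact (hto a ha).trans (hfrom b hb)
  · rw [pairs_insert R s q hq hirr hsym, Finset.card_insert_of_notMem hq]
    have h1 : (s.filter (fun u => R q u)) = {x, y} := by
      ext u
      simp only [Finset.mem_filter, Finset.mem_insert, Finset.mem_singleton]
      constructor
      · rintro ⟨hu, hr⟩; exact (hqn u hu).1 hr
      · intro h
        have hu : u ∈ s := by rcases h with rfl | rfl <;> assumption
        exact ⟨hu, (hqn u hu).2 h⟩
    rw [h1, Finset.card_pair hxy]
    have h2 : pairs R' s = pairs R s + 2 := by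
      unfold pairs
      have e : ((s ×ˢ s).filter (fun p => R' p.1 p.2))
          = insert (x, y) (insert (y, x) ((s ×ˢ s).filter (fun p => R p.1 p.2))) := by
        ext ⟨a, b⟩
        simp only [Finset.mem_filter, Finset.mem_product, Finset.mem_insert, Prod.mk.injEq]
        constructor
        · rintro ⟨⟨ha, hb⟩, hr⟩
          rcases (hag a ha b hb).1 hr with h | h | h
          · exact Or.inr (Or.inr ⟨⟨ha, hb⟩, h⟩)
          · exact Or.inl h
          · exact Or.inr (Or.inl h)
        · rintro (⟨rfl, rfl⟩ | ⟨rfl, rfl⟩ | ⟨⟨ha, hb⟩, h⟩)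
          · exact ⟨⟨hx, hy⟩, (hag _ hx _ hy).2 (Or.inr (Or.inl ⟨rfl, rfl⟩))⟩
          · exact ⟨⟨hy, hx⟩, (hag _ hy _ hx).2 (Or.inr (Or.inr ⟨rfl, rfl⟩))⟩
          · exact ⟨⟨ha, hb⟩, (hag _ ha _ hb).2 (Or.inl h)⟩
      rw [e, Finset.card_insert_of_notMem, Finset.card_insert_of_notMem]
      · simp [hnyx]
      · simp only [Finset.mem_insert, Prod.mk.injEq, Finset.mem_filter, not_or, not_and]
        exact ⟨fun h => absurd h hxy, fun _ => hnxy⟩
    have h3 := ht.cnt
    omega

end Pool.Jg
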