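import Pool.Agent.Lib.MP_fc2a59_co.Jg.Fam
import Pool.Agent.Lib.MP_fc2a59_co.Jg.Cfg

/-!
# MP_fc2a59_co (Jaeger): the vertices which are not covered by a maximum family of 4-cycles
-/

set_option autoImplicit false

namespace Pool.Jg

open Finset

variable {V : Type} [Fintype V] [DecidableEq V] {G : SimpleGraph V} [DecidableRel G.Adj]
variable {ι : Type} [Fintype ι] {f o : ι → Fin 4 → V}

/-- a maximum family of disjoint 4-cycles with the third neighbours `o i k` -/
structure MF (G : SimpleGraph V) [DecidableRel G.Adj] (f o : ι → Fin 4 → V) : Prop where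
  h3 : ∀ v, G.degree v = 3
  hc : CutHyp G
  h8 : 8 ≤ Fintype.card V
  fam : Fam G f
  max : ∀ m, HasFam G m → m ≤ Fintype.card ι
  o1 : ∀ i k, o i k ≠ f i (k + 1)
  o3 : ∀ i k, o i k ≠ f i (k + 3)
  oa : ∀ i k, G.Adj (f i k) (o i k)
  on : ∀ i k w, G.Adj (f i k) w → w = f i (k + 1) ∨ w = f i (k + 3) ∨ w = o i k

/-- not covered -/
def Un (f : ι → Fin 4 → V) (v : V) : Prop := ∀ i k, v ≠ f i k

/-- an attached pair -/
def Att (G : SimpleGraph V) (f o : ι → Fin 4 → V) (i : ι) (k : Fin 4) : Prop :=
  Un f (o i k) ∧ Un f (o i (k + 1)) ∧ G.Adj (o i k) (o i (k + 1))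

theorem f31 (k : Fin 4) : k + 3 + 1 = k := by revert k; decide
theorem f11 (k : Fin 4) : k + 1 + 1 = k + 2 := by revert k; decide
theorem f21 (k : Fin 4) : k + 2 + 1 = k + 3 := by revert k; decide
theorem f13 (k : Fin 4) : k + 1 + 3 = k := by revert k; decide
theorem f33 (k : Fin 4) : k + 3 + 3 = k + 2 := by revert k; decide
theorem f22 (k : Fin 4) : k + 2 + 2 = k := by revert k; decide
theorem f23 (k : Fin 4) : k + 2 + 3 = k + 1 := by revert k; decide
theorem f12 (k : Fin 4) : k + 1 + 2 = k + 3 := by revert k; decide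
theorem f32 (k : Fin 4) : k + 3 + 2 = k + 1 := by revert k; decide
theorem fcases (k l : Fin 4) : l = k ∨ l = k + 1 ∨ l = k + 2 ∨ l = k + 3 := by
  revert k l; decide
theorem fne1 (k : Fin 4) : k ≠ k + 1 := by revert k; decide
theorem fne2 (k : Fin 4) : k ≠ k + 2 := by revert k; decide
theorem fne3 (k : Fin 4) : k ≠ k + 3 := by revert k; decide
theorem fne13 (k : Fin 4) : k + 1 ≠ k + 3 := by revert k; decide

namespace MF

variable (h : MF G f o)

include h

theorem a1 (i : ι) (k : Fin 4) : G.Adj (f i k) (f i (k + 1)) := h.fam.adj i k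

theorem a3 (i : ι) (k : Fin 4) : G.Adj (f i k) (f i (k + 3)) := by
  have := h.fam.adj i (k + 3)
  rw [f31] at this
  exact this.symm

theorem fne (i : ι) {k l : Fin 4} (hkl : k ≠ l) : f i k ≠ f i l := fun h' =>
  hkl (h.fam.inj i i k l h').2

/-- the third neighbour is not in the square -/
theorem o_own (i : ι) (k l : Fin 4) : o i k ≠ f i l := by
  intro hkl
  rcases fcases k l with rfl | rfl | rfl | rfl
  · have := h.oa i l
    rw [hkl] at this
    exact this.ne rfl
  · exact h.o1 i k hkl
  · have h1 := h.oa i k
    rw [hkl] at h1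
    have h2 := h.a1 i (k + 1)
    rw [f11] at h2
    exact no_tri h.h3 h.hc (by have := h.h8; omega) (h.a1 i k) h2 h1
  · exact h.o3 i k hkl

theorem o_inj (i : ι) {k l : Fin 4} (hkl : o i k = o i l) : k = l := by
  rcases fcases k l with rfl | rfl | rfl | rfl
  · rfl
  · exfalso
    have h1 := h.oa i k
    have h2 := h.oa i (k + 1)
    rw [← hkl] at h2
    exact no_tri h.h3 h.hc (by have := h.h8; omega) (h.a1 i k) h2 h1
  · exfalso
    have h1 := h.oa i k
    have h2 := h.oa i (k + 2)
    rw [← hkl] at h2
    have h4 := h.a1 i (k + 1)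
    rw [f11] at h4
    have h5 := h.a1 i (k + 2)
    rw [f21] at h5
    exact no_K23 h.h3 h.hc h.h8 (h.fne i (fne2 k)) (h.fne i (fne13 k))
      (h.o_own i k (k + 1)).symm (h.o_own i k (k + 3)).symm (h.a1 i k) (h.a3 i k) h1 h4.symm h5 h2
  · exfalso
    have h1 := h.oa i k
    have h2 := h.oa i (k + 3)
    rw [← hkl] at h2
    exact no_tri h.h3 h.hc (by have := h.h8; omega) (h.a3 i k) h2 h1

/-- an uncovered 4-cycle contradicts maximality -/
theorem no_new {g : Fin 4 → V} (hg : Function.Injective g) (hadj : ∀ k, G.Adj (g k) (g (k + 1)))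
    (hd : ∀ k, Un f (g k)) : False := by
  have h1 := h.max (Fintype.card (Option ι)) ⟨Option ι, inferInstance, rfl, _,
    h.fam.add hg hadj fun i k l h' => hd l i k h'.symm⟩
  rw [Fintype.card_option] at h1
  omega

/-- THE UNCOVERED VERTICES -/
theorem unc {v : V} (hv : Un f v) (h4 : OnC4 G v) :
    ∃ i k, Att G f o i k ∧ (v = o i k ∨ v = o i (k + 1)) := by
  -- first the case in which `b` is covered and `a` is the square neighbour of `b`
  have key : ∀ i k b, b = f i k → ∀ a c, v ≠ b → a ≠ c → G.Adj v a → G.Adj a b → G.Adj b c →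
      G.Adj c v → (a = f i (k + 1) ∨ a = f i (k + 3)) →
      ∃ i k, Att G f o i k ∧ (v = o i k ∨ v = o i (k + 1)) := by
    rintro i k b rfl a c hvb hac va ab bc cv ha
    -- `c` is the third neighbour of `b`
    have hc : c = o i k := by
      rcases h.on i k c bc with hc | hc | hc
      · exfalso
        rcases ha with ha | ha
        · exact hac (ha.trans hc.symm)
        · have h4 := h.a1 i (k + 1)
          rw [f11] at h4
          have h5 := h.a1 i (k + 2)
          rw [f21] at h5
          refine no_K23 h.h3 h.hc h.h8 (x := f i (k + 1)) (z := f i (k + 3)) (a := f i k)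
            (b := f i (k + 2)) (c := v) (h.fne i (fne13 k)) (h.fne i (fne2 k)) (hv i k).symm
            (hv i (k + 2)).symm (h.a1 i k).symm h4 ?_ (h.a3 i k).symm h5.symm ?_
          · rw [← hc]; exact cv
          · rw [← ha]; exact va.symm
      · exfalso
        rcases ha with ha | ha
        · have h4 := h.a1 i (k + 1)
          rw [f11] at h4
          have h5 := h.a1 i (k + 2)
          rw [f21] at h5
          refine no_K23 h.h3 h.hc h.h8 (x := f i (k + 1)) (z := f i (k + 3)) (a := f i k)
            (b := f i (k + 2)) (c := v) (h.fne i (fne13 k)) (h.fne i (fne2 k)) (hv i k).symm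
            (hv i (k + 2)).symm (h.a1 i k).symm h4 ?_ (h.a3 i k).symm h5.symm ?_
          · rw [← ha]; exact va.symm
          · rw [← hc]; exact cv
        · exact hac (ha.trans hc.symm)
      · exact hc
    -- `v` is the third neighbour of `a`
    have hcU : Un f c := by
      intro j l hcj
      -- `b` is a neighbour of `c`, and `v` is the other one
      have hb := h.on j l (f i k) (by rw [← hcj]; exact bc.symm)
      have hv' := h.on j l v (by rw [← hcj]; exact cv)
      have hv2 : v = o j l := by
        rcases hv' with h' | h' | h'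
        · exact absurd h' (hv _ _)
        · exact absurd h' (hv _ _)
        · exact h'
      rcases hb with h' | h' | h'
      · obtain ⟨rfl, hk⟩ := h.fam.inj _ _ _ _ h'
        subst hk
        exact h.o_own i (l + 1) l (by rw [← hc, hcj])
      · obtain ⟨rfl, hk⟩ := h.fam.inj _ _ _ _ h'
        subst hk
        exact h.o_own i (l + 3) l (by rw [← hc, hcj])
      · exact hvb (hv2.trans h'.symm)
    rcases ha with ha | ha
    · have hva : v = o i (k + 1) := by
        rcases h.on i (k + 1) v (by rw [← ha]; exact va.symm) with h' | h' | h'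
        · exact absurd h' (hv _ _)
        · exact absurd h' (hv _ _)
        · exact h'
      refine ⟨i, k, ⟨by rw [← hc]; exact hcU, by rw [← hva]; exact hv, ?_⟩, Or.inr hva⟩
      rw [← hc, ← hva]; exact cv
    · have hva : v = o i (k + 3) := by
        rcases h.on i (k + 3) v (by rw [← ha]; exact va.symm) with h' | h' | h'
        · exact absurd h' (hv _ _)
        · exact absurd h' (hv _ _)
        · exact h'
      refine ⟨i, k + 3, ⟨by rw [← hva]; exact hv, by rw [f31, ← hc]; exact hcU, ?_⟩, Or.inl hva⟩
      rw [f31, ← hc, ← hva]; exact cv.symm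
  obtain ⟨a, b, c, hvb, hac, va, ab, bc, cv⟩ := h4
  by_cases hb : Un f b
  · -- then `a` and `c` are uncovered
    have hun : ∀ x, G.Adj x b → G.Adj x v → Un f x := by
      intro x xb xv j l hx
      have h1 := h.on j l b (by rw [← hx]; exact xb)
      have h2 := h.on j l v (by rw [← hx]; exact xv)
      have h1' : b = o j l := by
        rcases h1 with h' | h' | h'
        · exact absurd h' (hb _ _)
        · exact absurd h' (hb _ _)
        · exact h'
      have h2' : v = o j l := by
        rcases h2 with h' | h' | h'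
        · exact absurd h' (hv _ _)
        · exact absurd h' (hv _ _)
        · exact h'
      exact hvb (h2'.trans h1'.symm)
    have ha := hun a ab va.symm
    have hc := hun c bc.symm cv
    exfalso
    refine h.no_new (inj4 va.ne hvb cv.ne.symm ab.ne hac bc.ne) (adj4 va ab bc cv) ?_
    intro k
    fin_cases k
    · exact hv
    · exact ha
    · exact hb
    · exact hc
  · unfold Un at hb
    push Not at hb
    obtain ⟨i, k, hb⟩ := hb
    have h1 := h.on i k a (by rw [← hb]; exact ab.symm)
    have h2 := h.on i k c (by rw [← hb]; exact bc)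
    rcases h1 with h1 | h1 | h1
    · exact key i k b hb a c hvb hac va ab bc cv (Or.inl h1)
    · exact key i k b hb a c hvb hac va ab bc cv (Or.inr h1)
    · rcases h2 with h2 | h2 | h2
      · exact key i k b hb c a hvb hac.symm cv.symm bc.symm ab.symm va.symm (Or.inl h2)
      · exact key i k b hb c a hvb hac.symm cv.symm bc.symm ab.symm va.symm (Or.inr h2)
      · exact absurd (h1.trans h2.symm) hac

end MF

end Pool.Jg
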