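import Pool.Agent.Lib.MP_fc2a59_co.Jg.Unc

/-!
# MP_fc2a59_co (Jaeger): every square has at most one attached pair
-/

set_option autoImplicit false

namespace Pool.Jg

open Finset

variable {V : Type} [Fintype V] [DecidableEq V] {G : SimpleGraph V} [DecidableRel G.Adj]
variable {ι : Type} [Fintype ι] {f o : ι → Fin 4 → V}

theorem even_card (h3 : ∀ v, G.degree v = 3) : Even (Fintype.card V) := by
  have h1 := G.sum_degrees_eq_twice_card_edges
  rw [sum_congr rfl fun v _ => h3 v, sum_const, card_univ, smul_eq_mul] at h1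
  rw [Nat.even_iff]
  omega

namespace MF

variable (h : MF G f o)

include h

/-- the opposite edge -/
theorem att_opp {i : ι} {k : Fin 4} (h1 : Att G f o i k) (h2 : Att G f o i (k + 2)) : False := by
  classical
  unfold Att at h1 h2
  rw [f21] at h2
  obtain ⟨u0, u1, e1⟩ := h1
  obtain ⟨u2, u3, e2⟩ := h2
  have i1 : Function.Injective ![f i k, f i (k + 1), o i (k + 1), o i k] :=
    inj4 (h.fne i (fne1 k)) (h.o_own i _ _).symm (h.o_own i _ _).symm (h.o_own i _ _).symm
      (h.o_own i _ _).symm e1.ne.symm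
  have a1 := adj4 (h.a1 i k) (h.oa i (k + 1)) e1.symm (h.oa i k).symm
  have e3 : G.Adj (f i (k + 2)) (f i (k + 3)) := by
    have := h.a1 i (k + 2); rw [f21] at this; exact this
  have i2 : Function.Injective ![f i (k + 2), f i (k + 3), o i (k + 3), o i (k + 2)] :=
    inj4 e3.ne (h.o_own i _ _).symm (h.o_own i _ _).symm (h.o_own i _ _).symm
      (h.o_own i _ _).symm e2.ne.symm
  have a2 := adj4 e3 (h.oa i (k + 3)) e2.symm (h.oa i (k + 2)).symm
  have F1 := h.fam.upd i i1 a1 (by
    intro j l m hj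
    fin_cases m
    · intro h'; exact hj (h.fam.inj _ _ _ _ h').1
    · intro h'; exact hj (h.fam.inj _ _ _ _ h').1
    · exact (u1 j l).symm
    · exact (u0 j l).symm)
  have F2 := F1.add i2 a2 (by
    intro j l m
    by_cases hj : j = i
    · subst hj
      rw [Function.update_self]
      fin_cases l <;> fin_cases m
      · exact h.fne j (fne2 k)
      · exact h.fne j (fne3 k)
      · exact (h.o_own j _ _).symm
      · exact (h.o_own j _ _).symm
      · exact h.fne j (by rw [← f11]; exact fne1 _)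
      · exact h.fne j (fne13 k)
      · exact (h.o_own j _ _).symm
      · exact (h.o_own j _ _).symm
      · exact h.o_own j _ _
      · exact h.o_own j _ _
      · intro h'; exact fne13 k (h.o_inj j h')
      · intro h'; exact (show k + 1 ≠ k + 2 by rw [← f11]; exact fne1 _) (h.o_inj j h')
      · exact h.o_own j _ _
      · exact h.o_own j _ _
      · intro h'; exact fne3 k (h.o_inj j h')
      · intro h'; exact fne2 k (h.o_inj j h')
    · rw [Function.update_of_ne hj]
      fin_cases m
      · intro h'; exact hj (h.fam.inj _ _ _ _ h').1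
      · intro h'; exact hj (h.fam.inj _ _ _ _ h').1
      · exact (u3 j l).symm
      · exact (u2 j l).symm)
  have h1 := h.max (Fintype.card (Option ι)) ⟨Option ι, inferInstance, rfl, _, F2⟩
  rw [Fintype.card_option] at h1
  omega

/-- the adjacent edge -/
theorem att_adj {i : ι} {k : Fin 4} (h1 : Att G f o i k) (h2 : Att G f o i (k + 1)) : False := by
  classical
  unfold Att at h1 h2
  rw [f11] at h2
  obtain ⟨u0, u1, e1⟩ := h1
  obtain ⟨-, u2, e2⟩ := h2
  have n12 : k + 1 ≠ k + 2 := by rw [← f11]; exact fne1 _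
  have n23 : k + 2 ≠ k + 3 := by rw [← f21]; exact fne1 _
  have b1 : G.Adj (f i (k + 1)) (f i (k + 2)) := by
    have := h.a1 i (k + 1); rw [f11] at this; exact this
  have b2 : G.Adj (f i (k + 2)) (f i (k + 3)) := by
    have := h.a1 i (k + 2); rw [f21] at this; exact this
  have o02 : o i k ≠ o i (k + 2) := fun h' => fne2 k (h.o_inj i h')
  let U : Finset V := {f i k, f i (k + 1), f i (k + 2), f i (k + 3), o i k, o i (k + 1), o i (k + 2)}
  have hU : ∀ x, x ∈ U ↔ x = f i k ∨ x = f i (k + 1) ∨ x = f i (k + 2) ∨ x = f i (k + 3) ∨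
      x = o i k ∨ x = o i (k + 1) ∨ x = o i (k + 2) := by
    intro x; simp [U]
  have m0 : f i k ∈ U := by simp [U]
  have m1 : f i (k + 1) ∈ U := by simp [U]
  have m2 : f i (k + 2) ∈ U := by simp [U]
  have m3 : f i (k + 3) ∈ U := by simp [U]
  have p0 : o i k ∈ U := by simp [U]
  have p1 : o i (k + 1) ∈ U := by simp [U]
  have p2 : o i (k + 2) ∈ U := by simp [U]
  have c0 := out0 h.h3 (U := U) m1 m3 p0 (h.fne i (fne13 k)) (h.o_own i _ _).symm
    (h.o_own i _ _).symm (h.a1 i k) (h.a3 i k) (h.oa i k)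
  have c1 := out0 h.h3 (U := U) m0 m2 p1 (h.fne i (fne2 k)) (h.o_own i _ _).symm
    (h.o_own i _ _).symm (h.a1 i k).symm b1 (h.oa i (k + 1))
  have c2 := out0 h.h3 (U := U) m1 m3 p2 (h.fne i (fne13 k)) (h.o_own i _ _).symm
    (h.o_own i _ _).symm b1.symm b2 (h.oa i (k + 2))
  have c3 := out1 h.h3 (U := U) m0 m2 (h.fne i (fne2 k)) (h.a3 i k).symm b2.symm
  have c4 := out1 h.h3 (U := U) m0 p1 (h.o_own i _ _).symm (h.oa i k).symm e1
  have c5 := out0 h.h3 (U := U) m1 p0 p2 (h.o_own i _ _).symm (h.o_own i _ _).symm o02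
    (h.oa i (k + 1)).symm e1.symm e2
  have c6 := out1 h.h3 (U := U) m2 p1 (h.o_own i _ _).symm (h.oa i (k + 2)).symm e2.symm
  have r1 : f i k ∉ ({f i (k + 1), f i (k + 2), f i (k + 3), o i k, o i (k + 1), o i (k + 2)} :
      Finset V) := by
    simp only [mem_insert, mem_singleton, not_or]
    exact ⟨h.fne i (fne1 k), h.fne i (fne2 k), h.fne i (fne3 k), (h.o_own i _ _).symm,
      (h.o_own i _ _).symm, (h.o_own i _ _).symm⟩
  have r2 : f i (k + 1) ∉ ({f i (k + 2), f i (k + 3), o i k, o i (k + 1), o i (k + 2)} :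
      Finset V) := by
    simp only [mem_insert, mem_singleton, not_or]
    exact ⟨h.fne i n12, h.fne i (fne13 k), (h.o_own i _ _).symm,
      (h.o_own i _ _).symm, (h.o_own i _ _).symm⟩
  have r3 : f i (k + 2) ∉ ({f i (k + 3), o i k, o i (k + 1), o i (k + 2)} : Finset V) := by
    simp only [mem_insert, mem_singleton, not_or]
    exact ⟨h.fne i n23, (h.o_own i _ _).symm, (h.o_own i _ _).symm, (h.o_own i _ _).symm⟩
  have r4 : f i (k + 3) ∉ ({o i k, o i (k + 1), o i (k + 2)} : Finset V) := by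
    simp only [mem_insert, mem_singleton, not_or]
    exact ⟨(h.o_own i _ _).symm, (h.o_own i _ _).symm, (h.o_own i _ _).symm⟩
  have r5 : o i k ∉ ({o i (k + 1), o i (k + 2)} : Finset V) := by
    simp only [mem_insert, mem_singleton, not_or]
    exact ⟨e1.ne, o02⟩
  have hcard : U.card = 7 := by
    simp only [U]
    rw [card_insert_of_notMem r1, card_insert_of_notMem r2, card_insert_of_notMem r3,
      card_insert_of_notMem r4, card_insert_of_notMem r5, card_pair e2.ne]
  have hcut : cutn G U ≤ 3 := by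
    rw [cutn]
    have hs : ∀ F : V → ℕ, ∑ x ∈ U, F x = F (f i k) + (F (f i (k + 1)) + (F (f i (k + 2)) +
        (F (f i (k + 3)) + (F (o i k) + (F (o i (k + 1)) + F (o i (k + 2))))))) := by
      intro F
      simp only [U]
      rw [sum_insert r1, sum_insert r2, sum_insert r3, sum_insert r4, sum_insert r5,
        sum_pair e2.ne]
    rw [hs]
    omega
  have hne : U.Nonempty := ⟨_, m0⟩
  have h8 := h.h8
  have hev := even_card h.h3
  have hUc : (Uᶜ).card = 1 := by
    rcases small_cut G h.h3 h.hc (cyc_in G h.h3 hne (by omega)) hcut with h' | h'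
    · rw [h', card_univ] at hcard
      omega
    · rw [card_compl, hcard] at h' ⊢
      rw [Nat.even_iff] at hev
      omega
  rw [card_eq_one] at hUc
  obtain ⟨z, hz⟩ := hUc
  have hzm : ∀ x, x ∉ U ↔ x = z := by
    intro x
    rw [← mem_compl, hz, mem_singleton]
  have hzU : z ∉ U := (hzm z).2 rfl
  -- the neighbours of `z`
  have hN : ∀ w, G.Adj z w → w = f i (k + 3) ∨ w = o i k ∨ w = o i (k + 2) := by
    intro w hw
    have hwU : w ∈ U := by
      by_contra hcon
      rw [hzm] at hcon
      exact hw.ne hcon.symm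
    have hout : 0 < (univ.filter fun x => x ∉ U ∧ G.Adj w x).card :=
      card_pos.2 ⟨z, by simp only [mem_filter, mem_univ, true_and]; exact ⟨hzU, hw.symm⟩⟩
    rcases (hU w).1 hwU with rfl | rfl | rfl | rfl | rfl | rfl | rfl
    · omega
    · omega
    · omega
    · exact Or.inl rfl
    · exact Or.inr (Or.inl rfl)
    · omega
    · exact Or.inr (Or.inr rfl)
  have hN2 : G.neighborFinset z ⊆ {f i (k + 3), o i k, o i (k + 2)} := by
    intro w hw
    rw [SimpleGraph.mem_neighborFinset] at hw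
    simp only [mem_insert, mem_singleton]
    exact hN w hw
  have hN3 : G.neighborFinset z = {f i (k + 3), o i k, o i (k + 2)} := by
    apply eq_of_subset_of_card_le hN2
    rw [SimpleGraph.card_neighborFinset_eq_degree, h.h3]
    exact card_le_three
  have z1 : G.Adj z (o i k) := by
    rw [← SimpleGraph.mem_neighborFinset, hN3]; simp
  have z2 : G.Adj z (o i (k + 2)) := by
    rw [← SimpleGraph.mem_neighborFinset, hN3]; simp
  have zU : Un f z := by
    intro j l hjl
    by_cases hj : j = i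
    · subst hj
      rcases fcases k l with rfl | rfl | rfl | rfl
      · exact hzU (by rw [hjl]; exact m0)
      · exact hzU (by rw [hjl]; exact m1)
      · exact hzU (by rw [hjl]; exact m2)
      · exact hzU (by rw [hjl]; exact m3)
    · have h9 : f j (l + 1) ∉ U := by
        rw [hU]
        rintro (h' | h' | h' | h' | h' | h' | h')
        · exact hj (h.fam.inj _ _ _ _ h').1
        · exact hj (h.fam.inj _ _ _ _ h').1
        · exact hj (h.fam.inj _ _ _ _ h').1
        · exact hj (h.fam.inj _ _ _ _ h').1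
        · exact u0 _ _ h'.symm
        · exact u1 _ _ h'.symm
        · exact u2 _ _ h'.symm
      rw [hzm] at h9
      rw [hjl] at h9
      exact fne1 l (h.fam.inj _ _ _ _ h9).2.symm
  have q1 : z ≠ o i (k + 1) := fun h' => hzU (by rw [h']; exact p1)
  refine h.no_new (inj4 e1.ne o02 z1.ne.symm e2.ne q1.symm z2.ne.symm)
    (adj4 e1 e2 z2.symm z1) ?_
  intro m
  fin_cases m
  · exact u0
  · exact u1
  · exact u2
  · exact zU

/-- at most one attached pair -/
theorem att_unique {i : ι} {k l : Fin 4} (h1 : Att G f o i k) (h2 : Att G f o i l) : k = l := by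
  rcases fcases k l with rfl | rfl | rfl | rfl
  · rfl
  · exact (h.att_adj h1 h2).elim
  · exact (h.att_opp h1 h2).elim
  · exact (h.att_adj h2 (by rw [f31]; exact h1)).elim

/-- two attached pairs are equal or disjoint: the vertex `v` of one of them determines the other
vertex of the pair -/
theorem att_partner {i j : ι} {k l : Fin 4} (h1 : Att G f o i k) (h2 : Att G f o j l)
    {v v' w' : V} (hv : (v = o i k ∧ v' = o i (k + 1)) ∨ (v = o i (k + 1) ∧ v' = o i k))
    (hw : (v = o j l ∧ w' = o j (l + 1)) ∨ (v = o j (l + 1) ∧ w' = o j l)) : v' = w' := by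
  by_contra hne
  obtain ⟨u0, u1, e1⟩ := h1
  obtain ⟨t0, t1, e2⟩ := h2
  have A1 : ∃ a, G.Adj v (f i a) ∧ v = o i a := by
    rcases hv with ⟨hv, _⟩ | ⟨hv, _⟩
    · exact ⟨k, by rw [hv]; exact (h.oa i k).symm, hv⟩
    · exact ⟨k + 1, by rw [hv]; exact (h.oa i (k + 1)).symm, hv⟩
  have A2 : ∃ b, G.Adj v (f j b) ∧ v = o j b := by
    rcases hw with ⟨hv, _⟩ | ⟨hv, _⟩
    · exact ⟨l, by rw [hv]; exact (h.oa j l).symm, hv⟩
    · exact ⟨l + 1, by rw [hv]; exact (h.oa j (l + 1)).symm, hv⟩
  have Uv' : Un f v' := by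
    rcases hv with ⟨_, hv⟩ | ⟨_, hv⟩ <;> rw [hv] <;> assumption
  have Uw' : Un f w' := by
    rcases hw with ⟨_, hv⟩ | ⟨_, hv⟩ <;> rw [hv] <;> assumption
  have Av' : G.Adj v v' := by
    rcases hv with ⟨h1, hv⟩ | ⟨h1, hv⟩ <;> rw [h1, hv]
    · exact e1
    · exact e1.symm
  have Aw' : G.Adj v w' := by
    rcases hw with ⟨h1, hv⟩ | ⟨h1, hv⟩ <;> rw [h1, hv]
    · exact e2
    · exact e2.symm
  obtain ⟨a, ha, hva⟩ := A1
  obtain ⟨b, hb, hvb⟩ := A2
  obtain ⟨y, -, -, -, hy⟩ := exists_third h.h3 hne Av' Aw'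
  have hya : f i a = y := by
    rcases hy _ ha with h' | h' | h'
    · exact absurd h'.symm (Uv' i a)
    · exact absurd h'.symm (Uw' i a)
    · exact h'
  have hyb : f j b = y := by
    rcases hy _ hb with h' | h' | h'
    · exact absurd h'.symm (Uv' j b)
    · exact absurd h'.symm (Uw' j b)
    · exact h'
  obtain ⟨rfl, rfl⟩ := h.fam.inj _ _ _ _ (hya.trans hyb.symm)
  have hkl := h.att_unique ⟨u0, u1, e1⟩ ⟨t0, t1, e2⟩
  subst hkl
  rcases hv with ⟨x1, x2⟩ | ⟨x1, x2⟩ <;> rcases hw with ⟨x3, x4⟩ | ⟨x3, x4⟩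
  · exact hne (x2.trans x4.symm)
  · exact fne1 k (h.o_inj i (x1.symm.trans x3))
  · exact fne1 k (h.o_inj i (x3.symm.trans x1))
  · exact hne (x2.trans x4.symm)

end MF

end Pool.Jg
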